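import Mathlib

/-! Divisor bound and the number of solutions of `∑ 1/nᵢ = ∑ 1/nᵢ'`. -/

namespace Pool.Agent.P.MP_26a8c3_nt.Hyb

open Finset

lemma div_bound {ε : ℝ} (hε : 0 < ε) :
    ∃ C : ℝ, 1 ≤ C ∧ ∀ n : ℕ, n ≠ 0 → (n.divisors.card : ℝ) ≤ C * (n : ℝ) ^ ε := by
  have hl2 : 0 < Real.log 2 := Real.log_pos one_lt_two
  set c : ℝ := 1 + (ε * Real.log 2)⁻¹ with hc
  have hc1 : 1 ≤ c := by
    have : 0 < (ε * Real.log 2)⁻¹ := by positivity
    linarith
  set N : ℕ := ⌈(2 : ℝ) ^ (ε⁻¹)⌉₊ with hN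
  refine ⟨c ^ N, one_le_pow₀ hc1, fun n hn => ?_⟩
  have key : ∀ p ∈ n.primeFactors, ((n.factorization p + 1 : ℕ) : ℝ) ≤
      (if p < N then c else 1) * ((p : ℝ) ^ n.factorization p) ^ ε := by
    intro p hp
    have hpp := Nat.prime_of_mem_primeFactors hp
    have hp2 : (2 : ℝ) ≤ p := by exact_mod_cast hpp.two_le
    set a := n.factorization p
    have e1 : ((p : ℝ) ^ a) ^ ε = ((p : ℝ) ^ ε) ^ a := by
      rw [← Real.rpow_natCast, ← Real.rpow_mul (by positivity), mul_comm,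
        Real.rpow_mul (by positivity), Real.rpow_natCast]
    split_ifs with h
    · have h1 : (2 : ℝ) ^ ε ≤ (p : ℝ) ^ ε := Real.rpow_le_rpow (by norm_num) hp2 hε.le
      have h2 : ((2 : ℝ) ^ ε) ^ a ≤ ((p : ℝ) ^ ε) ^ a := pow_le_pow_left₀ (by positivity) h1 a
      have h3 : ((2 : ℝ) ^ ε) ^ a = Real.exp (a * (ε * Real.log 2)) := by
        rw [Real.rpow_def_of_pos two_pos, ← Real.exp_nat_mul]; ring_nf
      have h4 := Real.add_one_le_exp (a * (ε * Real.log 2))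
      have h5 : (0 : ℝ) < ε * Real.log 2 := by positivity
      have h6 : (a : ℝ) + 1 ≤ c * (a * (ε * Real.log 2) + 1) := by
        rw [hc]
        have : (ε * Real.log 2)⁻¹ * (a * (ε * Real.log 2)) = a := by field_simp
        have h7 : (0 : ℝ) ≤ a * (ε * Real.log 2) := by positivity
        have h8 : 0 < (ε * Real.log 2)⁻¹ := by positivity
        nlinarith
      push_cast
      rw [e1]
      calc (a : ℝ) + 1 ≤ c * (a * (ε * Real.log 2) + 1) := h6
        _ ≤ c * ((p : ℝ) ^ ε) ^ a := by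
          refine mul_le_mul_of_nonneg_left ?_ (by linarith)
          linarith
    · have h1 : (2 : ℝ) ^ (ε⁻¹) ≤ p := (Nat.le_ceil _).trans (by exact_mod_cast not_lt.1 h)
      have h2 : (2 : ℝ) ≤ (p : ℝ) ^ ε := by
        have := Real.rpow_le_rpow (by positivity) h1 hε.le
        rwa [← Real.rpow_mul (by norm_num), inv_mul_cancel₀ hε.ne', Real.rpow_one] at this
      have h3 : a + 1 ≤ 2 ^ a := Nat.lt_two_pow_self
      rw [one_mul, e1]
      calc ((a + 1 : ℕ) : ℝ) ≤ (2 : ℝ) ^ a := by exact_mod_cast h3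
        _ ≤ _ := pow_le_pow_left₀ (by norm_num) h2 a
  rw [Nat.card_divisors hn, Nat.cast_prod]
  refine (Finset.prod_le_prod (fun _ _ => by positivity) key).trans ?_
  rw [Finset.prod_mul_distrib, Real.finsetProd_rpow _ _ (fun _ _ => by positivity)]
  have e2 : ∏ p ∈ n.primeFactors, (p : ℝ) ^ n.factorization p = n := by
    conv_rhs => rw [← Nat.prod_factorization_pow_eq_self hn]
    rw [Finsupp.prod, Nat.support_factorization]; push_cast; rfl
  rw [e2]
  refine mul_le_mul_of_nonneg_right ?_ (by positivity)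
  rw [Finset.prod_ite, Finset.prod_const_one, mul_one, Finset.prod_const]
  refine pow_le_pow_right₀ hc1 ?_
  calc (n.primeFactors.filter fun p => p < N).card ≤ (range N).card :=
        Finset.card_le_card fun p hp => Finset.mem_range.2 (Finset.mem_filter.1 hp).2
    _ = N := Finset.card_range N

/-- Numerator of a sum of reciprocals. -/
def num {K : ℕ} (n : Fin K → ℕ) : ℕ := ∑ i, ∏ j ∈ univ.erase i, n j

/-- Denominator of a sum of reciprocals. -/
def den {K : ℕ} (n : Fin K → ℕ) : ℕ := ∏ i, n i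

lemma den_eq {K : ℕ} (n : Fin K → ℕ) (i : Fin K) : den n = n i * ∏ j ∈ univ.erase i, n j :=
  (Finset.mul_prod_erase _ _ (Finset.mem_univ i)).symm

lemma recip_mul_den {F : Type*} [CommRing F] {K : ℕ} (n : Fin K → ℕ) (v : Fin K → F)
    (hv : ∀ i, v i * (n i : F) = 1) : (∑ i, v i) * (den n : F) = (num n : F) := by
  rw [Finset.sum_mul, num, Nat.cast_sum]
  refine Finset.sum_congr rfl fun i _ => ?_
  rw [den_eq n i, Nat.cast_mul, ← mul_assoc, hv, one_mul]

lemma sq_dvd_aux {K : ℕ} {n n' : Fin K → ℕ} (h : num n * den n' = num n' * den n) {p : ℕ}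
    (hp : p.Prime) (hd : p ∣ den n) : p ^ 2 ∣ den n * den n' := by
  obtain ⟨i, -, hi⟩ := (Prime.dvd_finsetProd_iff hp.prime _).1 hd
  by_cases h1 : p ∣ ∏ j ∈ univ.erase i, n j
  · rw [den_eq n i, sq]
    exact (mul_dvd_mul hi h1).mul_right _
  · have h2 : ¬ p ∣ num n := by
      intro h2
      rw [num, ← Finset.add_sum_erase _ _ (Finset.mem_univ i)] at h2
      refine h1 ((Nat.dvd_add_left ?_).1 h2)
      refine Finset.dvd_sum fun j hj => hi.trans (Finset.dvd_prod_of_mem _ ?_)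
      exact Finset.mem_erase.2 ⟨(Finset.mem_erase.1 hj).1.symm, Finset.mem_univ _⟩
    have h3 : p ∣ num n * den n' := h ▸ hd.mul_left _
    have h4 : p ∣ den n' := ((Nat.Prime.dvd_mul hp).1 h3).resolve_left h2
    rw [sq]
    exact mul_dvd_mul hd h4

lemma exists_cube {Z : ℕ} (hZ : Z ≠ 0) (h : ∀ p : ℕ, p.Prime → p ∣ Z → p ^ 2 ∣ Z) :
    ∃ a : ℕ, a ≠ 0 ∧ a ^ 2 ≤ Z ∧ Z ∣ a ^ 3 := by
  obtain ⟨b, a, hab, hb⟩ := Nat.sq_mul_squarefree Z
  have ha : a ≠ 0 := by rintro rfl; simp at hab; exact hZ hab.symm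
  have hb0 : b ≠ 0 := hb.ne_zero
  refine ⟨a, ha, ?_, ?_⟩
  · rw [← hab]; exact Nat.le_mul_of_pos_right _ (Nat.pos_of_ne_zero hb0)
  · have hba : b ∣ a := by
      rw [← Nat.prod_primeFactors_of_squarefree hb]
      refine Finset.prod_primes_dvd _ (fun p hp => (Nat.prime_of_mem_primeFactors hp).prime)
        fun p hp => ?_
      have hpp := Nat.prime_of_mem_primeFactors hp
      have hpb := Nat.dvd_of_mem_primeFactors hp
      by_contra hpa
      have h1 := h p hpp (hab ▸ hpb.mul_left _)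
      rw [← hab] at h1
      have h2 : Nat.Coprime (p ^ 2) (a ^ 2) :=
        Nat.Coprime.pow _ _ ((Nat.Prime.coprime_iff_not_dvd hpp).2 hpa)
      have h3 := h2.dvd_of_dvd_mul_left h1
      rw [sq] at h3
      exact hpp.one_lt.ne' (Nat.isUnit_iff.1 (hb p h3))
    rw [← hab, pow_succ a 2]
    exact Nat.mul_dvd_mul_left _ hba

/-- Number of related pairs. -/
noncomputable def pairs {ι : Type*} (I : Finset ι) (r : ι → ι → Prop) : ℝ :=
  open Classical in (((I ×ˢ I).filter fun p => r p.1 p.2).card : ℝ)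

lemma pairs_nonneg {ι : Type*} (I : Finset ι) (r : ι → ι → Prop) : 0 ≤ pairs I r := by
  unfold pairs; positivity

lemma pairs_mono {ι : Type*} (I : Finset ι) {r r' : ι → ι → Prop}
    (h : ∀ i ∈ I, ∀ j ∈ I, r i j → r' i j) : pairs I r ≤ pairs I r' := by
  classical
  unfold pairs
  refine Nat.cast_le.2 (Finset.card_le_card fun p hp => ?_)
  simp only [Finset.mem_filter, Finset.mem_product] at hp ⊢
  exact ⟨hp.1, h _ hp.1.1 _ hp.1.2 hp.2⟩

lemma pairs_eq_sum {ι : Type*} (I : Finset ι) (r : ι → ι → Prop) [DecidableRel r] :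
    pairs I r = ∑ i ∈ I, ∑ j ∈ I, if r i j then (1 : ℝ) else 0 := by
  unfold pairs
  rw [← Finset.sum_product', Finset.sum_boole]
  congr

/-- Sum of reciprocals. -/
noncomputable def rs {K : ℕ} (n : Fin K → ℕ) : ℝ := ∑ i, (n i : ℝ)⁻¹

/-- Tuples from a set. -/
abbrev tup (K : ℕ) (N : Finset ℕ) : Finset (Fin K → ℕ) := Fintype.piFinset fun _ => N

lemma rs_mul_den {K : ℕ} {n : Fin K → ℕ} (hn : ∀ i, n i ≠ 0) : rs n * den n = num n :=
  recip_mul_den n _ fun i => inv_mul_cancel₀ (by exact_mod_cast hn i)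

lemma den_le {K : ℕ} {n : Fin K → ℕ} {N₁ : ℝ} (hn : ∀ i, (n i : ℝ) ≤ N₁) :
    (den n : ℝ) ≤ N₁ ^ K := by
  rw [den, Nat.cast_prod]
  calc ∏ i, (n i : ℝ) ≤ ∏ _i : Fin K, N₁ := Finset.prod_le_prod (fun _ _ => by positivity)
        fun i _ => hn i
    _ = N₁ ^ K := by simp

lemma energy_le (K : ℕ) (N : Finset ℕ) {N₁ D : ℝ} (hN : ∀ n ∈ N, n ≠ 0 ∧ (n : ℝ) ≤ N₁)
    (hN₁ : 1 ≤ N₁) (hD : ∀ a : ℕ, a ≠ 0 → (a : ℝ) ≤ N₁ ^ (3 * K) → (a.divisors.card : ℝ) ≤ D) :
    pairs (tup K N) (fun n n' => rs n = rs n') ≤ N₁ ^ K * D ^ (2 * K) := by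
  classical
  have hD0 : 0 ≤ D := le_trans (by positivity) (hD 1 one_ne_zero (by
    simpa using one_le_pow₀ hN₁))
  unfold pairs
  set A := Finset.Icc 1 ⌊N₁ ^ K⌋₊ with hA
  have hsub : ((tup K N ×ˢ tup K N).filter fun p => rs p.1 = rs p.2) ⊆
      A.biUnion fun a => tup K (a ^ 3).divisors ×ˢ tup K (a ^ 3).divisors := by
    intro p hp
    obtain ⟨n, n'⟩ := p
    simp only [Finset.mem_filter, Finset.mem_product, Fintype.mem_piFinset] at hp
    obtain ⟨⟨h1, h2⟩, h3⟩ := hp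
    have hn : ∀ i, n i ≠ 0 := fun i => (hN _ (h1 i)).1
    have hn' : ∀ i, n' i ≠ 0 := fun i => (hN _ (h2 i)).1
    have hd : den n ≠ 0 := Finset.prod_ne_zero_iff.2 fun i _ => hn i
    have hd' : den n' ≠ 0 := Finset.prod_ne_zero_iff.2 fun i _ => hn' i
    have h4 : num n * den n' = num n' * den n := by
      have : (num n : ℝ) * den n' = num n' * den n := by
        rw [← rs_mul_den hn, ← rs_mul_den hn', h3]; ring
      exact_mod_cast this
    obtain ⟨a, ha, ha2, ha3⟩ := exists_cube (mul_ne_zero hd hd') (fun p hp hpd => by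
      rcases (Nat.Prime.dvd_mul hp).1 hpd with h | h
      · exact sq_dvd_aux h4 hp h
      · rw [mul_comm]; exact sq_dvd_aux h4.symm hp h)
    refine Finset.mem_biUnion.2 ⟨a, Finset.mem_Icc.2 ⟨Nat.pos_of_ne_zero ha, Nat.le_floor ?_⟩, ?_⟩
    · have h5 : (a : ℝ) ^ 2 ≤ (N₁ ^ K) ^ 2 := by
        calc (a : ℝ) ^ 2 ≤ (den n : ℝ) * den n' := by exact_mod_cast ha2
          _ ≤ N₁ ^ K * N₁ ^ K := mul_le_mul (den_le fun i => (hN _ (h1 i)).2)
              (den_le fun i => (hN _ (h2 i)).2) (by positivity) (by positivity)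
          _ = _ := (sq _).symm
      exact (pow_le_pow_iff_left₀ (by positivity) (by positivity) two_ne_zero).1 h5
    · simp only [Finset.mem_product, Fintype.mem_piFinset, Nat.mem_divisors]
      refine ⟨fun i => ⟨?_, pow_ne_zero _ ha⟩, fun i => ⟨?_, pow_ne_zero _ ha⟩⟩
      · exact ((Finset.dvd_prod_of_mem n (Finset.mem_univ i)).mul_right _).trans ha3
      · exact ((Finset.dvd_prod_of_mem n' (Finset.mem_univ i)).mul_left _).trans ha3
  have h1 := (Finset.card_le_card hsub).trans Finset.card_biUnion_le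
  have h2 : ∀ a ∈ A, ((tup K (a ^ 3).divisors ×ˢ tup K (a ^ 3).divisors).card : ℝ)
      ≤ D ^ (2 * K) := by
    intro a ha
    obtain ⟨ha1, ha2⟩ := Finset.mem_Icc.1 ha
    have ha3 : (a : ℝ) ≤ N₁ ^ K := (Nat.cast_le.2 ha2).trans (Nat.floor_le (by positivity))
    have := hD (a ^ 3) (by positivity) (by
      push_cast
      rw [mul_comm, pow_mul]
      exact pow_le_pow_left₀ (by positivity) ha3 3)
    rw [Finset.card_product, Fintype.card_piFinset, Finset.prod_const, Finset.card_univ,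
      Fintype.card_fin, ← pow_add, ← two_mul]
    push_cast
    exact pow_le_pow_left₀ (by positivity) this _
  have h3 : (A.card : ℝ) ≤ N₁ ^ K := by
    rw [hA, Nat.card_Icc, Nat.add_sub_cancel]
    exact Nat.floor_le (by positivity)
  refine le_trans (by convert (Nat.cast_le (α := ℝ)).2 h1) ?_
  rw [Nat.cast_sum]
  refine (Finset.sum_le_card_nsmul _ _ _ h2).trans ?_
  rw [nsmul_eq_mul]
  exact mul_le_mul_of_nonneg_right h3 (by positivity)

/-- Sum of reciprocals modulo `k`. -/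
noncomputable def zs (k : ℕ) {K : ℕ} (n : Fin K → ℕ) : ZMod k := ∑ i, (n i : ZMod k)⁻¹

lemma zs_mul_den {k K : ℕ} {n : Fin K → ℕ} (hn : ∀ i, Nat.Coprime (n i) k) :
    zs k n * den n = num n :=
  recip_mul_den n _ fun i => ZMod.inv_mul_of_unit _ ((ZMod.isUnit_iff_coprime _ _).2 (hn i))

lemma spacing {k K : ℕ} (hk : 0 < k) {c : ZMod k} {H N₁ : ℝ} (hH : 0 ≤ H)
    (hc : ∀ Δ : ℤ, Δ ≠ 0 → c * (Δ : ZMod k) = 0 → (k : ℝ) ≤ H * |(Δ : ℝ)|)
    {n n' : Fin K → ℕ} (hn : ∀ i, n i ≠ 0 ∧ (n i : ℝ) ≤ N₁ ∧ Nat.Coprime (n i) k)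
    (hn' : ∀ i, n' i ≠ 0 ∧ (n' i : ℝ) ≤ N₁ ∧ Nat.Coprime (n' i) k)
    (h : c * zs k n = c * zs k n') (hne : rs n ≠ rs n') :
    (k : ℝ) ≤ H * N₁ ^ (2 * K) * |rs n - rs n'| := by
  have _ := hk
  set Δ : ℤ := (num n : ℤ) * den n' - (num n' : ℤ) * den n with hΔ
  have hd : (0 : ℝ) < den n := by
    exact_mod_cast Finset.prod_pos fun i _ => Nat.pos_of_ne_zero (hn i).1
  have hd' : (0 : ℝ) < den n' := by
    exact_mod_cast Finset.prod_pos fun i _ => Nat.pos_of_ne_zero (hn' i).1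
  have h1 : (Δ : ℝ) = (rs n - rs n') * (den n * den n') := by
    rw [hΔ]; push_cast
    rw [← rs_mul_den fun i => (hn i).1, ← rs_mul_den fun i => (hn' i).1]; ring
  have h2 : c * (Δ : ZMod k) = 0 := by
    rw [hΔ]; push_cast
    rw [← zs_mul_den fun i => (hn i).2.2, ← zs_mul_den fun i => (hn' i).2.2]
    linear_combination ((den n : ZMod k) * den n') * h
  have h3 : Δ ≠ 0 := by
    intro h0
    rw [h0, Int.cast_zero] at h1
    exact hne (sub_eq_zero.1 ((mul_eq_zero.1 h1.symm).resolve_right (by positivity)))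
  refine (hc Δ h3 h2).trans ?_
  rw [h1, abs_mul, abs_of_pos (mul_pos hd hd'), mul_assoc, mul_comm (N₁ ^ (2 * K))]
  refine mul_le_mul_of_nonneg_left (mul_le_mul_of_nonneg_left ?_ (abs_nonneg _)) hH
  rw [two_mul, pow_add]
  exact mul_le_mul (den_le fun i => (hn i).2.1) (den_le fun i => (hn' i).2.1) hd'.le
    (hd.le.trans (den_le fun i => (hn i).2.1))

lemma card_spaced (V : Finset ℝ) {a w δ : ℝ} (hδ : 0 < δ) (hw : 0 ≤ w)
    (h1 : ∀ v ∈ V, |a - v| ≤ w) (h2 : ∀ v ∈ V, ∀ v' ∈ V, v ≠ v' → δ ≤ |v - v'|) :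
    (V.card : ℝ) ≤ 1 + 2 * w / δ := by
  have hinj : Set.InjOn (fun v => ⌊(v - (a - w)) / δ⌋₊) (V : Set ℝ) := by
    intro v hv v' hv' h
    by_contra hne
    have h3 := h2 v hv v' hv' hne
    have p1 : 0 ≤ (v - (a - w)) / δ := div_nonneg (by linarith [(abs_le.1 (h1 v hv)).2]) hδ.le
    have p2 : 0 ≤ (v' - (a - w)) / δ := div_nonneg (by linarith [(abs_le.1 (h1 v' hv')).2]) hδ.le
    have q1 := Nat.floor_le p1
    have q2 := Nat.floor_le p2
    have q3 := Nat.lt_floor_add_one ((v - (a - w)) / δ)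
    have q4 := Nat.lt_floor_add_one ((v' - (a - w)) / δ)
    simp only at h
    rw [h] at q1 q3
    have e1 : (v - v') / δ = (v - (a - w)) / δ - (v' - (a - w)) / δ := by ring
    have e2 : (v' - v) / δ = (v' - (a - w)) / δ - (v - (a - w)) / δ := by ring
    have r1 : (v - v') / δ < 1 := by rw [e1]; linarith
    have r2 : (v' - v) / δ < 1 := by rw [e2]; linarith
    rw [div_lt_one hδ] at r1 r2
    exact absurd h3 (not_le.2 (abs_lt.2 ⟨by linarith, r1⟩))
  have hmap : ∀ v ∈ V, ⌊(v - (a - w)) / δ⌋₊ ∈ range (⌊2 * w / δ⌋₊ + 1) := by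
    intro v hv
    refine Finset.mem_range.2 (Nat.lt_succ_of_le (Nat.floor_le_floor ?_))
    exact div_le_div_of_nonneg_right (by linarith [(abs_le.1 (h1 v hv)).1]) hδ.le
  have := Finset.card_le_card_of_injOn _ hmap hinj
  rw [Finset.card_range] at this
  calc (V.card : ℝ) ≤ (⌊2 * w / δ⌋₊ + 1 : ℕ) := by exact_mod_cast this
    _ ≤ 1 + 2 * w / δ := by
      push_cast
      linarith [Nat.floor_le (show 0 ≤ 2 * w / δ by positivity)]

lemma pairs_le_mul {ι : Type*} (I : Finset ι) (r : ι → ι → Prop) (f : ι → ℝ) {M : ℝ}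
    (hs : ∀ i j, r i j → r j i)
    (hM : ∀ i ∈ I, ∀ J ⊆ I, (∀ j ∈ J, r i j) → ((J.image f).card : ℝ) ≤ M) :
    pairs I r ≤ M * pairs I fun i j => f i = f j := by
  classical
  set m : ι → ℝ := fun i => ((I.filter fun j => f i = f j).card : ℝ) with hm
  have hm0 : ∀ i ∈ I, 0 < m i := fun i hi => by
    have : 0 < (I.filter fun j => f i = f j).card := Finset.card_pos.2 ⟨i, by simp [hi]⟩
    simp only [hm]
    exact_mod_cast this
  have hE : pairs I (fun i j => f i = f j) = ∑ i ∈ I, m i := by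
    rw [pairs_eq_sum]
    exact Finset.sum_congr rfl fun i _ => by rw [Finset.sum_boole]
  have h1 : ∀ i ∈ I, ∑ j ∈ I, (if r i j then (m j)⁻¹ else 0) ≤ M := by
    intro i hi
    set J := I.filter fun j => r i j with hJ
    rw [← Finset.sum_filter, ← hJ, ← Finset.sum_fiberwise_of_maps_to (g := f) (t := J.image f)
      fun j hj => Finset.mem_image_of_mem f hj]
    refine le_trans ?_ (hM i hi J (Finset.filter_subset _ _) fun j hj => (Finset.mem_filter.1 hj).2)
    refine (Finset.sum_le_card_nsmul _ _ 1 fun v hv => ?_).trans (by simp)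
    obtain ⟨j₀, hj₀, rfl⟩ := Finset.mem_image.1 hv
    have hj₀I := (Finset.mem_filter.1 hj₀).1
    have : ∀ j ∈ J.filter fun j => f j = f j₀, (m j)⁻¹ = (m j₀)⁻¹ := by
      intro j hj
      simp only [hm, (Finset.mem_filter.1 hj).2]
    rw [Finset.sum_congr rfl this, Finset.sum_const, nsmul_eq_mul, mul_inv_le_iff₀ (hm0 j₀ hj₀I),
      one_mul]
    refine Nat.cast_le.2 (Finset.card_le_card fun j hj => ?_)
    obtain ⟨a, b⟩ := Finset.mem_filter.1 hj
    exact Finset.mem_filter.2 ⟨(Finset.mem_filter.1 a).1, b.symm⟩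
  have h2 : ∑ i ∈ I, ∑ j ∈ I, (if r i j then m i * (m j)⁻¹ else 0) ≤ M * ∑ i ∈ I, m i := by
    rw [Finset.mul_sum]
    refine Finset.sum_le_sum fun i hi => ?_
    rw [mul_comm]
    refine le_trans (le_of_eq ?_) (mul_le_mul_of_nonneg_left (h1 i hi) (hm0 i hi).le)
    rw [Finset.mul_sum]
    exact Finset.sum_congr rfl fun j _ => by split_ifs <;> simp
  have h3 : ∑ i ∈ I, ∑ j ∈ I, (if r i j then m j * (m i)⁻¹ else 0)
      = ∑ i ∈ I, ∑ j ∈ I, (if r i j then m i * (m j)⁻¹ else 0) := by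
    rw [Finset.sum_comm]
    refine Finset.sum_congr rfl fun i _ => Finset.sum_congr rfl fun j _ => ?_
    exact if_congr ⟨hs _ _, hs _ _⟩ rfl rfl
  rw [hE, pairs_eq_sum]
  have h4 : 2 * ∑ i ∈ I, ∑ j ∈ I, (if r i j then (1 : ℝ) else 0) ≤
      ∑ i ∈ I, ∑ j ∈ I, (if r i j then m i * (m j)⁻¹ else 0) +
      ∑ i ∈ I, ∑ j ∈ I, (if r i j then m j * (m i)⁻¹ else 0) := by
    rw [Finset.mul_sum, ← Finset.sum_add_distrib]
    refine Finset.sum_le_sum fun i hi => ?_
    rw [Finset.mul_sum, ← Finset.sum_add_distrib]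
    refine Finset.sum_le_sum fun j hj => ?_
    split_ifs
    · have a := hm0 i hi
      have b := hm0 j hj
      have : m i * (m j)⁻¹ + m j * (m i)⁻¹ - 2 = (m i - m j) ^ 2 / (m i * m j) := by
        field_simp; ring
      have : 0 ≤ (m i - m j) ^ 2 / (m i * m j) := by positivity
      linarith
    · simp
  linarith

/-- The number of close congruent pairs of tuples. -/
lemma close_pairs_le {k : ℕ} (hk : 0 < k) (K : ℕ) (N : Finset ℕ) {c : ZMod k} {H N₁ D w : ℝ}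
    (hH : 0 < H) (hw : 0 ≤ w)
    (hc : ∀ Δ : ℤ, Δ ≠ 0 → c * (Δ : ZMod k) = 0 → (k : ℝ) ≤ H * |(Δ : ℝ)|)
    (hN : ∀ n ∈ N, n ≠ 0 ∧ (n : ℝ) ≤ N₁ ∧ Nat.Coprime n k) (hN₁ : 1 ≤ N₁)
    (hD : ∀ a : ℕ, a ≠ 0 → (a : ℝ) ≤ N₁ ^ (3 * K) → (a.divisors.card : ℝ) ≤ D) :
    pairs (tup K N) (fun n n' => c * zs k n = c * zs k n' ∧ |rs n - rs n'| ≤ w) ≤
      (1 + 2 * w * H * N₁ ^ (2 * K) / k) * (N₁ ^ K * D ^ (2 * K)) := by
  classical
  have hk' : (0 : ℝ) < k := by exact_mod_cast hk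
  refine (pairs_le_mul _ _ rs (M := 1 + 2 * w * H * N₁ ^ (2 * K) / k)
    (fun i j h => ⟨h.1.symm, by rw [abs_sub_comm]; exact h.2⟩) ?_).trans
    (mul_le_mul_of_nonneg_left (energy_le K N (fun n hn => ⟨(hN n hn).1, (hN n hn).2.1⟩) hN₁ hD)
      (by positivity))
  intro i _ J hJ hr
  have := card_spaced (J.image rs) (a := rs i) (w := w) (δ := k / (H * N₁ ^ (2 * K)))
    (by positivity) hw (fun v hv => by
      obtain ⟨j, hj, rfl⟩ := Finset.mem_image.1 hv
      exact (hr j hj).2) (fun v hv v' hv' hne => by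
      obtain ⟨j, hj, rfl⟩ := Finset.mem_image.1 hv
      obtain ⟨j', hj', rfl⟩ := Finset.mem_image.1 hv'
      have := spacing hk hH.le hc (n := j) (n' := j')
        (fun t => hN _ (Fintype.mem_piFinset.1 (hJ hj) t))
        (fun t => hN _ (Fintype.mem_piFinset.1 (hJ hj') t))
        ((hr j hj).1.symm.trans (hr j' hj').1) hne
      rw [div_le_iff₀ (by positivity)]
      linarith)
  refine this.trans (le_of_eq ?_)
  field_simp

end Pool.Agent.P.MP_26a8c3_nt.Hyb
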