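import Pool.Agent.P.MP_26a8c3_nt.Hyb9

/-! The explicit saving for large `y / k`. -/

namespace Pool.Agent.P.MP_26a8c3_nt.Hyb

theorem large {η A : ℝ} (hη : 0 < η) (hη1 : η ≤ 1) (hA : 1 ≤ A) :
    ∃ T₀ : ℝ, 1 ≤ T₀ ∧ ∀ k : ℕ, ∀ l : ℤ, ∀ x y : ℝ,
      1 ≤ k → y ≤ x → Int.gcd l (k : ℤ) = 1 → T₀ ≤ y / (k : ℝ) →
        (y / (k : ℝ)) ^ (1 + η) ≤ x → x ≤ (y / (k : ℝ)) ^ A →
          (({p : ℕ | p.Prime ∧ x - y < (p : ℝ) ∧ (p : ℝ) ≤ x ∧
              (p : ℤ) ≡ l [ZMOD (k : ℤ)]}.ncard : ℕ) : ℝ) <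
            (2 - η ^ 2 / (10 ^ 15 * A ^ 6)) * y / ((Nat.totient k : ℝ) * Real.log (y / (k : ℝ))) := by
  obtain ⟨J, hJ, hJ'⟩ : ∃ J : ℕ, 20 * A ≤ J ∧ J < 20 * A + 1 :=
    ⟨_, Nat.le_ceil _, Nat.ceil_lt_add_one (by positivity)⟩
  have hJ0 : (0 : ℝ) ≤ J := by positivity
  have hq : 0 ≤ 960 * ((J : ℝ) + 1) ^ 3 / η := by positivity
  obtain ⟨n, hn, hn1⟩ : ∃ n : ℕ, 960 * ((J : ℝ) + 1) ^ 3 / η + 20 ≤ n ∧
      n < 960 * ((J : ℝ) + 1) ^ 3 / η + 20 + 1 :=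
    ⟨_, Nat.le_ceil _, Nat.ceil_lt_add_one (by positivity)⟩
  have hn' : (20 : ℝ) ≤ n := by linarith
  obtain ⟨u₀, h⟩ := core (K := J + 1) (n := n) (by omega) (by exact_mod_cast hn')
  have hδ : η ^ 2 / (10 ^ 15 * A ^ 6) ≤ 1 / (5 * (n : ℝ) ^ 2) := by
    have a1 : ((J : ℝ) + 1) ^ 3 ≤ (22 * A) ^ 3 := by gcongr; linarith
    have a2 : 1 ≤ A ^ 3 := one_le_pow₀ hA
    have a3 : n * η ≤ 10222101 * A ^ 3 := by
      have := mul_le_mul_of_nonneg_right hn1.le hη.le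
      rw [add_assoc, add_mul, div_mul_cancel₀ _ hη.ne'] at this
      nlinarith
    have a4 : (n * η) ^ 2 ≤ (10222101 * A ^ 3) ^ 2 := by gcongr
    rw [div_le_div_iff₀ (by positivity) (by positivity)]
    nlinarith [pow_pos (show 0 < A by linarith) 6]
  refine ⟨(max u₀ 1) ^ (96 * n ^ 2), one_le_pow₀ (le_max_right _ _),
    fun k l x y hk hyx hl hT h1 h2 => ?_⟩
  have hn0 : n ≠ 0 := by rintro rfl; norm_num at hn'
  have hN : 96 * n ^ 2 ≠ 0 := by positivity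
  set T := y / k with hTd
  have hT1 : 1 ≤ T := (one_le_pow₀ (le_max_right _ _)).trans hT
  have hT0 : 0 < T := by linarith
  have hQ1 : T ^ η ≤ x / T := by
    rw [le_div_iff₀ hT0]
    rwa [Real.rpow_add hT0, Real.rpow_one, mul_comm] at h1
  have hQ0 : 0 ≤ x / T := (Real.rpow_nonneg hT0.le _).trans hQ1
  have hQ2 : x / T ≤ T ^ A :=
    (div_le_self ((Real.rpow_nonneg hT0.le _).trans h1) hT1).trans h2
  set r := (x / T) ^ (((32 * J + 24 : ℕ) : ℝ)⁻¹) with hr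
  have hr0 : 0 ≤ r := Real.rpow_nonneg hQ0 _
  have hrp : r ^ (32 * J + 24) = x / T := Real.rpow_inv_natCast_pow hQ0 (by omega)
  set u := T ^ (((96 * n ^ 2 : ℕ) : ℝ)⁻¹) with hu
  have hu0 : 0 ≤ u := Real.rpow_nonneg hT0.le _
  have hup : u ^ (96 * n ^ 2) = T := Real.rpow_inv_natCast_pow hT0.le hN
  have hu1 : max u₀ 1 ≤ u := le_of_pow_le_pow_left₀ hN hu0 (by rw [hup]; exact hT)
  have hy : 0 ≤ y := by
    have hk' : (0 : ℝ) < k := by exact_mod_cast hk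
    exact (div_nonneg_iff.1 hT0.le).elim (·.1) fun h => absurd h.2 (not_le.2 hk')
  refine (h k l x y u r (r ^ (16 * J + 12)) hk hyx hl ((le_max_left _ _).trans hu1) hup.symm
    (by ring) (by rw [← hrp]; ring) ?_ ?_).trans_le (div_le_div_of_nonneg_right
      (mul_le_mul_of_nonneg_right (by linarith) hy)
      (mul_nonneg (by positivity) (Real.log_nonneg hT1)))
  · refine le_of_pow_le_pow_left₀ (n := 32 * J + 24) (by omega) hr0 ?_
    rw [hrp, ← pow_mul, ← pow_mul, hu, ← Real.rpow_natCast, ← Real.rpow_mul hT0.le]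
    refine (Real.rpow_le_rpow_of_exponent_le hT1 ?_).trans hQ1
    have a : 960 * ((J : ℝ) + 1) ^ 3 ≤ n * η := by
      rw [← div_le_iff₀ hη]; linarith
    rw [inv_mul_le_iff₀ (by positivity)]
    push_cast
    calc 96 * (n : ℝ) * (30 * (J + 1) ^ 2 * (32 * J + 24))
        ≤ 96 * (n : ℝ) * (30 * (J + 1) ^ 2 * (32 * (J + 1))) := by gcongr; linarith
      _ = 96 * (n : ℝ) * (960 * (J + 1) ^ 3) := by ring
      _ ≤ 96 * (n : ℝ) * (n * η) := by gcongr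
      _ = _ := by ring
  · refine le_of_pow_le_pow_left₀ (n := 32 * J + 24) (by omega) (by positivity) ?_
    rw [hup, ← pow_mul, mul_comm, pow_mul, hrp]
    refine (pow_le_pow_left₀ hQ0 hQ2 _).trans ?_
    rw [← Real.rpow_natCast, ← Real.rpow_mul hT0.le, ← Real.rpow_natCast]
    refine Real.rpow_le_rpow_of_exponent_le hT1 ?_
    push_cast
    linarith

end Pool.Agent.P.MP_26a8c3_nt.Hyb
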