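import Pool.Agent.P.MP_26a8c3_nt.Hyb1

/-! A double large sieve for a congruence and a real phase together. -/

namespace Pool.Agent.P.MP_26a8c3_nt.Hyb

open Finset Real
open scoped ComplexConjugate

/-- The function `e(x) = exp (2 π i x)`. -/
noncomputable def ee (x : ℝ) : ℂ := Complex.exp (2 * π * Complex.I * x)

lemma ee_add (x y : ℝ) : ee (x + y) = ee x * ee y := by
  unfold ee; rw [← Complex.exp_add]; push_cast; ring_nf

lemma ee_zero : ee 0 = 1 := by simp [ee]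

lemma ee_eq (x : ℝ) : ee x = Complex.exp (Complex.I * (2 * π * x : ℝ)) := by
  unfold ee; push_cast; ring_nf

lemma norm_ee (x : ℝ) : ‖ee x‖ = 1 := by
  rw [ee_eq, mul_comm]; exact Complex.norm_exp_ofReal_mul_I _

lemma norm_ee_sub (x y : ℝ) : ‖ee x - ee y‖ ≤ 2 * π * |x - y| := by
  have : ee x - ee y = ee y * (ee (x - y) - 1) := by
    rw [mul_sub, ← ee_add, mul_one]; congr 2; ring
  rw [this, norm_mul, norm_ee, one_mul, ee_eq]
  refine Real.norm_exp_I_mul_ofReal_sub_one_le.trans (le_of_eq ?_)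
  rw [Real.norm_eq_abs, abs_mul, abs_of_pos (by positivity)]

lemma ee_sum {ι : Type*} (s : Finset ι) (f : ι → ℝ) : ee (∑ i ∈ s, f i) = ∏ i ∈ s, ee (f i) := by
  classical
  induction s using Finset.induction_on with
  | empty => simp [ee_zero]
  | insert a s ha ih => rw [Finset.sum_insert ha, Finset.prod_insert ha, ee_add, ih]

/-- The standard additive character modulo `k`. -/
noncomputable abbrev ch (k : ℕ) [NeZero k] : AddChar (ZMod k) ℂ := ZMod.stdAddChar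

lemma ch_sum (k : ℕ) [NeZero k] {ι : Type*} (s : Finset ι) (f : ι → ZMod k) :
    ch k (∑ i ∈ s, f i) = ∏ i ∈ s, ch k (f i) := by
  classical
  induction s using Finset.induction_on with
  | empty => simp
  | insert a s ha ih =>
    rw [Finset.sum_insert ha, Finset.prod_insert ha, AddChar.map_add_eq_mul, ih]

lemma ch_int (k : ℕ) [NeZero k] (j : ℤ) : ch k (j : ZMod k) = ee (j / k) := by
  rw [ch, ZMod.stdAddChar_coe, ee]; push_cast; ring_nf

lemma ch_orth (k : ℕ) [NeZero k] (y y' : ZMod k) :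
    ∑ x : ZMod k, ch k (x * y) * conj (ch k (x * y')) = if y = y' then (k : ℂ) else 0 := by
  have h := AddChar.sum_mulShift (ψ := ch k) (y - y') (ZMod.isPrimitive_stdAddChar k)
  simp only [sub_eq_zero, ZMod.card, Nat.cast_ite, Nat.cast_zero] at h
  rw [← h]
  refine Finset.sum_congr rfl fun x _ => ?_
  rw [← AddChar.map_neg_eq_conj, ← AddChar.map_add_eq_mul]; congr 1; ring

lemma fin_bil {R ι κ : Type*} [Fintype R] (χ : R → R → ℂ) {N : ℝ} (hN : 0 ≤ N)
    (h0 : ∀ y y', y ≠ y' → ∑ x, χ x y * conj (χ x y') = 0)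
    (h1 : ∀ y, ∑ x, χ x y * conj (χ x y) = N)
    (I : Finset ι) (J : Finset κ) (a : ι → ℂ) (b : κ → ℂ) (ha : ∀ i ∈ I, ‖a i‖ ≤ 1)
    (hb : ∀ j ∈ J, ‖b j‖ ≤ 1) (u : ι → R) (v : κ → R) :
    ‖∑ i ∈ I, ∑ j ∈ J, a i * b j * χ (u i) (v j)‖ ^ 2 ≤
      N * pairs I (fun i i' => u i = u i') * pairs J (fun j j' => v j = v j') := by
  classical
  set A : R → ℂ := fun x => ∑ i ∈ I.filter fun i => u i = x, a i with hA
  set F : R → ℂ := fun x => ∑ j ∈ J, b j * χ x (v j) with hF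
  have e1 : ∑ i ∈ I, ∑ j ∈ J, a i * b j * χ (u i) (v j) = ∑ x, A x * F x := by
    rw [← Finset.sum_fiberwise I u]
    refine Finset.sum_congr rfl fun x _ => ?_
    rw [hA, Finset.sum_mul]
    refine Finset.sum_congr rfl fun i hi => ?_
    rw [(Finset.mem_filter.1 hi).2, hF, Finset.mul_sum]
    exact Finset.sum_congr rfl fun j _ => by ring
  have e2 : ∑ x, ‖A x‖ ^ 2 ≤ pairs I fun i i' => u i = u i' := by
    rw [pairs_eq_sum, ← Finset.sum_fiberwise I u]
    refine Finset.sum_le_sum fun x _ => ?_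
    have h2 : ‖A x‖ ≤ ((I.filter fun i => u i = x).card : ℝ) := by
      refine (norm_sum_le _ _).trans ((Finset.sum_le_card_nsmul _ _ 1 fun i hi =>
        ha i (Finset.mem_filter.1 hi).1).trans (by simp))
    refine (pow_le_pow_left₀ (norm_nonneg _) h2 2).trans (le_of_eq ?_)
    rw [Finset.sum_congr rfl fun i hi => show (∑ i' ∈ I, if u i = u i' then (1 : ℝ) else 0) =
      ((I.filter fun i => u i = x).card : ℝ) by
        rw [Finset.sum_boole, (Finset.mem_filter.1 hi).2]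
        simp only [eq_comm]]
    rw [Finset.sum_const, nsmul_eq_mul, sq]
  have e3 : ∑ x, ‖F x‖ ^ 2 ≤ N * pairs J fun j j' => v j = v j' := by
    have h2 : ((∑ x, ‖F x‖ ^ 2 : ℝ) : ℂ) =
        ∑ j ∈ J, ∑ j' ∈ J, b j * conj (b j') * ∑ x, χ x (v j) * conj (χ x (v j')) := by
      push_cast
      simp only [← Complex.mul_conj', hF, map_sum, Finset.sum_mul_sum]
      rw [Finset.sum_comm]
      refine Finset.sum_congr rfl fun j _ => ?_
      rw [Finset.sum_comm]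
      refine Finset.sum_congr rfl fun j' _ => ?_
      rw [Finset.mul_sum]
      exact Finset.sum_congr rfl fun x _ => by rw [map_mul]; ring
    have h3 : ∑ x, ‖F x‖ ^ 2 = ‖((∑ x, ‖F x‖ ^ 2 : ℝ) : ℂ)‖ := by
      rw [Complex.norm_real, Real.norm_of_nonneg (Finset.sum_nonneg fun _ _ => sq_nonneg _)]
    rw [h3, h2, pairs_eq_sum, Finset.mul_sum]
    refine (norm_sum_le _ _).trans (Finset.sum_le_sum fun j hj => ?_)
    rw [Finset.mul_sum]
    refine (norm_sum_le _ _).trans (Finset.sum_le_sum fun j' hj' => ?_)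
    split_ifs with h
    · rw [← h, h1, norm_mul, norm_mul, Complex.norm_conj, Complex.norm_real,
        Real.norm_of_nonneg hN, mul_one]
      have := mul_le_mul (hb j hj) (hb j' hj') (norm_nonneg _) zero_le_one
      nlinarith
    · rw [h0 _ _ h]; simp
  rw [e1]
  calc ‖∑ x, A x * F x‖ ^ 2 ≤ (∑ x, ‖A x‖ * ‖F x‖) ^ 2 := by
        refine pow_le_pow_left₀ (norm_nonneg _) ((norm_sum_le _ _).trans (le_of_eq ?_)) 2
        simp only [norm_mul]
    _ ≤ (∑ x, ‖A x‖ ^ 2) * ∑ x, ‖F x‖ ^ 2 := Finset.sum_mul_sq_le_sq_mul_sq _ _ _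
    _ ≤ pairs I (fun i i' => u i = u i') * (N * pairs J fun j j' => v j = v j') :=
        mul_le_mul e2 e3 (Finset.sum_nonneg fun _ _ => sq_nonneg _) (pairs_nonneg _ _)
    _ = _ := by ring

lemma fin_bil₂ (k L : ℕ) [NeZero k] [NeZero L] {ι κ : Type*}
    (I : Finset ι) (J : Finset κ) (a : ι → ℂ) (b : κ → ℂ) (ha : ∀ i ∈ I, ‖a i‖ ≤ 1)
    (hb : ∀ j ∈ J, ‖b j‖ ≤ 1) (u : ι → ZMod k) (v : κ → ZMod k) (u' : ι → ZMod L)
    (v' : κ → ZMod L) :
    ‖∑ i ∈ I, ∑ j ∈ J, a i * b j * (ch k (u i * v j) * ch L (u' i * v' j))‖ ^ 2 ≤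
      (k * L : ℝ) * pairs I (fun i i' => u i = u i' ∧ u' i = u' i') *
        pairs J (fun j j' => v j = v j' ∧ v' j = v' j') := by
  have key : ∀ y y' : ZMod k × ZMod L, ∑ x : ZMod k × ZMod L,
      (ch k (x.1 * y.1) * ch L (x.2 * y.2)) * conj (ch k (x.1 * y'.1) * ch L (x.2 * y'.2)) =
      (if y.1 = y'.1 then (k : ℂ) else 0) * if y.2 = y'.2 then (L : ℂ) else 0 := by
    intro y y'
    rw [← ch_orth, ← ch_orth, Finset.sum_mul_sum, Fintype.sum_prod_type]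
    exact Finset.sum_congr rfl fun _ _ => Finset.sum_congr rfl fun _ _ => by
      rw [map_mul (starRingEnd ℂ)]; ring
  have := fin_bil (R := ZMod k × ZMod L) (fun x y => ch k (x.1 * y.1) * ch L (x.2 * y.2))
    (N := k * L) (by positivity) (fun y y' h => by
      rw [key]
      by_cases h1 : y.1 = y'.1
      · rw [if_neg (c := y.2 = y'.2) fun h2 => h (Prod.ext h1 h2), mul_zero]
      · rw [if_neg h1, zero_mul]) (fun y => by rw [key]; simp) I J a b ha hb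
    (fun i => (u i, u' i)) (fun j => (v j, v' j))
  simpa only [Prod.mk.injEq] using this

lemma floor_close {L : ℕ} (hL : 4 ≤ L) {α β : ℝ} (h : |α - β| ≤ L / 2)
    (he : ((⌊α⌋ : ℤ) : ZMod L) = ((⌊β⌋ : ℤ) : ZMod L)) : |α - β| < 1 := by
  have hd := (ZMod.intCast_eq_intCast_iff_dvd_sub _ _ _).1 he
  have hL' : (4 : ℝ) ≤ L := by exact_mod_cast hL
  obtain ⟨h1, h2⟩ := abs_le.1 h
  have a1 := Int.floor_le α
  have a2 := Int.lt_floor_add_one α
  have b1 := Int.floor_le β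
  have b2 := Int.lt_floor_add_one β
  have h3 : |⌊β⌋ - ⌊α⌋| < (L : ℤ) := by
    have : |((⌊β⌋ : ℤ) : ℝ) - (⌊α⌋ : ℤ)| < L := abs_lt.2 ⟨by linarith, by linarith⟩
    exact_mod_cast this
  have h4 := Int.eq_zero_of_abs_lt_dvd hd h3
  have h5 : ((⌊β⌋ : ℤ) : ℝ) = (⌊α⌋ : ℤ) := by exact_mod_cast sub_eq_zero.1 h4
  exact abs_lt.2 ⟨by linarith, by linarith⟩

theorem dls (k : ℕ) [NeZero k] {ι κ : Type*} (I : Finset ι) (J : Finset κ) (a : ι → ℂ)
    (b : κ → ℂ) (ha : ∀ i ∈ I, ‖a i‖ ≤ 1) (hb : ∀ j ∈ J, ‖b j‖ ≤ 1) (u : ι → ZMod k)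
    (v : κ → ZMod k) (s : ι → ℝ) (t : κ → ℝ) {S T X ρ : ℝ} (hS : 0 < S) (hT : 0 < T)
    (hs : ∀ i ∈ I, 0 ≤ s i ∧ s i ≤ S) (ht : ∀ j ∈ J, 0 ≤ t j ∧ t j ≤ T) (hρ : 0 < ρ)
    (hρ1 : ρ ≤ 1 / 2) :
    ‖∑ i ∈ I, ∑ j ∈ J, a i * b j * (ch k (u i * v j) * ee (X * (s i * t j)))‖ ≤
      20 * ρ * I.card * J.card + √(2 * (k * (1 + |X| * S * T)) / ρ ^ 2 *
        pairs I (fun i i' => u i = u i' ∧ |s i - s i'| ≤ 2 * S / (1 + |X| * S * T)) *
        pairs J (fun j j' => v j = v j' ∧ |t j - t j'| ≤ 2 * T / (1 + |X| * S * T))) := by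
  set Ξ := |X| * S * T with hΞ
  have hΞ0 : 0 ≤ Ξ := by positivity
  set R := (1 + Ξ) / ρ with hR
  have hR0 : 0 < R := by positivity
  have hRρ : R * ρ = 1 + Ξ := by rw [hR]; field_simp
  set L : ℕ := ⌈R / ρ⌉₊ with hL
  have hL1 : R / ρ ≤ L := Nat.le_ceil _
  have hL2 : (L : ℝ) < R / ρ + 1 := Nat.ceil_lt_add_one (by positivity)
  have hR2 : 2 ≤ R := by rw [hR, le_div_iff₀ hρ]; linarith
  have hL3 : 2 * R ≤ L := le_trans (by
    rw [le_div_iff₀ hρ]; linarith [mul_le_mul_of_nonneg_left hρ1 hR0.le]) hL1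
  have hL4 : 4 ≤ L := by
    have : (4 : ℝ) ≤ L := by linarith
    exact_mod_cast this
  have hL0 : (0 : ℝ) < L := by linarith
  have hLρ : R ≤ L * ρ := by rwa [div_le_iff₀ hρ] at hL1
  have : NeZero L := ⟨by omega⟩
  set σ : ι → ℝ := fun i => s i * (R / S) with hσ
  set τ : κ → ℝ := fun j => t j * (L * X * S / R) with hτ
  have hσb : ∀ i ∈ I, 0 ≤ σ i ∧ σ i ≤ R := fun i hi =>
    ⟨mul_nonneg (hs i hi).1 (by positivity), by
      calc σ i ≤ S * (R / S) := mul_le_mul_of_nonneg_right (hs i hi).2 (by positivity)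
        _ = R := by field_simp⟩
  have hc : T * |L * X * S / R| ≤ L * ρ := by
    rw [abs_div, abs_mul, abs_mul, abs_of_pos hL0, abs_of_pos hS, abs_of_pos hR0,
      show T * (L * |X| * S / R) = L * (Ξ / R) by rw [hΞ]; ring]
    refine mul_le_mul_of_nonneg_left ?_ hL0.le
    rw [div_le_iff₀ hR0]; linarith
  have hτb : ∀ j ∈ J, |τ j| ≤ L * ρ := fun j hj => by
    simp only [hτ]
    rw [abs_mul, abs_of_nonneg (ht j hj).1]
    exact (mul_le_mul_of_nonneg_right (ht j hj).2 (abs_nonneg _)).trans hc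
  have herr : ∀ i ∈ I, ∀ j ∈ J, ‖ee (X * (s i * t j)) -
      ch L (((⌊σ i⌋ : ℤ) : ZMod L) * ((⌊τ j⌋ : ℤ) : ZMod L))‖ ≤ 20 * ρ := by
    intro i hi j hj
    rw [← Int.cast_mul, ch_int]
    refine (norm_ee_sub _ _).trans ?_
    have e : X * (s i * t j) - ((⌊σ i⌋ * ⌊τ j⌋ : ℤ) : ℝ) / L =
        (σ i * (τ j - ⌊τ j⌋) + ⌊τ j⌋ * (σ i - ⌊σ i⌋)) / L := by
      have : X * (s i * t j) = σ i * τ j / L := by simp only [hσ, hτ]; field_simp
      rw [this]; push_cast; ring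
    have a1 := Int.floor_le (σ i)
    have a2 := Int.lt_floor_add_one (σ i)
    have b1 := Int.floor_le (τ j)
    have b2 := Int.lt_floor_add_one (τ j)
    obtain ⟨c1, c2⟩ := hσb i hi
    obtain ⟨d1, d2⟩ := abs_le.1 (hτb j hj)
    have f1 : |σ i * (τ j - ⌊τ j⌋)| ≤ R * 1 := by
      rw [abs_mul]
      exact mul_le_mul (abs_le.2 ⟨by linarith, c2⟩) (abs_le.2 ⟨by linarith, by linarith⟩)
        (abs_nonneg _) hR0.le
    have f2 : |(⌊τ j⌋ : ℝ) * (σ i - ⌊σ i⌋)| ≤ (L * ρ + 1) * 1 := by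
      rw [abs_mul]
      exact mul_le_mul (abs_le.2 ⟨by linarith, by linarith⟩) (abs_le.2 ⟨by linarith, by linarith⟩)
        (abs_nonneg _) (by positivity)
    have f3 : |X * (s i * t j) - ((⌊σ i⌋ * ⌊τ j⌋ : ℤ) : ℝ) / L| ≤ 5 / 2 * ρ := by
      rw [e, abs_div, abs_of_pos hL0, div_le_iff₀ hL0]
      refine (abs_add_le _ _).trans ?_
      linarith only [f1, f2, hLρ, hR2]
    refine (mul_le_mul (show 2 * π ≤ 8 by linarith only [Real.pi_lt_four]) f3 (abs_nonneg _)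
      (by norm_num)).trans (le_of_eq (by ring))
  have hmain := fin_bil₂ k L I J a b ha hb u v (fun i => ((⌊σ i⌋ : ℤ) : ZMod L))
    (fun j => ((⌊τ j⌋ : ℤ) : ZMod L))
  have hp1 : pairs I (fun i i' => u i = u i' ∧ ((⌊σ i⌋ : ℤ) : ZMod L) = ((⌊σ i'⌋ : ℤ) : ZMod L)) ≤
      pairs I (fun i i' => u i = u i' ∧ |s i - s i'| ≤ 2 * S / (1 + Ξ)) := by
    refine pairs_mono _ fun i hi i' hi' h => ⟨h.1, ?_⟩
    have := floor_close hL4 (α := σ i) (β := σ i') (abs_le.2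
      ⟨by linarith [(hσb i hi).1, (hσb i' hi').2], by linarith [(hσb i hi).2, (hσb i' hi').1]⟩) h.2
    simp only [hσ] at this
    rw [← sub_mul, abs_mul, abs_of_pos (show 0 < R / S by positivity), ← mul_div_assoc,
      div_lt_one hS] at this
    rw [le_div_iff₀ (by positivity), ← hRρ]
    have g1 := mul_le_mul_of_nonneg_left hρ1 (mul_nonneg (abs_nonneg (s i - s i')) hR0.le)
    linarith only [g1, this, hS]
  have hp2 : pairs J (fun j j' => v j = v j' ∧ ((⌊τ j⌋ : ℤ) : ZMod L) = ((⌊τ j'⌋ : ℤ) : ZMod L)) ≤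
      pairs J (fun j j' => v j = v j' ∧ |t j - t j'| ≤ 2 * T / (1 + Ξ)) := by
    refine pairs_mono _ fun j hj j' hj' h => ⟨h.1, ?_⟩
    have g1 : |t j - t j'| ≤ T := abs_le.2
      ⟨by linarith [(ht j hj).1, (ht j' hj').2], by linarith [(ht j hj).2, (ht j' hj').1]⟩
    have g2 : |τ j - τ j'| = |t j - t j'| * |L * X * S / R| := by
      simp only [hτ]; rw [← sub_mul, abs_mul]
    have := floor_close hL4 (α := τ j) (β := τ j') (by
      rw [g2]
      refine ((mul_le_mul_of_nonneg_right g1 (abs_nonneg _)).trans hc).trans ?_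
      linarith only [mul_le_mul_of_nonneg_left hρ1 hL0.le]) h.2
    rw [g2, abs_div, abs_mul, abs_mul, abs_of_pos hL0, abs_of_pos hS, abs_of_pos hR0,
      ← mul_div_assoc, div_lt_one hR0] at this
    have g3 : |t j - t j'| * (|X| * S) ≤ 1 := by
      have : L * (|t j - t j'| * (|X| * S)) ≤ L * 1 := by linarith only [this, hL3, hR0]
      exact le_of_mul_le_mul_left this hL0
    rw [le_div_iff₀ (by positivity), hΞ]
    linarith only [g1, mul_le_mul_of_nonneg_right g3 hT.le]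
  have hsq : ‖∑ i ∈ I, ∑ j ∈ J, a i * b j * (ch k (u i * v j) *
      ch L (((⌊σ i⌋ : ℤ) : ZMod L) * ((⌊τ j⌋ : ℤ) : ZMod L)))‖ ≤ √(2 * (k * (1 + Ξ)) / ρ ^ 2 *
        pairs I (fun i i' => u i = u i' ∧ |s i - s i'| ≤ 2 * S / (1 + Ξ)) *
        pairs J (fun j j' => v j = v j' ∧ |t j - t j'| ≤ 2 * T / (1 + Ξ))) := by
    refine Real.le_sqrt_of_sq_le (hmain.trans ?_)
    refine mul_le_mul (mul_le_mul ?_ hp1 (pairs_nonneg _ _) (by positivity)) hp2
      (pairs_nonneg _ _) (mul_nonneg (by positivity) (pairs_nonneg _ _))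
    have : 2 * (k * (1 + Ξ)) / ρ ^ 2 = k * (2 * (R / ρ)) := by rw [hR]; field_simp
    rw [this]
    refine mul_le_mul_of_nonneg_left ?_ (by positivity)
    have : 1 ≤ R / ρ := by rw [le_div_iff₀ hρ]; linarith
    linarith
  refine le_trans ?_ (add_le_add_right hsq _)
  refine le_trans ?_ (add_le_add_left (?_ : ‖∑ i ∈ I, ∑ j ∈ J, a i * b j * (ch k (u i * v j) *
    (ee (X * (s i * t j)) - ch L (((⌊σ i⌋ : ℤ) : ZMod L) * ((⌊τ j⌋ : ℤ) : ZMod L))))‖ ≤ _) _)
  · refine le_trans (le_of_eq ?_) (norm_add_le _ _)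
    rw [← Finset.sum_add_distrib]
    refine congrArg _ (Finset.sum_congr rfl fun i _ => ?_)
    rw [← Finset.sum_add_distrib]
    exact Finset.sum_congr rfl fun j _ => by ring
  · refine (norm_sum_le _ _).trans ((Finset.sum_le_card_nsmul _ _ (J.card * (20 * ρ))
      fun i hi => ?_).trans (le_of_eq (by rw [nsmul_eq_mul]; ring)))
    refine (norm_sum_le _ _).trans ((Finset.sum_le_card_nsmul _ _ (20 * ρ)
      fun j hj => ?_).trans (le_of_eq (by rw [nsmul_eq_mul])))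
    rw [norm_mul, norm_mul, norm_mul, AddChar.norm_apply, one_mul]
    have := mul_le_mul (ha i hi) (hb j hj) (norm_nonneg _) zero_le_one
    exact (mul_le_mul this (herr i hi j hj) (norm_nonneg _) (by norm_num)).trans (by simp)

end Pool.Agent.P.MP_26a8c3_nt.Hyb
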