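import Pool.Agent.P.MP_26a8c3_nt.Hyb2

/-! The bilinear bound: Hölder's inequality twice, then the double large sieve. -/

namespace Pool.Agent.P.MP_26a8c3_nt.Hyb

open Finset Real

lemma holder {ι κ : Type*} (I : Finset ι) (J : Finset κ) (a : ι → ℂ) (ha : ∀ i ∈ I, ‖a i‖ ≤ 1)
    (φ : ι → κ → ℂ) {K : ℕ} (hK : 1 ≤ K) {N : ℝ} (hN : (I.card : ℝ) ≤ N) :
    ∃ θ : ι → ℂ, (∀ i, ‖θ i‖ ≤ 1) ∧ ‖∑ i ∈ I, a i * ∑ j ∈ J, φ i j‖ ^ K ≤ N ^ (K - 1) *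
      ‖∑ j ∈ Fintype.piFinset fun _ : Fin K => J, ∑ i ∈ I, θ i * ∏ t, φ i (j t)‖ := by
  obtain ⟨K, rfl⟩ : ∃ K', K = K' + 1 := ⟨K - 1, by omega⟩
  choose θ hθ1 hθ2 using fun i => Complex.exists_norm_eq_mul_self ((∑ j ∈ J, φ i j) ^ (K + 1))
  refine ⟨θ, fun i => (hθ1 i).le, ?_⟩
  have h1 : ‖∑ i ∈ I, a i * ∑ j ∈ J, φ i j‖ ≤ ∑ i ∈ I, ‖∑ j ∈ J, φ i j‖ := by
    refine (norm_sum_le _ _).trans (Finset.sum_le_sum fun i hi => ?_)
    rw [norm_mul]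
    exact mul_le_of_le_one_left (norm_nonneg _) (ha i hi)
  have h2 : ((∑ i ∈ I, ‖∑ j ∈ J, φ i j‖ ^ (K + 1) : ℝ) : ℂ) =
      ∑ j ∈ Fintype.piFinset fun _ : Fin (K + 1) => J, ∑ i ∈ I, θ i * ∏ t, φ i (j t) := by
    rw [Finset.sum_comm, Complex.ofReal_sum]
    refine Finset.sum_congr rfl fun i _ => ?_
    rw [← norm_pow, hθ2, Finset.sum_pow', Finset.mul_sum]
  refine (pow_le_pow_left₀ (norm_nonneg _) h1 _).trans
    ((pow_sum_le_card_mul_sum_pow (fun _ _ => norm_nonneg _) K).trans ?_)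
  rw [← h2, Complex.norm_real, Real.norm_of_nonneg (Finset.sum_nonneg fun _ _ => by positivity),
    Nat.add_sub_cancel]
  exact mul_le_mul_of_nonneg_right (pow_le_pow_left₀ (by positivity) hN _)
    (Finset.sum_nonneg fun _ _ => by positivity)

/-- The phase attached to a pair `m, p`. -/
noncomputable def ker (k : ℕ) [NeZero k] (c : ZMod k) (X : ℝ) (m p : ℕ) : ℂ :=
  ch k (c * (p : ZMod k)⁻¹ * (m : ZMod k)⁻¹) * ee (X * ((p : ℝ)⁻¹ * (m : ℝ)⁻¹))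

lemma norm_ker (k : ℕ) [NeZero k] (c : ZMod k) (X : ℝ) (m p : ℕ) : ‖ker k c X m p‖ = 1 := by
  rw [ker, norm_mul, norm_ee, AddChar.norm_apply, mul_one]

lemma prod_ker (k : ℕ) [NeZero k] (c : ZMod k) (X : ℝ) {K l : ℕ} (p : Fin K → ℕ) (m : Fin l → ℕ) :
    ∏ s, ∏ t, ker k c X (m s) (p t) = ch k (c * zs k p * zs k m) * ee (X * (rs p * rs m)) := by
  simp only [ker, Finset.prod_mul_distrib, ← ch_sum, ← ee_sum, zs, rs, Finset.mul_sum,
    Finset.sum_mul]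

lemma bil_pow (k : ℕ) [NeZero k] (c : ZMod k) (X : ℝ) (PP MM : Finset ℕ) (α β : ℕ → ℂ)
    (hα : ∀ m ∈ MM, ‖α m‖ ≤ 1) (hβ : ∀ p ∈ PP, ‖β p‖ ≤ 1) {K l : ℕ} (hK : 1 ≤ K) (hl : 1 ≤ l)
    {P₁ M₁ W : ℝ} (hP : (PP.card : ℝ) ≤ P₁) (hM : (MM.card : ℝ) ≤ M₁)
    (hW : ∀ (a : (Fin K → ℕ) → ℂ) (b : (Fin l → ℕ) → ℂ), (∀ i ∈ tup K PP, ‖a i‖ ≤ 1) →
      (∀ j ∈ tup l MM, ‖b j‖ ≤ 1) → ‖∑ i ∈ tup K PP, ∑ j ∈ tup l MM, a i * b j *
        (ch k (c * zs k i * zs k j) * ee (X * (rs i * rs j)))‖ ≤ W) :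
    ‖∑ m ∈ MM, ∑ p ∈ PP, α m * β p * ker k c X m p‖ ^ (K * l) ≤
      M₁ ^ ((K - 1) * l) * ((P₁ ^ K) ^ (l - 1) * W) := by
  have hM0 : 0 ≤ M₁ := le_trans (by positivity) hM
  obtain ⟨θ, hθ, h1⟩ := holder MM PP α hα (fun m p => β p * ker k c X m p) hK hM
  have hc : ((tup K PP).card : ℝ) ≤ P₁ ^ K := by
    rw [Fintype.card_piFinset, Finset.prod_const, Finset.card_univ, Fintype.card_fin]
    push_cast
    exact pow_le_pow_left₀ (by positivity) hP _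
  obtain ⟨θ', hθ', h2⟩ := holder (tup K PP) MM (fun p => ∏ t, β (p t)) (fun p hp => by
      rw [norm_prod]
      exact Finset.prod_le_one (fun _ _ => norm_nonneg _)
        fun t _ => hβ _ (Fintype.mem_piFinset.1 hp t))
    (fun p m => θ m * ∏ t, ker k c X m (p t)) hl hc
  have h3 := hW θ' (fun m => ∏ s, θ (m s)) (fun i _ => hθ' i) (fun m _ => by
      rw [norm_prod]
      exact Finset.prod_le_one (fun _ _ => norm_nonneg _) fun t _ => hθ _)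
  have e1 : ∑ m ∈ MM, ∑ p ∈ PP, α m * β p * ker k c X m p =
      ∑ m ∈ MM, α m * ∑ p ∈ PP, β p * ker k c X m p := by
    simp only [Finset.mul_sum, mul_assoc]
  have e2 : ∑ j ∈ tup K PP, ∑ i ∈ MM, θ i * ∏ t, β (j t) * ker k c X i (j t) =
      ∑ j ∈ tup K PP, (∏ t, β (j t)) * ∑ i ∈ MM, θ i * ∏ t, ker k c X i (j t) := by
    refine Finset.sum_congr rfl fun j _ => ?_
    rw [Finset.mul_sum]
    exact Finset.sum_congr rfl fun i _ => by rw [Finset.prod_mul_distrib]; ring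
  have e3 : ∑ j ∈ tup l MM, ∑ i ∈ tup K PP, θ' i * ∏ s, (θ (j s) * ∏ t, ker k c X (j s) (i t)) =
      ∑ i ∈ tup K PP, ∑ j ∈ tup l MM, θ' i * (∏ s, θ (j s)) *
        (ch k (c * zs k i * zs k j) * ee (X * (rs i * rs j))) := by
    rw [Finset.sum_comm]
    refine Finset.sum_congr rfl fun i _ => Finset.sum_congr rfl fun j _ => ?_
    rw [Finset.prod_mul_distrib, prod_ker, mul_assoc (θ' i)]
  rw [e2] at h1
  rw [e3] at h2
  rw [e1, pow_mul, pow_mul]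
  refine (pow_le_pow_left₀ (by positivity) h1 l).trans ?_
  rw [mul_pow]
  refine mul_le_mul_of_nonneg_left (h2.trans ?_) (by positivity)
  exact mul_le_mul_of_nonneg_left h3 (pow_nonneg (le_trans (by positivity) hc) _)

lemma card_le_of_le (S : Finset ℕ) {N : ℝ} (hN : 0 ≤ N) (h : ∀ n ∈ S, n ≠ 0 ∧ (n : ℝ) ≤ N) :
    (S.card : ℝ) ≤ N := by
  have : S ⊆ Finset.Icc 1 ⌊N⌋₊ := fun n hn =>
    Finset.mem_Icc.2 ⟨Nat.pos_of_ne_zero (h n hn).1, Nat.le_floor (h n hn).2⟩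
  have h1 := Finset.card_le_card this
  rw [Nat.card_Icc, Nat.add_sub_cancel] at h1
  exact (Nat.cast_le.2 h1).trans (Nat.floor_le hN)

lemma rs_bounds {K : ℕ} {n : Fin K → ℕ} {N₀ : ℝ} (hN : 0 < N₀) (h : ∀ i, N₀ ≤ n i) :
    0 ≤ rs n ∧ rs n ≤ K / N₀ := by
  refine ⟨Finset.sum_nonneg fun _ _ => by positivity, ?_⟩
  refine (Finset.sum_le_card_nsmul _ _ N₀⁻¹ fun i _ => inv_anti₀ hN (h i)).trans (le_of_eq ?_)
  simp [div_eq_mul_inv]

theorem bilinear (k : ℕ) [NeZero k] {c : ZMod k} {X r q B M₁ H Z : ℝ} {K : ℕ} (hK : 1 ≤ K)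
    (PP MM : Finset ℕ) (α β : ℕ → ℂ) (hα : ∀ m ∈ MM, ‖α m‖ ≤ 1) (hβ : ∀ p ∈ PP, ‖β p‖ ≤ 1)
    (hPP : ∀ p ∈ PP, r ^ 16 ≤ p ∧ (p : ℝ) ≤ r ^ 16 * B ∧ Nat.Coprime p k)
    (hMM : ∀ m ∈ MM, M₁ / B ^ 5 ≤ m ∧ (m : ℝ) ≤ M₁ ∧ Nat.Coprime m k)
    (hc : ∀ Δ : ℤ, Δ ≠ 0 → c * (Δ : ZMod k) = 0 → (k : ℝ) ≤ H * |(Δ : ℝ)|)
    (hH1 : 1 ≤ H) (hH2 : H ≤ 2 * B ^ 9)
    (hD : ∀ a : ℕ, a ≠ 0 → (a : ℝ) ≤ Z → (a.divisors.card : ℝ) ≤ B)
    (hZ1 : (r ^ 16 * B) ^ (3 * K) ≤ Z) (hZ2 : M₁ ^ (3 * K) ≤ Z)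
    (hB : 32 * (K : ℝ) ^ 2 ≤ B) (hr : B ^ (30 * K ^ 2) ≤ r) (hq : q * r ^ 4 = r ^ (16 * K))
    (hM1 : 1 ≤ M₁) (hM2 : q ≤ M₁ ^ K)
    (hQ1 : q ^ 2 ≤ 4 * (k + k * |X| * B ^ 5 / (r ^ 16 * M₁))) (hQ2 : (k : ℝ) ≤ q ^ 2)
    (hQ3 : k * |X| / (r ^ 16 * M₁) ≤ 4 * B ^ 9 * q ^ 2) :
    ‖∑ m ∈ MM, ∑ p ∈ PP, α m * β p * ker k c X m p‖ ≤ r ^ 16 * B * M₁ / B ^ 16 := by
  have hk : 0 < k := Nat.pos_of_ne_zero (NeZero.ne k)
  have hk' : (0 : ℝ) < k := by exact_mod_cast hk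
  have hK' : (1 : ℝ) ≤ K := by exact_mod_cast hK
  have hKK : (K : ℝ) ≤ K ^ 2 := le_self_pow₀ hK' two_ne_zero
  have hB32 : 32 ≤ B := by linarith only [hB, hKK, hK']
  have hB1 : 1 ≤ B := by linarith
  have hB0 : 0 < B := by linarith
  have hK2 : K ≤ K ^ 2 := Nat.le_self_pow two_ne_zero K
  have hrB : B ≤ r := le_trans (le_self_pow₀ hB1 (by positivity)) hr
  have hr1 : 1 ≤ r := hB1.trans hrB
  have hr0 : 0 < r := by linarith
  have hq1 : 1 < q := by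
    have h1 : r ^ 4 < r ^ (16 * K) := pow_lt_pow_right₀ (by linarith) (by omega)
    rw [← hq] at h1
    by_contra h
    linarith only [h1, mul_le_mul_of_nonneg_right (not_lt.1 h) (pow_pos hr0 4).le]
  have hq0 : 0 < q := by linarith
  classical
  have hex : ∃ l : ℕ, q ≤ M₁ ^ l := ⟨K, hM2⟩
  set l := Nat.find hex with hl
  have hl1 : q ≤ M₁ ^ l := Nat.find_spec hex
  have hlK : l ≤ K := Nat.find_min' hex hM2
  have hl0 : 1 ≤ l := by
    by_contra h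
    have : l = 0 := by omega
    rw [this, pow_zero] at hl1
    linarith
  have hl2 : M₁ ^ (l - 1) ≤ q := (not_le.1 (Nat.find_min hex (by omega))).le
  have hl' : (1 : ℝ) ≤ l := by exact_mod_cast hl0
  have hlK' : (l : ℝ) ≤ K := by exact_mod_cast hlK
  have hM0 : 0 < M₁ := by linarith
  set P := r ^ 16 with hP
  have hP1 : 1 ≤ P := one_le_pow₀ hr1
  have hP0 : 0 < P := by linarith
  set P' := P * B with hP'
  have hP'1 : 1 ≤ P' := one_le_mul_of_one_le_of_one_le hP1 hB1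
  have hP'0 : 0 < P' := by linarith
  have hPP' : ∀ p ∈ PP, p ≠ 0 ∧ (p : ℝ) ≤ P' ∧ Nat.Coprime p k := fun p hp =>
    ⟨by have := (hPP p hp).1; rintro rfl; simp at this; linarith, (hPP p hp).2⟩
  have hM00 : 0 < M₁ / B ^ 5 := by positivity
  have hMM' : ∀ m ∈ MM, m ≠ 0 ∧ (m : ℝ) ≤ M₁ ∧ Nat.Coprime m k := fun m hm =>
    ⟨by have := (hMM m hm).1; rintro rfl; simp only [Nat.cast_zero] at this; linarith,
      (hMM m hm).2⟩
  have hcP := card_le_of_le PP hP'0.le fun p hp => ⟨(hPP' p hp).1, (hPP' p hp).2.1⟩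
  have hcM := card_le_of_le MM hM0.le fun p hp => ⟨(hMM' p hp).1, (hMM' p hp).2.1⟩
  set S : ℝ := K / P with hS
  set T : ℝ := l / (M₁ / B ^ 5) with hT
  have hS0 : 0 < S := by positivity
  have hT0 : 0 < T := by positivity
  set Ξ := |X| * S * T with hΞ
  have hΞ0 : 0 ≤ Ξ := by positivity
  set Q := k * (1 + Ξ) with hQ
  have hQ0 : 0 < Q := by positivity
  have eΞ : k * Ξ = K * l * B ^ 5 * (k * |X| / (P * M₁)) := by
    rw [hΞ, hS, hT]; field_simp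
  have hx0 : 0 ≤ k * |X| / (P * M₁) := by positivity
  have hKl : (1 : ℝ) ≤ K * l := one_le_mul_of_one_le_of_one_le hK' hl'
  have hKl2 : (K : ℝ) * l ≤ K ^ 2 := by
    rw [sq]; exact mul_le_mul_of_nonneg_left hlK' (Nat.cast_nonneg K)
  have hQl : q ^ 2 ≤ 4 * Q := by
    refine hQ1.trans ?_
    rw [hQ, mul_add (k : ℝ), mul_one, eΞ,
      show k * |X| * B ^ 5 / (P * M₁) = 1 * B ^ 5 * (k * |X| / (P * M₁)) by ring]
    gcongr
  have hQu : Q ≤ B ^ 15 * q ^ 2 := by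
    rw [hQ, mul_add, mul_one, eΞ]
    have h1 : K * l * B ^ 5 * (k * |X| / (P * M₁)) ≤ K ^ 2 * B ^ 5 * (4 * B ^ 9 * q ^ 2) := by
      gcongr
    have h2 : q ^ 2 ≤ K ^ 2 * B ^ 14 * q ^ 2 := le_mul_of_one_le_left (by positivity)
      (one_le_mul_of_one_le_of_one_le (one_le_pow₀ hK') (one_le_pow₀ hB1))
    have h3 : 32 * (K : ℝ) ^ 2 * (B ^ 14 * q ^ 2) ≤ B * (B ^ 14 * q ^ 2) :=
      mul_le_mul_of_nonneg_right hB (by positivity)
    have h4 : (0 : ℝ) ≤ K ^ 2 * B ^ 14 * q ^ 2 := by positivity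
    linarith only [h1, h2, h3, h4, hQ2]
  have hJs : pairs (tup K PP) (fun i i' => c * zs k i = c * zs k i' ∧
      |rs i - rs i'| ≤ 2 * S / (1 + Ξ)) ≤ 2 * (P' ^ K * B ^ (2 * K)) := by
    refine (close_pairs_le hk K PP (by linarith) (by positivity) hc hPP' hP'1
      fun a ha h => hD a ha (h.trans hZ1)).trans (mul_le_mul_of_nonneg_right ?_ (by positivity))
    have e : 2 * (2 * S / (1 + Ξ)) * H * P' ^ (2 * K) / k = 4 * K * H * P' ^ (2 * K) / (P * Q) := by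
      rw [hS, hQ]; field_simp; ring
    rw [e]
    have h1 : 4 * K * H * P' ^ (2 * K) / (P * Q) ≤ 1 := by
      rw [div_le_one (by positivity)]
      have e2 : P' ^ (2 * K) = q ^ 2 * r ^ 8 * B ^ (2 * K) := by
        rw [hP', mul_pow, hP, ← pow_mul, show 16 * (2 * K) = 16 * K * 2 by ring, pow_mul, ← hq]
        ring
      have h2 : B ^ (2 * K + 10) ≤ r ^ 8 :=
        ((pow_le_pow_right₀ hB1 (by omega)).trans hr).trans (le_self_pow₀ hr1 (by norm_num))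
      calc 4 * K * H * P' ^ (2 * K) ≤ 4 * K * (2 * B ^ 9) * (4 * Q * r ^ 8 * B ^ (2 * K)) := by
            rw [e2]; gcongr
        _ = 32 * K * (B ^ (2 * K + 9) * (Q * r ^ 8)) := by ring
        _ ≤ B * (B ^ (2 * K + 9) * (Q * r ^ 8)) := by
            gcongr; linarith
        _ = B ^ (2 * K + 10) * (Q * r ^ 8) := by ring
        _ ≤ r ^ 8 * (Q * r ^ 8) := by gcongr
        _ = P * Q := by rw [hP]; ring
    linarith
  have hJt : Q * pairs (tup l MM) (fun j j' => zs k j = zs k j' ∧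
      |rs j - rs j'| ≤ 2 * T / (1 + Ξ)) ≤ 2 * B ^ 15 * q * M₁ ^ (2 * l) * B ^ (2 * K) := by
    have h0 := close_pairs_le hk l MM (c := 1) (H := 1) (w := 2 * T / (1 + Ξ)) (D := B) one_pos
      (by positivity) (fun Δ h1 h2 => by
        rw [one_mul] at h2 ⊢
        have := Int.le_of_dvd (abs_pos.2 h1)
          ((dvd_abs _ _).2 ((ZMod.intCast_zmod_eq_zero_iff_dvd _ _).1 h2))
        exact_mod_cast this) hMM' hM1
      fun a ha h => hD a ha (h.trans ((pow_le_pow_right₀ hM1 (by omega)).trans hZ2))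
    simp only [one_mul] at h0
    refine (mul_le_mul_of_nonneg_left h0 hQ0.le).trans ?_
    have e : Q * ((1 + 2 * (2 * T / (1 + Ξ)) * 1 * M₁ ^ (2 * l) / k) * (M₁ ^ l * B ^ (2 * l))) =
        (Q + 4 * l * B ^ 5 * (M₁ ^ (l - 1) * M₁ ^ l)) * (M₁ ^ l * B ^ (2 * l)) := by
      have : M₁ ^ (2 * l) = M₁ * (M₁ ^ (l - 1) * M₁ ^ l) := by
        rw [← pow_add, ← pow_succ']; congr 1; omega
      rw [this, hT, hQ]; field_simp; ring
    rw [e]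
    have h1 : Q ≤ B ^ 15 * (q * M₁ ^ l) := hQu.trans (by rw [sq]; gcongr)
    have h2 : 4 * l * B ^ 5 * (M₁ ^ (l - 1) * M₁ ^ l) ≤ B ^ 15 * (q * M₁ ^ l) := by
      calc 4 * l * B ^ 5 * (M₁ ^ (l - 1) * M₁ ^ l) ≤ B * B ^ 14 * (q * M₁ ^ l) := by
            gcongr
            · linarith
            · norm_num
        _ = _ := by ring
    calc (Q + 4 * l * B ^ 5 * (M₁ ^ (l - 1) * M₁ ^ l)) * (M₁ ^ l * B ^ (2 * l))
        ≤ (B ^ 15 * (q * M₁ ^ l) + B ^ 15 * (q * M₁ ^ l)) * (M₁ ^ l * B ^ (2 * K)) := by gcongr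
      _ = _ := by ring
  have hmain := bil_pow k c X PP MM α β hα hβ hK hl0 hcP hcM
    (W := B ^ (2 * K + 9) / r * (P' ^ K * M₁ ^ l)) (fun a b ha hb => by
      have h1 := dls k (tup K PP) (tup l MM) a b ha hb (fun i => c * zs k i) (zs k) rs rs
        (X := X) (ρ := r⁻¹) hS0 hT0
        (fun i hi => rs_bounds hP0 fun t => (hPP _ (Fintype.mem_piFinset.1 hi t)).1)
        (fun j hj => rs_bounds hM00 fun t => (hMM _ (Fintype.mem_piFinset.1 hj t)).1)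
        (by positivity) (by rw [inv_eq_one_div]; gcongr; linarith)
      refine h1.trans ?_
      have c1 : ((tup K PP).card : ℝ) ≤ P' ^ K := by
        rw [Fintype.card_piFinset, Finset.prod_const, Finset.card_univ, Fintype.card_fin]
        push_cast
        exact pow_le_pow_left₀ (Nat.cast_nonneg _) hcP _
      have c2 : ((tup l MM).card : ℝ) ≤ M₁ ^ l := by
        rw [Fintype.card_piFinset, Finset.prod_const, Finset.card_univ, Fintype.card_fin]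
        push_cast
        exact pow_le_pow_left₀ (Nat.cast_nonneg _) hcM _
      have c3 : 20 * r⁻¹ * ((tup K PP).card : ℝ) * ((tup l MM).card : ℝ) ≤
          B ^ (2 * K + 8) / r * (P' ^ K * M₁ ^ l) := by
        have : 20 ≤ B ^ (2 * K + 8) := le_trans (by linarith) (le_self_pow₀ hB1 (by omega))
        rw [div_eq_mul_inv, ← mul_assoc]
        gcongr
      have c4 : B ^ (2 * K + 8) / r * (P' ^ K * M₁ ^ l) + B ^ (2 * K + 8) / r * (P' ^ K * M₁ ^ l)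
          ≤ B ^ (2 * K + 9) / r * (P' ^ K * M₁ ^ l) := by
        have : (0 : ℝ) ≤ B ^ (2 * K + 8) / r * (P' ^ K * M₁ ^ l) := by positivity
        calc _ = 2 * (B ^ (2 * K + 8) / r * (P' ^ K * M₁ ^ l)) := by ring
          _ ≤ B * (B ^ (2 * K + 8) / r * (P' ^ K * M₁ ^ l)) := by gcongr; linarith
          _ = _ := by ring
      refine le_trans (add_le_add c3 ?_) c4
      refine Real.sqrt_le_iff.2 ⟨by positivity, ?_⟩
      have c5 : q * r ^ 4 ≤ P' ^ K := by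
        rw [hq, pow_mul]
        exact pow_le_pow_left₀ hP0.le (le_mul_of_one_le_right hP0.le hB1) _
      rw [← hΞ, ← hQ]
      set J1 := pairs (tup K PP) (fun i i' => c * zs k i = c * zs k i' ∧
        |rs i - rs i'| ≤ 2 * S / (1 + Ξ))
      set J2 := pairs (tup l MM) (fun j j' => zs k j = zs k j' ∧
        |rs j - rs j'| ≤ 2 * T / (1 + Ξ))
      have hJ2 : 0 ≤ Q * J2 := mul_nonneg hQ0.le (pairs_nonneg _ _)
      calc 2 * Q / r⁻¹ ^ 2 * J1 * J2 = 2 * r ^ 2 * J1 * (Q * J2) := by field_simp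
        _ ≤ 2 * r ^ 2 * (2 * (P' ^ K * B ^ (2 * K))) *
            (2 * B ^ 15 * q * M₁ ^ (2 * l) * B ^ (2 * K)) := by gcongr
        _ = 8 * (q * r ^ 4) * (B ^ (4 * K + 15) * P' ^ K * M₁ ^ (2 * l) / r ^ 2) := by
            field_simp; ring
        _ ≤ B * P' ^ K * (B ^ (4 * K + 15) * P' ^ K * M₁ ^ (2 * l) / r ^ 2) := by
            gcongr; linarith
        _ = _ := by field_simp; ring)
  refine le_of_pow_le_pow_left₀ (n := K * l) (by positivity) (by positivity) (hmain.trans ?_)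
  have e : M₁ ^ ((K - 1) * l) * ((P' ^ K) ^ (l - 1) * (B ^ (2 * K + 9) / r * (P' ^ K * M₁ ^ l))) =
      (P' * M₁) ^ (K * l) * (B ^ (2 * K + 9) / r) := by
    obtain ⟨K', hK'⟩ : ∃ K', K = K' + 1 := ⟨K - 1, by omega⟩
    obtain ⟨l', hl'⟩ : ∃ l', l = l' + 1 := ⟨l - 1, by omega⟩
    rw [hl', hK', Nat.add_sub_cancel, Nat.add_sub_cancel]; ring
  rw [e, div_pow, div_eq_mul_inv ((P' * M₁) ^ (K * l))]
  refine mul_le_mul_of_nonneg_left ?_ (by positivity)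
  rw [← one_div, div_le_div_iff₀ hr0 (by positivity), one_mul, ← pow_mul, ← pow_add]
  refine (pow_le_pow_right₀ hB1 ?_).trans hr
  have : K * l ≤ K ^ 2 := by rw [sq]; exact Nat.mul_le_mul_left _ hlK
  omega

end Pool.Agent.P.MP_26a8c3_nt.Hyb
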