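import Pool.Agent.P.MP_26a8c3_nt.Hyb3

/-! Poisson summation for the smoothed count of multiples in a progression. -/

namespace Pool.Agent.P.MP_26a8c3_nt.Hyb

open Finset Real MeasureTheory
open scoped FourierTransform ContDiff

/-- The Fourier transform of a real function. -/
noncomputable def hat (g : ℝ → ℝ) (ξ : ℝ) : ℂ := ∫ v, (g v : ℂ) * ee (-(ξ * v))

lemma fourier_eq_hat (g : ℝ → ℝ) (ξ : ℝ) : 𝓕 (fun v => (g v : ℂ)) ξ = hat g ξ := by
  rw [Real.fourier_real_eq_integral_exp_smul, hat]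
  refine integral_congr_ae (.of_forall fun v => ?_)
  simp only [ee, smul_eq_mul]
  rw [mul_comm]; push_cast; ring_nf

/-- Test functions. -/
structure Good (g : ℝ → ℝ) (C : ℝ) : Prop where
  smooth : ContDiff ℝ ∞ g
  supp : ∀ v, g v ≠ 0 → -1 ≤ v ∧ v ≤ 2
  nonneg : ∀ v, 0 ≤ g v
  int_le : ∫ v, g v ≤ 2
  pos : 0 < C
  decay : ∀ ξ : ℝ, ξ ≠ 0 → ‖hat g ξ‖ ≤ C / ξ ^ 2

lemma cpt_of {g : ℝ → ℝ} (h : ∀ v, g v ≠ 0 → -1 ≤ v ∧ v ≤ 2) {E : Type*} [Zero E] {F : ℝ → E}
    {c : ℝ} (hc : 0 < c) (hF : ∀ u, F u ≠ 0 → g (c * u) ≠ 0) : HasCompactSupport F := by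
  refine HasCompactSupport.intro (isCompact_Icc (a := -1 / c) (b := 2 / c)) fun u hu => ?_
  by_contra h0
  obtain ⟨h1, h2⟩ := h _ (hF u h0)
  exact hu ⟨by rw [div_le_iff₀ hc]; linarith, by rw [le_div_iff₀ hc]; linarith⟩

lemma exists_good {κ : ℝ} (hκ : 0 < κ) (hκ1 : κ ≤ 1) : ∃ (g : ℝ → ℝ) (C : ℝ), Good g C ∧
    (∀ v, 0 ≤ v → v ≤ 1 → g v = 1) ∧ ∫ v, g v ≤ 1 + κ := by
  let f : ContDiffBump (1 / 2 : ℝ) := ⟨1 / 2, 1 / 2 + κ / 2, by norm_num, by linarith⟩
  have h1 : ∫ v, f v ≤ 1 + κ := by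
    refine (f.integral_le_measure_closedBall volume).trans (le_of_eq ?_)
    rw [Real.volume_real_closedBall (by show 0 ≤ 1 / 2 + κ / 2; positivity)]
    show 2 * (1 / 2 + κ / 2) = _
    ring
  have h2 : ∀ v, f v ≠ 0 → -1 ≤ v ∧ v ≤ 2 := by
    intro v hv
    have : v ∈ Metric.ball (1 / 2 : ℝ) (1 / 2 + κ / 2) := by
      have := f.support_eq
      exact this ▸ Function.mem_support.2 hv
    rw [Metric.mem_ball, Real.dist_eq, abs_lt] at this
    constructor <;> linarith [this.1, this.2]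
  have h3 : HasCompactSupport fun v => ((f v : ℝ) : ℂ) :=
    cpt_of h2 one_pos fun u hu => by simpa using hu
  have h4 : ContDiff ℝ ∞ fun v => ((f v : ℝ) : ℂ) := Complex.ofRealCLM.contDiff.comp f.contDiff
  obtain ⟨C, hC, hC2⟩ := (𝓕 (h3.toSchwartzMap h4)).decay 2 0
  refine ⟨f, C, ⟨f.contDiff, h2, fun v => f.nonneg, by linarith, hC, fun ξ hξ => ?_⟩,
    fun v a b => f.one_of_mem_closedBall ?_, h1⟩
  · have := hC2 ξ
    rw [norm_iteratedFDeriv_zero, Real.norm_eq_abs, sq_abs] at this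
    rw [le_div_iff₀ (by positivity), mul_comm, ← fourier_eq_hat]
    exact this
  · rw [Metric.mem_closedBall, Real.dist_eq, abs_le]
    show -(1 / 2) ≤ _ ∧ _ ≤ 1 / 2
    constructor <;> linarith

lemma poisson {g : ℝ → ℝ} {C : ℝ} (hg : Good g C) {c : ℝ} (hc : 0 < c) (x : ℝ) :
    ∑' j : ℤ, (g (c * (x + j)) : ℂ) = ∑' h : ℤ, ee (h * x) * (c⁻¹ : ℝ) * hat g (h / c) := by
  have h3 : HasCompactSupport fun u => ((g (c * u) : ℝ) : ℂ) :=
    cpt_of hg.supp hc fun u hu => by simpa using hu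
  have h4 : ContDiff ℝ ∞ fun u => ((g (c * u) : ℝ) : ℂ) :=
    Complex.ofRealCLM.contDiff.comp (hg.smooth.comp (contDiff_const.mul contDiff_id))
  refine ((h3.toSchwartzMap h4).tsum_eq_tsum_fourier x).trans (tsum_congr fun h => ?_)
  have e1 : 𝓕 (h3.toSchwartzMap h4) h = hat (fun u => g (c * u)) h := fourier_eq_hat _ _
  have e2 : hat (fun u => g (c * u)) h = (c⁻¹ : ℝ) * hat g (h / c) := by
    have := Measure.integral_comp_mul_left (fun v => (g v : ℂ) * ee (-(h / c * v))) c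
    rw [abs_of_pos (inv_pos.2 hc), Complex.real_smul] at this
    rw [hat, hat, ← this]
    refine integral_congr_ae (.of_forall fun v => ?_)
    simp only
    congr 3
    field_simp
  rw [e1, e2, fourier_coe_apply, ee]
  push_cast
  ring_nf

lemma tail_bound (f : ℤ → ℂ) {c : ℝ} (hf : ∀ h : ℤ, h ≠ 0 → ‖f h‖ ≤ c / (h : ℝ) ^ 2)
    {H : ℕ} (hH : 1 ≤ H) :
    ‖∑' h, f h - f 0 - ∑ n ∈ range H, (f (n + 1) + f (-(n + 1)))‖ ≤ 2 * c / H := by
  have hc : 0 ≤ c := by simpa using (norm_nonneg _).trans (hf 1 one_ne_zero)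
  have hs : Summable f := by
    refine Summable.of_norm_bounded_eventually
      ((Real.summable_one_div_int_pow.2 one_lt_two).mul_left c) ?_
    filter_upwards [Filter.eventually_cofinite_ne 0] with h hh
    rw [mul_one_div]
    exact hf h hh
  have h1 := hs.hasSum.nat_add_neg
  have h2 := h1.summable.sum_add_tsum_nat_add (H + 1)
  rw [h1.tsum_eq, Finset.sum_range_succ'] at h2
  simp only [Nat.cast_add, Nat.cast_one, Nat.cast_zero, neg_zero] at h2
  have e : ∑' h, f h - f 0 - ∑ n ∈ range H, (f (n + 1) + f (-(n + 1))) =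
      ∑' i : ℕ, (f (i + (H + 1)) + f (-(i + (H + 1)))) := by linear_combination -h2
  rw [e]
  have h3 : Summable fun i : ℕ => f (i + (H + 1)) + f (-(i + (H + 1))) := by
    simpa using (summable_nat_add_iff (H + 1)).2 h1.summable
  have hH' : (1 : ℝ) ≤ H := by exact_mod_cast hH
  refine le_of_tendsto' h3.hasSum.tendsto_sum_nat.norm fun N => ?_
  have key : ‖∑ i ∈ range N, (f (i + (H + 1)) + f (-(i + (H + 1))))‖ ≤
      2 * c / H - 2 * c / (N + H) := by
    induction N with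
    | zero => simp
    | succ N ih =>
      rw [Finset.sum_range_succ]
      refine (norm_add_le _ _).trans ((add_le_add ih (norm_add_le _ _)).trans ?_)
      have a1 := hf (N + (H + 1)) (by positivity)
      have a2 := hf (-(N + (H + 1))) (neg_ne_zero.2 (by positivity))
      push_cast at a1 a2 ⊢
      rw [neg_sq] at a2
      have a3 : c / ((N : ℝ) + (H + 1)) ^ 2 ≤ c / (N + H) - c / (N + 1 + H) := by
        have : c / (N + H) - c / (N + 1 + H) = c / ((N + H) * (N + (H + 1))) := by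
          field_simp; ring
        rw [this, sq]
        gcongr
        linarith
      have a4 : 2 * c / ((N : ℝ) + H) = 2 * (c / (N + H)) := by ring
      have a5 : 2 * c / ((N : ℝ) + 1 + H) = 2 * (c / (N + 1 + H)) := by ring
      linarith
  have : 0 ≤ 2 * c / (N + H) := by positivity
  linarith

/-- The integers of the progression near the interval. -/
noncomputable def win (k : ℕ) (l : ZMod k) (x₀ y : ℝ) : Finset ℤ :=
  (Finset.Icc ⌊x₀ - y⌋ ⌈x₀ + 2 * y⌉).filter fun n => (n : ZMod k) = l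

/-- Indicator of divisibility. -/
def dv (D : ℕ) (n : ℤ) : ℝ := if (D : ℤ) ∣ n then 1 else 0

/-- The smoothed count of multiples of `D`. -/
noncomputable def cnt (g : ℝ → ℝ) (k : ℕ) (l : ZMod k) (x₀ y : ℝ) (D : ℕ) : ℝ :=
  ∑ n ∈ win k l x₀ y, g ((n - x₀) / y) * dv D n

/-- The remainder. -/
noncomputable def rem (g : ℝ → ℝ) (k : ℕ) (l : ZMod k) (x₀ y : ℝ) (D : ℕ) : ℝ :=
  cnt g k l x₀ y D - (∫ v, g v) * (y / k) / D

/-- The terms of the dual sum. -/
noncomputable def trm (g : ℝ → ℝ) (k : ℕ) [NeZero k] (l : ZMod k) (x₀ y : ℝ) (D : ℕ) (h : ℤ) : ℂ :=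
  ch k (h * l * (D : ZMod k)⁻¹) * ee (-(h * x₀ / (k * D))) * (y / (k * D) : ℝ) *
    hat g (h * y / (k * D))

lemma cnt_eq {g : ℝ → ℝ} {C : ℝ} (hg : Good g C) (k : ℕ) [NeZero k] (l : ZMod k) (x₀ : ℝ) {y : ℝ}
    (hy : 0 < y) {D : ℕ} (hD : D ≠ 0) (hDk : Nat.Coprime D k) :
    (cnt g k l x₀ y D : ℂ) = ∑' h : ℤ, trm g k l x₀ y D h := by
  have hk : (0 : ℝ) < k := by exact_mod_cast Nat.pos_of_ne_zero (NeZero.ne k)
  have hD' : (0 : ℝ) < D := by exact_mod_cast Nat.pos_of_ne_zero hD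
  set a : ℤ := ((l * (D : ZMod k)⁻¹).val : ℤ) with ha
  have haz : (a : ZMod k) = l * (D : ZMod k)⁻¹ := by simp [ha]
  have hu : (D : ZMod k) * (D : ZMod k)⁻¹ = 1 :=
    ZMod.mul_inv_of_unit _ ((ZMod.isUnit_iff_coprime _ _).2 hDk)
  have hP := poisson hg (c := k * D / y) (by positivity) (a / k - x₀ / (k * D))
  set F : ℤ → ℂ := fun n => if (n : ZMod k) = l then ((g ((n - x₀) / y) * dv D n : ℝ) : ℂ) else 0
    with hF
  have e1 : (cnt g k l x₀ y D : ℂ) = ∑' n, F n := by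
    rw [cnt, win, Finset.sum_filter, tsum_eq_sum (s := Finset.Icc ⌊x₀ - y⌋ ⌈x₀ + 2 * y⌉)]
    · rw [Complex.ofReal_sum]
      refine Finset.sum_congr rfl fun n _ => ?_
      simp only [hF]
      split_ifs <;> simp
    · intro n hn
      simp only [hF]
      split_ifs
      · by_contra h0
        have h1 : g ((n - x₀) / y) ≠ 0 := fun h => h0 (by simp [h])
        obtain ⟨h2, h3⟩ := hg.supp _ h1
        rw [le_div_iff₀ hy] at h2
        rw [div_le_iff₀ hy] at h3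
        exact hn (Finset.mem_Icc.2 ⟨Int.floor_le_iff.2 (by linarith),
          Int.le_ceil_iff.2 (by linarith)⟩)
      · rfl
  have hinj : Function.Injective fun j : ℤ => (D : ℤ) * (a + k * j) := by
    intro i j h
    have h1 := mul_left_cancel₀ (by exact_mod_cast hD) h
    exact mul_left_cancel₀ (by exact_mod_cast NeZero.ne k) (add_left_cancel h1)
  have e2 : ∑' n, F n = ∑' j : ℤ, F (D * (a + k * j)) := by
    refine (hinj.tsum_eq fun n hn => ?_).symm
    simp only [hF, Function.mem_support, dv] at hn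
    split_ifs at hn with h1 h2
    · obtain ⟨m, rfl⟩ := h2
      have h3 : (a : ZMod k) = (m : ZMod k) := by
        rw [haz, ← h1]; push_cast
        linear_combination (m : ZMod k) * hu
      obtain ⟨j, hj⟩ := (ZMod.intCast_eq_intCast_iff_dvd_sub _ _ _).1 h3
      exact ⟨j, by simp only; rw [← hj]; ring⟩
    · simp at hn
    · simp at hn
  rw [e1, e2]
  refine (tsum_congr fun j => ?_).trans (hP.trans (tsum_congr fun h => ?_))
  · simp only [hF, dv]
    rw [if_pos, if_pos (Dvd.intro _ rfl), mul_one]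
    · congr 2
      push_cast
      field_simp
      ring
    · push_cast
      rw [haz, ZMod.natCast_self]
      linear_combination l * hu
  · rw [trm, mul_assoc (h : ZMod k), ← haz, ← Int.cast_mul, ch_int, ← ee_add]
    have f1 : (h : ℝ) / (k * D / y) = h * y / (k * D) := by field_simp
    have f2 : (h : ℝ) * (a / k - x₀ / (k * D)) = ((h * a : ℤ) : ℝ) / k + -(h * x₀ / (k * D)) := by
      push_cast; ring
    rw [f1, f2, inv_div]

lemma trm_zero (g : ℝ → ℝ) (k : ℕ) [NeZero k] (l : ZMod k) (x₀ y : ℝ) (D : ℕ) :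
    trm g k l x₀ y D 0 = (((∫ v, g v) * (y / k) / D : ℝ) : ℂ) := by
  simp only [trm, hat, Int.cast_zero, zero_mul, zero_div, neg_zero, ee_zero, mul_one,
    AddChar.map_zero_eq_one, one_mul, integral_complex_ofReal]
  push_cast
  ring

lemma norm_trm {g : ℝ → ℝ} {C : ℝ} (hg : Good g C) (k : ℕ) [NeZero k] (l : ZMod k) (x₀ : ℝ)
    {y : ℝ} (hy : 0 < y) {D : ℕ} (hD : D ≠ 0) (h : ℤ) (hh : h ≠ 0) :
    ‖trm g k l x₀ y D h‖ ≤ C * D / (y / k) / (h : ℝ) ^ 2 := by
  have hk : (0 : ℝ) < k := by exact_mod_cast Nat.pos_of_ne_zero (NeZero.ne k)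
  have hD' : (0 : ℝ) < D := by exact_mod_cast Nat.pos_of_ne_zero hD
  have hh' : (h : ℝ) ≠ 0 := by exact_mod_cast hh
  rw [trm, norm_mul, norm_mul, norm_mul, norm_ee, AddChar.norm_apply, one_mul, one_mul,
    Complex.norm_real, Real.norm_of_nonneg (by positivity)]
  refine (mul_le_mul_of_nonneg_left (hg.decay _ (by positivity)) (by positivity)).trans
    (le_of_eq ?_)
  field_simp

lemma rem_approx {g : ℝ → ℝ} {C : ℝ} (hg : Good g C) (k : ℕ) [NeZero k] (l : ZMod k) (x₀ : ℝ)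
    {y : ℝ} (hy : 0 < y) {D : ℕ} (hD : D ≠ 0) (hDk : Nat.Coprime D k) {H : ℕ} (hH : 1 ≤ H) :
    ‖(rem g k l x₀ y D : ℂ) - ∑ n ∈ range H, (trm g k l x₀ y D (n + 1) +
      trm g k l x₀ y D (-(n + 1)))‖ ≤ 2 * (C * D / (y / k)) / H := by
  rw [rem, Complex.ofReal_sub, cnt_eq hg k l x₀ hy hD hDk, ← trm_zero g k l x₀ y D]
  exact tail_bound _ (norm_trm hg k l x₀ hy hD) hH

lemma rem_triv {g : ℝ → ℝ} {C : ℝ} (hg : Good g C) (k : ℕ) [NeZero k] (l : ZMod k) (x₀ : ℝ)
    {y : ℝ} (hy : 0 < y) {D : ℕ} (hD : D ≠ 0) (hDk : Nat.Coprime D k) :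
    |rem g k l x₀ y D| ≤ 4 * (C * D / (y / k)) := by
  have h1 := rem_approx hg k l x₀ hy hD hDk le_rfl
  have h2 := norm_trm hg k l x₀ hy hD 1 one_ne_zero
  have h3 := norm_trm hg k l x₀ hy hD (-1) (by norm_num)
  simp only [Finset.range_one, Finset.sum_singleton, Nat.cast_zero, zero_add, Nat.cast_one,
    div_one, Int.cast_one, one_pow, Int.cast_neg, neg_sq] at h1 h2 h3
  rw [← Real.norm_eq_abs, ← Complex.norm_real]
  have h4 := norm_le_norm_sub_add ((rem g k l x₀ y D : ℝ) : ℂ)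
    (trm g k l x₀ y D 1 + trm g k l x₀ y D (-1))
  linarith [norm_add_le (trm g k l x₀ y D 1) (trm g k l x₀ y D (-1))]

end Pool.Agent.P.MP_26a8c3_nt.Hyb
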