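import Pool.Agent.P.MP_26a8c3_nt.Hyb4

/-! Sums of remainders over moduli `q m p`. -/

namespace Pool.Agent.P.MP_26a8c3_nt.Hyb

open Finset Real MeasureTheory

lemma sum_le_aux {E : Type*} [NormedAddCommGroup E] (MM PP : Finset ℕ) (F : ℕ → ℕ → E)
    {c M₁ P₁ : ℝ} (hc : 0 ≤ c) (hM : 0 ≤ M₁) (hP : 0 ≤ P₁)
    (hMM : ∀ m ∈ MM, m ≠ 0 ∧ (m : ℝ) ≤ M₁) (hPP : ∀ p ∈ PP, p ≠ 0 ∧ (p : ℝ) ≤ P₁)
    (hF : ∀ m ∈ MM, ∀ p ∈ PP, ‖F m p‖ ≤ c * (m * p)) :
    ‖∑ m ∈ MM, ∑ p ∈ PP, F m p‖ ≤ c * (M₁ * P₁) ^ 2 := by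
  have h1 := card_le_of_le MM hM hMM
  have h2 := card_le_of_le PP hP hPP
  refine (norm_sum_le _ _).trans ((Finset.sum_le_card_nsmul _ _ (P₁ * (c * (M₁ * P₁)))
    fun m hm => ?_).trans ?_)
  · refine (norm_sum_le _ _).trans ((Finset.sum_le_card_nsmul _ _ (c * (M₁ * P₁))
      fun p hp => (hF m hm p hp).trans ?_).trans ?_)
    · have := (hMM m hm).2
      have := (hPP p hp).2
      gcongr
    · rw [nsmul_eq_mul]; gcongr
  · rw [nsmul_eq_mul]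
    calc _ ≤ M₁ * (P₁ * (c * (M₁ * P₁))) := by gcongr
      _ = _ := by ring

lemma rem_sum_triv {g : ℝ → ℝ} {C : ℝ} (hg : Good g C) (k : ℕ) [NeZero k] (l : ZMod k) (x₀ : ℝ)
    {y : ℝ} (hy : 0 < y) {q : ℕ} (hq : q ≠ 0) (hqk : Nat.Coprime q k) (MM PP : Finset ℕ)
    (γ : ℕ → ℝ) {Γ M₁ P₁ : ℝ} (hΓ : 0 ≤ Γ) (hγ : ∀ m ∈ MM, |γ m| ≤ Γ) (hM : 0 ≤ M₁) (hP : 0 ≤ P₁)
    (hMM : ∀ m ∈ MM, m ≠ 0 ∧ (m : ℝ) ≤ M₁ ∧ Nat.Coprime m k)
    (hPP : ∀ p ∈ PP, p ≠ 0 ∧ (p : ℝ) ≤ P₁ ∧ Nat.Coprime p k) :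
    |∑ m ∈ MM, ∑ p ∈ PP, γ m * rem g k l x₀ y (q * m * p)| ≤
      Γ * (4 * C * q / (y / k)) * (M₁ * P₁) ^ 2 := by
  have hC := hg.pos
  rw [← Real.norm_eq_abs]
  refine sum_le_aux MM PP _ (by positivity) hM hP (fun m hm => ⟨(hMM m hm).1, (hMM m hm).2.1⟩)
    (fun p hp => ⟨(hPP p hp).1, (hPP p hp).2.1⟩) fun m hm p hp => ?_
  rw [Real.norm_eq_abs, abs_mul]
  refine (mul_le_mul (hγ m hm) (rem_triv hg k l x₀ hy
    (mul_ne_zero (mul_ne_zero hq (hMM m hm).1) (hPP p hp).1)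
    (Nat.Coprime.mul_left (Nat.Coprime.mul_left hqk (hMM m hm).2.2) (hPP p hp).2.2))
    (abs_nonneg _) hΓ).trans (le_of_eq ?_)
  push_cast; ring

lemma inv_mul_cop {k a b : ℕ} (ha : Nat.Coprime a k) (hb : Nat.Coprime b k) :
    ((a * b : ℕ) : ZMod k)⁻¹ = (a : ZMod k)⁻¹ * (b : ZMod k)⁻¹ := by
  refine ZMod.inv_eq_of_mul_eq_one _ _ _ ?_
  have h1 := ZMod.mul_inv_of_unit _ ((ZMod.isUnit_iff_coprime _ _).2 ha)
  have h2 := ZMod.mul_inv_of_unit _ ((ZMod.isUnit_iff_coprime _ _).2 hb)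
  push_cast
  linear_combination ((b : ZMod k) * (b : ZMod k)⁻¹) * h1 + h2

lemma trm_eq (g : ℝ → ℝ) (k : ℕ) [NeZero k] (l : ZMod k) (x₀ y : ℝ) {q m p : ℕ}
    (hq : Nat.Coprime q k) (hm : Nat.Coprime m k) (hp : Nat.Coprime p k) (h : ℤ) :
    trm g k l x₀ y (q * m * p) h = ∫ v, (g v : ℂ) * ((y / (k * (q * m * p)) : ℝ) *
      ker k (h * l * (q : ZMod k)⁻¹) (-(h * (x₀ + y * v)) / (k * q)) m p) := by
  rw [trm, hat, ← integral_const_mul, inv_mul_cop (Nat.Coprime.mul_left hq hm) hp,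
    inv_mul_cop hq hm]
  refine integral_congr_ae (.of_forall fun v => ?_)
  simp only [ker]
  have e : -(h * (x₀ + y * v)) / (k * q) * ((p : ℝ)⁻¹ * (m : ℝ)⁻¹) =
      -(h * x₀ / (k * ((q * m * p : ℕ) : ℝ))) + -(h * y / (k * ((q * m * p : ℕ) : ℝ)) * v) := by
    push_cast; ring
  have e2 : (h : ZMod k) * l * ((q : ZMod k)⁻¹ * (m : ZMod k)⁻¹ * (p : ZMod k)⁻¹) =
      h * l * (q : ZMod k)⁻¹ * (p : ZMod k)⁻¹ * (m : ZMod k)⁻¹ := by ring
  rw [e, ee_add, e2]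
  push_cast; ring

lemma continuous_ee : Continuous ee := by unfold ee; fun_prop

lemma trm_sum {g : ℝ → ℝ} {C : ℝ} (hg : Good g C) (k : ℕ) [NeZero k] (l : ZMod k) (x₀ : ℝ)
    {y : ℝ} (hy : 0 < y) {q : ℕ} (hq : q ≠ 0) (hqk : Nat.Coprime q k) (MM PP : Finset ℕ)
    (γ : ℕ → ℝ) {Γ M₀ P₀ W : ℝ} (hΓ : 0 < Γ) (hγ : ∀ m ∈ MM, |γ m| ≤ Γ) (hM : 0 < M₀)
    (hP : 0 < P₀) (hW0 : 0 ≤ W) (hMM : ∀ m ∈ MM, M₀ ≤ m ∧ Nat.Coprime m k)
    (hPP : ∀ p ∈ PP, P₀ ≤ p ∧ Nat.Coprime p k) (h : ℤ)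
    (hW : ∀ v : ℝ, -1 ≤ v → v ≤ 2 → ∀ α β : ℕ → ℂ, (∀ m ∈ MM, ‖α m‖ ≤ 1) → (∀ p ∈ PP, ‖β p‖ ≤ 1) →
      ‖∑ m ∈ MM, ∑ p ∈ PP, α m * β p *
        ker k (h * l * (q : ZMod k)⁻¹) (-(h * (x₀ + y * v)) / (k * q)) m p‖ ≤ W) :
    ‖∑ m ∈ MM, ∑ p ∈ PP, (γ m : ℂ) * trm g k l x₀ y (q * m * p) h‖ ≤
      2 * (Γ * (y / k) / (q * M₀ * P₀) * W) := by
  have hk : (0 : ℝ) < k := by exact_mod_cast Nat.pos_of_ne_zero (NeZero.ne k)
  have hq' : (0 : ℝ) < q := by exact_mod_cast Nat.pos_of_ne_zero hq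
  have hgc : Continuous g := hg.smooth.continuous
  set F : ℕ → ℕ → ℝ → ℂ := fun m p v => (γ m : ℂ) * ((g v : ℂ) * ((y / (k * (q * m * p)) : ℝ) *
      ker k (h * l * (q : ZMod k)⁻¹) (-(h * (x₀ + y * v)) / (k * q)) m p)) with hF
  have hint : ∀ m p, Integrable (F m p) := by
    intro m p
    refine Continuous.integrable_of_hasCompactSupport ?_
      (cpt_of hg.supp one_pos fun u hu h0 => hu ?_)
    · have := continuous_ee
      simp only [hF, ker]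
      fun_prop
    · rw [one_mul] at h0
      simp [hF, h0]
  have e : ∑ m ∈ MM, ∑ p ∈ PP, (γ m : ℂ) * trm g k l x₀ y (q * m * p) h =
      ∫ v, ∑ m ∈ MM, ∑ p ∈ PP, F m p v := by
    rw [integral_finsetSum _ fun m _ => integrable_finsetSum _ fun p _ => hint m p]
    refine Finset.sum_congr rfl fun m hm => ?_
    rw [integral_finsetSum _ fun p _ => hint m p]
    refine Finset.sum_congr rfl fun p hp => ?_
    rw [trm_eq g k l x₀ y hqk (hMM m hm).2 (hPP p hp).2, ← integral_const_mul]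
  rw [e]
  set V := Γ * (y / k) / (q * M₀ * P₀) with hV
  have hV0 : 0 < V := by positivity
  have hgi : Integrable g := hgc.integrable_of_hasCompactSupport
    (cpt_of hg.supp one_pos fun u hu => by rwa [one_mul])
  refine (norm_integral_le_of_norm_le (hgi.mul_const (V * W)) (.of_forall fun v => ?_)).trans ?_
  · by_cases h0 : g v = 0
    · simp [hF, h0]
    obtain ⟨h1, h2⟩ := hg.supp v h0
    have h3 := hW v h1 h2 (fun m => ((γ m / Γ * (M₀ / m) : ℝ) : ℂ)) (fun p => ((P₀ / p : ℝ) : ℂ))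
      (fun m hm => by
        have a := (hMM m hm).1
        have b : (0 : ℝ) < m := hM.trans_le a
        rw [Complex.norm_real, Real.norm_eq_abs, abs_mul, abs_div, abs_of_pos hΓ,
          abs_of_pos (div_pos hM b)]
        exact mul_le_one₀ ((div_le_one hΓ).2 (hγ m hm)) (by positivity) ((div_le_one b).2 a))
      (fun p hp => by
        have a := (hPP p hp).1
        have b : (0 : ℝ) < p := hP.trans_le a
        rw [Complex.norm_real, Real.norm_eq_abs, abs_of_pos (by positivity)]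
        exact (div_le_one b).2 a)
    have e2 : ∑ m ∈ MM, ∑ p ∈ PP, F m p v = ((g v * V : ℝ) : ℂ) * ∑ m ∈ MM, ∑ p ∈ PP,
        ((γ m / Γ * (M₀ / m) : ℝ) : ℂ) * ((P₀ / p : ℝ) : ℂ) *
        ker k (h * l * (q : ZMod k)⁻¹) (-(h * (x₀ + y * v)) / (k * q)) m p := by
      rw [Finset.mul_sum]
      refine Finset.sum_congr rfl fun m hm => ?_
      rw [Finset.mul_sum]
      refine Finset.sum_congr rfl fun p hp => ?_
      have : γ m * (g v * (y / (k * (q * m * p)))) =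
          g v * V * (γ m / Γ * (M₀ / m) * (P₀ / p)) := by
        have b : (0 : ℝ) < m := hM.trans_le (hMM m hm).1
        have b' : (0 : ℝ) < p := hP.trans_le (hPP p hp).1
        rw [hV]; field_simp
      simp only [hF]
      rw [← mul_assoc (g v : ℂ), ← mul_assoc (γ m : ℂ), ← Complex.ofReal_mul, ← Complex.ofReal_mul,
        this]
      push_cast; ring
    rw [e2, norm_mul, Complex.norm_real, Real.norm_of_nonneg (mul_nonneg (hg.nonneg v) hV0.le),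
      mul_assoc]
    exact mul_le_mul_of_nonneg_left (mul_le_mul_of_nonneg_left h3 hV0.le) (hg.nonneg v)
  · rw [integral_mul_const]
    exact mul_le_mul_of_nonneg_right hg.int_le (by positivity)

theorem rem_sum {g : ℝ → ℝ} {C : ℝ} (hg : Good g C) (k : ℕ) [NeZero k] {l : ZMod k}
    (hl : IsUnit l) {x y r s B M₁ Z Γ : ℝ} (hy : 0 < y) (hyx : y ≤ x) {K : ℕ} (hK : 1 ≤ K)
    {q : ℕ} (hq : q ≠ 0) (hqk : Nat.Coprime q k) (MM PP : Finset ℕ) (γ : ℕ → ℝ) (hΓ : 0 < Γ)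
    (hγ : ∀ m ∈ MM, |γ m| ≤ Γ) (hMM : ∀ m ∈ MM, m ≠ 0 ∧ (m : ℝ) ≤ M₁ ∧ Nat.Coprime m k)
    (hPP : ∀ p ∈ PP, r ^ 16 ≤ p ∧ (p : ℝ) ≤ r ^ 16 * B ∧ Nat.Coprime p k)
    (hD : ∀ a : ℕ, a ≠ 0 → (a : ℝ) ≤ Z → (a.divisors.card : ℝ) ≤ B)
    (hZ1 : (r ^ 16 * B) ^ (3 * K) ≤ Z) (hZ2 : M₁ ^ (3 * K) ≤ Z)
    (hB : 32 * (K : ℝ) ^ 2 ≤ B) (hr : B ^ (30 * K ^ 2) ≤ r) (hs : s * r ^ 4 = r ^ (16 * K))
    (hsx : s ^ 2 = x / (y / k)) (hM1 : 1 ≤ M₁) (hM2 : s ≤ M₁ ^ K)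
    (hlo : y / k ≤ q * M₁ * r ^ 16) (hhi : q * M₁ * (r ^ 16 * B) ≤ y / k * B ^ 4) :
    |∑ m ∈ MM, ∑ p ∈ PP, γ m * rem g k l (x - y) y (q * m * p)| ≤
      Γ * (6 * C + 8) * (y / k) / (q * B) := by
  have hk : (0 : ℝ) < k := by exact_mod_cast Nat.pos_of_ne_zero (NeZero.ne k)
  have hq' : (0 : ℝ) < q := by exact_mod_cast Nat.pos_of_ne_zero hq
  have hC := hg.pos
  have hK' : (1 : ℝ) ≤ K := by exact_mod_cast hK
  have hB1 : 1 ≤ B := by linarith only [hB, one_le_pow₀ (n := 2) hK']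
  have hB0 : 0 < B := by linarith
  have hr0 : 0 < r := lt_of_lt_of_le (by positivity) hr
  have hM0 : 0 < M₁ := by linarith
  have hx0 : 0 < x := hy.trans_le hyx
  set T := y / k with hT
  have hT0 : 0 < T := by positivity
  set P := r ^ 16 with hP
  have hP0 : 0 < P := by positivity
  have hPP' : ∀ p ∈ PP, p ≠ 0 ∧ (p : ℝ) ≤ P * B ∧ Nat.Coprime p k := fun p hp =>
    ⟨by have := (hPP p hp).1; rintro rfl; simp only [Nat.cast_zero] at this; linarith,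
      (hPP p hp).2⟩
  have hsq : (q * M₁ * (P * B)) ^ 2 ≤ (T * B ^ 4) ^ 2 := pow_le_pow_left₀ (by positivity) hhi 2
  classical
  set M₀ := M₁ / B ^ 5 with hM₀
  have hM00 : 0 < M₀ := by positivity
  rw [← Finset.sum_filter_add_sum_filter_not MM fun m => M₀ ≤ (m : ℝ)]
  set M1 := MM.filter fun m : ℕ => M₀ ≤ (m : ℝ) with hM1d
  have hsm := rem_sum_triv hg k l (x - y) hy hq hqk (MM.filter fun m : ℕ => ¬ M₀ ≤ (m : ℝ)) PP γ
    hΓ.le (fun m hm => hγ m (Finset.mem_filter.1 hm).1) hM00.le (by positivity : 0 ≤ P * B)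
    (fun m hm => ⟨(hMM m (Finset.mem_filter.1 hm).1).1, (not_le.1 (Finset.mem_filter.1 hm).2).le,
      (hMM m (Finset.mem_filter.1 hm).1).2.2⟩) hPP'
  have hsm2 : Γ * (4 * C * q / T) * (M₀ * (P * B)) ^ 2 ≤ Γ * (4 * C) * T / (q * B) := by
    calc _ = Γ * (4 * C) * (q * M₁ * (P * B)) ^ 2 / (q * T * B ^ 10) := by
          rw [hM₀]; field_simp
      _ ≤ Γ * (4 * C) * (T * B ^ 4) ^ 2 / (q * T * B ^ 9) := by gcongr; norm_num
      _ = _ := by field_simp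
  set H : ℕ := ⌈B ^ 9⌉₊ with hH
  have hB9 : 1 ≤ B ^ 9 := one_le_pow₀ hB1
  have hH1 : B ^ 9 ≤ H := Nat.le_ceil _
  have hH2 : (H : ℝ) ≤ 2 * B ^ 9 := by
    have := Nat.ceil_lt_add_one (show 0 ≤ B ^ 9 by positivity)
    linarith
  have hH3 : (1 : ℝ) ≤ H := hB9.trans hH1
  have hH4 : 1 ≤ H := by exact_mod_cast hH3
  have hM1' : ∀ m ∈ M1, m ≠ 0 ∧ (m : ℝ) ≤ M₁ ∧ Nat.Coprime m k :=
    fun m hm => hMM m (Finset.mem_filter.1 hm).1
  have hγ1 : ∀ m ∈ M1, |γ m| ≤ Γ := fun m hm => hγ m (Finset.mem_filter.1 hm).1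
  have htail : ‖∑ m ∈ M1, ∑ p ∈ PP, (γ m : ℂ) * ((rem g k l (x - y) y (q * m * p) : ℂ) -
      ∑ n ∈ range H, (trm g k l (x - y) y (q * m * p) (n + 1) +
        trm g k l (x - y) y (q * m * p) (-(n + 1))))‖ ≤ Γ * (2 * C) * T / (q * B) := by
    refine (sum_le_aux M1 PP _ (c := Γ * (2 * C * q / T / H)) (by positivity) hM0.le
      (by positivity : 0 ≤ P * B) (fun m hm => ⟨(hM1' m hm).1, (hM1' m hm).2.1⟩)
      (fun p hp => ⟨(hPP' p hp).1, (hPP' p hp).2.1⟩) fun m hm p hp => ?_).trans ?_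
    · rw [norm_mul, Complex.norm_real, Real.norm_eq_abs]
      refine (mul_le_mul (hγ1 m hm) (rem_approx hg k l (x - y) hy
        (mul_ne_zero (mul_ne_zero hq (hM1' m hm).1) (hPP' p hp).1)
        (Nat.Coprime.mul_left (Nat.Coprime.mul_left hqk (hM1' m hm).2.2) (hPP' p hp).2.2) hH4)
        (norm_nonneg _) hΓ.le).trans (le_of_eq ?_)
      push_cast; ring
    · calc _ = Γ * (2 * C) * (q * M₁ * (P * B)) ^ 2 / (q * T * H) := by field_simp
        _ ≤ Γ * (2 * C) * (T * B ^ 4) ^ 2 / (q * T * B ^ 9) := by gcongr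
        _ = _ := by field_simp
  have hterm : ∀ h : ℤ, h ≠ 0 → |(h : ℝ)| ≤ H →
      ‖∑ m ∈ M1, ∑ p ∈ PP, (γ m : ℂ) * trm g k l (x - y) y (q * m * p) h‖ ≤
        2 * (Γ * T / (q * B ^ 10)) := by
    intro h hh0 hhH
    have hh1 : (1 : ℝ) ≤ |(h : ℝ)| := by exact_mod_cast Int.one_le_abs hh0
    refine (trm_sum hg k l (x - y) hy hq hqk M1 PP γ (W := P * B * M₁ / B ^ 16) hΓ hγ1 hM00 hP0
      (by positivity) (fun m hm => ⟨(Finset.mem_filter.1 hm).2, (hM1' m hm).2.2⟩)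
      (fun p hp => ⟨(hPP p hp).1, (hPP p hp).2.2⟩) h fun v hv1 hv2 α β hα hβ => ?_).trans
      (le_of_eq ?_)
    · have eX : k * |-(h * (x - y + y * v)) / (k * q)| = |(h : ℝ)| * |x - y + y * v| / q := by
        rw [abs_div, abs_neg, abs_mul, abs_of_pos (by positivity : (0 : ℝ) < k * q)]
        field_simp
      have hx : x = s ^ 2 * T := by rw [hsx]; field_simp
      have hks : (k : ℝ) * x = s ^ 2 * y := by rw [hx, hT]; field_simp
      refine bilinear k hK PP M1 α β hα hβ hPP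
        (fun m hm => ⟨(Finset.mem_filter.1 hm).2, (hM1' m hm).2⟩) (fun Δ h1 h2 => ?_) hH3 hH2
        hD hZ1 hZ2 hB hr hs hM1 hM2 ?_ ?_ ?_
      · have hu : IsUnit (l * (q : ZMod k)⁻¹) := hl.mul (IsUnit.of_mul_eq_one _
          (ZMod.inv_mul_of_unit _ ((ZMod.isUnit_iff_coprime _ _).2 hqk)))
        have h3 : ((h * Δ : ℤ) : ZMod k) = 0 := by
          refine hu.mul_right_eq_zero.1 ?_
          push_cast
          linear_combination h2
        have h4 := Int.le_of_dvd (abs_pos.2 (mul_ne_zero hh0 h1))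
          ((dvd_abs _ _).2 ((ZMod.intCast_zmod_eq_zero_iff_dvd _ _).1 h3))
        have h5 : (k : ℝ) ≤ |(h : ℝ)| * |(Δ : ℝ)| := by
          rw [abs_mul] at h4
          exact_mod_cast h4
        exact h5.trans (mul_le_mul_of_nonneg_right hhH (abs_nonneg _))
      · rw [eX]
        have h0 : 0 ≤ |(h : ℝ)| * |x - y + y * v| / q * B ^ 5 / (P * M₁) := by positivity
        by_cases hc : x ≤ 4 * y
        · have : s ^ 2 * y ≤ 4 * k * y := by
            rw [← hks]; linarith only [mul_le_mul_of_nonneg_left hc hk.le]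
          have := le_of_mul_le_mul_right this hy
          linarith
        · have h1 : x / 2 ≤ |x - y + y * v| := le_trans (by
            linarith only [hc, not_le.1 hc, hy, mul_nonneg hy.le (sub_nonneg.2 hv1)]) (le_abs_self _)
          have h2 : s ^ 2 / 2 ≤ |(h : ℝ)| * |x - y + y * v| / q * B ^ 5 / (P * M₁) := by
            calc s ^ 2 / 2 = 1 * (x / 2) * B ^ 4 / (T * B ^ 4) := by rw [hx]; field_simp
              _ ≤ |(h : ℝ)| * |x - y + y * v| * B ^ 6 / (q * M₁ * (P * B)) := by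
                gcongr; norm_num
              _ = _ := by field_simp
          linarith only [h2, sq_nonneg s, hk]
      · have : k * y ≤ s ^ 2 * y := by rw [← hks]; gcongr
        exact le_of_mul_le_mul_right this hy
      · rw [eX]
        have h1 : |x - y + y * v| ≤ 2 * x := abs_le.2
          ⟨by linarith only [hy, hyx, mul_nonneg hy.le (sub_nonneg.2 hv1)],
            by linarith only [hy, hyx, mul_nonneg hy.le (sub_nonneg.2 hv2)]⟩
        calc |(h : ℝ)| * |x - y + y * v| / q / (P * M₁)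
            = |(h : ℝ)| * |x - y + y * v| / (q * M₁ * P) := by field_simp
          _ ≤ 2 * B ^ 9 * (2 * x) / T := by
            gcongr
            exact hhH.trans hH2
          _ = _ := by rw [hx]; field_simp; ring
    · rw [hM₀, ← hT]; field_simp
  have hbig : |∑ m ∈ M1, ∑ p ∈ PP, γ m * rem g k l (x - y) y (q * m * p)| ≤
      Γ * (2 * C) * T / (q * B) + Γ * 8 * T / (q * B) := by
    rw [← Real.norm_eq_abs, ← Complex.norm_real]
    have e : ((∑ m ∈ M1, ∑ p ∈ PP, γ m * rem g k l (x - y) y (q * m * p) : ℝ) : ℂ) =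
        ∑ m ∈ M1, ∑ p ∈ PP, (γ m : ℂ) * ((rem g k l (x - y) y (q * m * p) : ℂ) -
          ∑ n ∈ range H, (trm g k l (x - y) y (q * m * p) (n + 1) +
            trm g k l (x - y) y (q * m * p) (-(n + 1)))) + ∑ n ∈ range H,
        (∑ m ∈ M1, ∑ p ∈ PP, (γ m : ℂ) * trm g k l (x - y) y (q * m * p) (n + 1) +
          ∑ m ∈ M1, ∑ p ∈ PP, (γ m : ℂ) * trm g k l (x - y) y (q * m * p) (-(n + 1))) := by
      simp only [← Finset.sum_add_distrib]
      rw [Finset.sum_comm (s := range H), ← Finset.sum_add_distrib, Complex.ofReal_sum]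
      refine Finset.sum_congr rfl fun m _ => ?_
      rw [Finset.sum_comm (s := range H), ← Finset.sum_add_distrib, Complex.ofReal_sum]
      refine Finset.sum_congr rfl fun p _ => ?_
      simp only [← mul_add, ← Finset.mul_sum]
      push_cast; ring
    rw [e]
    refine (norm_add_le _ _).trans (add_le_add htail ?_)
    refine (norm_sum_le _ _).trans ((Finset.sum_le_card_nsmul _ _ (4 * (Γ * T / (q * B ^ 10)))
      fun n hn => ?_).trans ?_)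
    · have h1 : |(((n : ℤ) + 1 : ℤ) : ℝ)| ≤ H := by
        rw [abs_of_nonneg (by positivity)]
        exact_mod_cast Finset.mem_range.1 hn
      have h2 := hterm (n + 1) (by positivity) h1
      have h3 := hterm (-(n + 1)) (neg_ne_zero.2 (by positivity)) (by rwa [Int.cast_neg, abs_neg])
      exact (norm_add_le _ _).trans (by linarith)
    · rw [nsmul_eq_mul, Finset.card_range]
      calc _ ≤ 2 * B ^ 9 * (4 * (Γ * T / (q * B ^ 10))) := by gcongr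
        _ = _ := by field_simp; ring
  refine (abs_add_le _ _).trans ((add_le_add hbig (hsm.trans hsm2)).trans (le_of_eq ?_))
  ring

end Pool.Agent.P.MP_26a8c3_nt.Hyb
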