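import Pool.Agent.P.MP_26a8c3_nt.Hyb5

/-! Selberg's weights indexed by sets of primes, and their products. -/

namespace Pool.Agent.P.MP_26a8c3_nt.Hyb

open Finset

lemma orth_aux (U V : Finset ℕ) :
    ∑ S ∈ U.powerset, ∑ T ∈ V.powerset, (-1 : ℝ) ^ S.card * (-1) ^ T.card * ∏ p ∈ S ∩ T, (p : ℝ)
      = ∑ S ∈ U.powerset, (-1 : ℝ) ^ S.card * ∏ p ∈ V, (1 - if p ∈ S then (p : ℝ) else 1) := by
  refine Finset.sum_congr rfl fun S _ => ?_
  simp only [sub_eq_add_neg]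
  rw [Finset.prod_one_add, Finset.mul_sum]
  refine Finset.sum_congr rfl fun T _ => ?_
  rw [Finset.prod_neg, mul_assoc, Finset.prod_ite_mem, Finset.inter_comm]

lemma orth (U V : Finset ℕ) :
    ∑ S ∈ U.powerset, ∑ T ∈ V.powerset, (-1 : ℝ) ^ S.card * (-1) ^ T.card * ∏ p ∈ S ∩ T, (p : ℝ)
      = if U = V then ∏ p ∈ U, ((p : ℝ) - 1) else 0 := by
  have hz : ∀ U V : Finset ℕ, ¬ V ⊆ U →
      ∑ S ∈ U.powerset, ∑ T ∈ V.powerset,
        (-1 : ℝ) ^ S.card * (-1) ^ T.card * ∏ p ∈ S ∩ T, (p : ℝ) = 0 := by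
    intro U V h
    rw [orth_aux]
    obtain ⟨p, hpV, hpU⟩ := Finset.not_subset.1 h
    refine Finset.sum_eq_zero fun S hS => ?_
    rw [Finset.prod_eq_zero hpV, mul_zero]
    rw [if_neg fun h => hpU (Finset.mem_powerset.1 hS h), sub_self]
  split_ifs with h
  · subst h
    rw [orth_aux, Finset.sum_eq_single U]
    · rw [← Finset.prod_neg]
      refine Finset.prod_congr rfl fun p hp => ?_
      rw [if_pos hp]; ring
    · intro S hS hne
      obtain ⟨p, hpU, hpS⟩ := Finset.not_subset.1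
        fun h => hne (Finset.Subset.antisymm (Finset.mem_powerset.1 hS) h)
      rw [Finset.prod_eq_zero hpU, mul_zero]
      rw [if_neg hpS, sub_self]
    · intro h; exact absurd (Finset.mem_powerset_self U) h
  · by_cases h1 : V ⊆ U
    · have h2 : ¬ U ⊆ V := fun h2 => h (Finset.Subset.antisymm h2 h1)
      rw [Finset.sum_comm, ← hz V U h2]
      refine Finset.sum_congr rfl fun S _ => Finset.sum_congr rfl fun T _ => ?_
      rw [Finset.inter_comm]; ring
    · exact hz U V h1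

/-- Product of a set of primes. -/
def dd (S : Finset ℕ) : ℕ := ∏ p ∈ S, p

/-- Selberg's multiplicative function. -/
noncomputable def gg (U : Finset ℕ) : ℝ := ∏ p ∈ U, ((p : ℝ) - 1)⁻¹

/-- The orthogonal functions. -/
noncomputable def psi (U : Finset ℕ) (n : ℤ) : ℝ :=
  ∑ S ∈ U.powerset, (-1) ^ S.card * (dd S : ℝ) * dv (dd S) n

/-- Sets of primes coprime to `W` with product at most `z`. -/
noncomputable def LL (W : ℕ) (z : ℝ) : Finset (Finset ℕ) :=
  ((Finset.Icc 1 ⌊z⌋₊).filter fun p => p.Prime ∧ Nat.Coprime p W).powerset.filter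
    fun U => (dd U : ℝ) ≤ z

/-- The sieve weight before normalisation. -/
noncomputable def UU (W : ℕ) (z : ℝ) (n : ℤ) : ℝ := ∑ U ∈ LL W z, gg U * psi U n

/-- The normalising sum. -/
noncomputable def GG (W : ℕ) (z : ℝ) : ℝ := ∑ U ∈ LL W z, gg U

lemma dd_pos {S : Finset ℕ} (hS : ∀ p ∈ S, p.Prime) : 0 < dd S :=
  Finset.prod_pos fun p hp => (hS p hp).pos

lemma mem_LL {W : ℕ} {z : ℝ} {U : Finset ℕ} :
    U ∈ LL W z ↔ (∀ p ∈ U, p.Prime ∧ Nat.Coprime p W) ∧ (dd U : ℝ) ≤ z := by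
  rw [LL, Finset.mem_filter, Finset.mem_powerset]
  refine ⟨fun h => ⟨fun p hp => (Finset.mem_filter.1 (h.1 hp)).2, h.2⟩, fun h => ⟨fun p hp =>
    Finset.mem_filter.2 ⟨Finset.mem_Icc.2 ⟨(h.1 p hp).1.pos, Nat.le_floor (le_trans ?_ h.2)⟩,
      h.1 p hp⟩, h.2⟩⟩
  exact_mod_cast Nat.le_of_dvd (dd_pos fun p hp => (h.1 p hp).1) (Finset.dvd_prod_of_mem _ hp)

lemma LL_down {W : ℕ} {z : ℝ} {U S : Finset ℕ} (hU : U ∈ LL W z) (hS : S ⊆ U) : S ∈ LL W z := by
  rw [mem_LL] at hU ⊢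
  refine ⟨fun p hp => hU.1 p (hS hp), le_trans ?_ hU.2⟩
  exact_mod_cast Nat.le_of_dvd (dd_pos fun p hp => (hU.1 p hp).1)
    (Finset.prod_dvd_prod_of_subset _ _ _ hS)

lemma LL_mono {W : ℕ} {z z' : ℝ} (h : z ≤ z') : LL W z ⊆ LL W z' := fun _ hU =>
  mem_LL.2 ⟨(mem_LL.1 hU).1, (mem_LL.1 hU).2.trans h⟩

lemma gg_pos {U : Finset ℕ} (hU : ∀ p ∈ U, p.Prime) : 0 < gg U :=
  Finset.prod_pos fun p hp => inv_pos.2 (sub_pos.2 (by exact_mod_cast (hU p hp).one_lt))

lemma gg_pos' {W : ℕ} {z : ℝ} {U : Finset ℕ} (hU : U ∈ LL W z) : 0 < gg U :=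
  gg_pos fun p hp => ((mem_LL.1 hU).1 p hp).1

lemma GG_mono {W : ℕ} {z z' : ℝ} (h : z ≤ z') : GG W z ≤ GG W z' :=
  Finset.sum_le_sum_of_subset_of_nonneg (LL_mono h) fun _ hU _ => (gg_pos' hU).le

lemma one_le_GG {W : ℕ} {z : ℝ} (h : 1 ≤ z) : 1 ≤ GG W z := by
  have h1 : (∅ : Finset ℕ) ∈ LL W z := mem_LL.2 ⟨by simp, by simpa [dd] using h⟩
  have := Finset.single_le_sum (f := gg) (fun U hU => (gg_pos' hU).le) h1
  rwa [show gg ∅ = 1 from Finset.prod_empty] at this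

lemma dd_dvd_iff {S : Finset ℕ} (hS : ∀ p ∈ S, p.Prime) (n : ℤ) :
    (dd S : ℤ) ∣ n ↔ ∀ p ∈ S, (p : ℤ) ∣ n := by
  simp only [Int.natCast_dvd]
  exact ⟨fun h _ hp => (Finset.dvd_prod_of_mem _ hp).trans h,
    fun h => Finset.prod_primes_dvd _ (fun p hp => (hS p hp).prime) h⟩

lemma dv_union {S T : Finset ℕ} (hS : ∀ p ∈ S, p.Prime) (hT : ∀ p ∈ T, p.Prime) (n : ℤ) :
    dv (dd S) n * dv (dd T) n = dv (dd (S ∪ T)) n := by
  have e : (dd (S ∪ T) : ℤ) ∣ n ↔ (dd S : ℤ) ∣ n ∧ (dd T : ℤ) ∣ n := by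
    rw [dd_dvd_iff hS, dd_dvd_iff hT, dd_dvd_iff (Finset.forall_mem_union.2 ⟨hS, hT⟩),
      Finset.forall_mem_union]
  unfold dv
  by_cases a : (dd S : ℤ) ∣ n <;> by_cases b : (dd T : ℤ) ∣ n <;> simp [e, a, b]

lemma dd_union (S T : Finset ℕ) : dd (S ∪ T) * dd (S ∩ T) = dd S * dd T :=
  Finset.prod_union_inter

lemma two_pow_le {m : ℕ} (hm : m ≠ 0) : (2 : ℝ) ^ m.primeFactors.card ≤ m.divisors.card := by
  rw [Nat.card_divisors hm, ← Finset.prod_const, Nat.cast_prod]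
  refine Finset.prod_le_prod (fun _ _ => by norm_num) fun p hp => ?_
  have := (Nat.prime_of_mem_primeFactors hp).factorization_pos_of_dvd hm
    (Nat.dvd_of_mem_primeFactors hp)
  exact_mod_cast Nat.succ_le_succ this

lemma lam_le (W : ℕ) (z : ℝ) {m : ℕ} (hm : m ≠ 0) :
    ∑ U ∈ LL W z, ∑ S ∈ U.powerset, (if dd S ∣ m then gg U * dd S else 0) ≤
      (m.divisors.card : ℝ) ^ 2 * GG W z := by
  set M := m.primeFactors with hM
  have hG : 0 ≤ GG W z := Finset.sum_nonneg fun U hU => (gg_pos' hU).le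
  have h1 : ∀ U ∈ LL W z, ∑ S ∈ U.powerset, (if dd S ∣ m then gg U * dd S else 0) ≤
      ∑ S ∈ M.powerset, if S ⊆ U then gg U * dd S else 0 := by
    intro U hU
    rw [← Finset.sum_filter, ← Finset.sum_filter]
    refine Finset.sum_le_sum_of_subset_of_nonneg (fun S hS => ?_)
      fun S _ _ => mul_nonneg (gg_pos' hU).le (by positivity)
    obtain ⟨a, b⟩ := Finset.mem_filter.1 hS
    have a' := Finset.mem_powerset.1 a
    exact Finset.mem_filter.2 ⟨Finset.mem_powerset.2 fun p hp => Nat.mem_primeFactors.2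
      ⟨((mem_LL.1 hU).1 p (a' hp)).1, (Finset.dvd_prod_of_mem _ hp).trans b, hm⟩, a'⟩
  refine (Finset.sum_le_sum h1).trans ?_
  rw [Finset.sum_comm]
  have h2 : ∀ S ∈ M.powerset, ∑ U ∈ LL W z, (if S ⊆ U then gg U * dd S else 0) ≤
      2 ^ M.card * GG W z := by
    intro S hS
    have hS' := Finset.mem_powerset.1 hS
    have hSp : ∀ p ∈ S, p.Prime := fun p hp => Nat.prime_of_mem_primeFactors (hS' hp)
    have h3 : gg S * dd S ≤ 2 ^ M.card := by
      rw [gg, dd, Nat.cast_prod, ← Finset.prod_mul_distrib]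
      refine le_trans (Finset.prod_le_prod (g := fun _ => (2 : ℝ)) (fun p hp => ?_) fun p hp => ?_) ?_
      · have : (1 : ℝ) < p := by exact_mod_cast (hSp p hp).one_lt
        exact mul_nonneg (inv_nonneg.2 (by linarith)) (by linarith)
      · have : (2 : ℝ) ≤ p := by exact_mod_cast (hSp p hp).two_le
        rw [inv_mul_le_iff₀ (by linarith)]; linarith
      · rw [Finset.prod_const]
        exact pow_le_pow_right₀ one_le_two (Finset.card_le_card hS')
    rw [← Finset.sum_filter]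
    have h4 : ∑ U ∈ (LL W z).filter (S ⊆ ·), gg U * dd S =
        gg S * dd S * ∑ U ∈ (LL W z).filter (S ⊆ ·), gg (U \ S) := by
      rw [Finset.mul_sum]
      refine Finset.sum_congr rfl fun U hU => ?_
      rw [gg, ← Finset.prod_sdiff (Finset.mem_filter.1 hU).2, gg, gg]; ring
    have h5 : ∑ U ∈ (LL W z).filter (S ⊆ ·), gg (U \ S) ≤ GG W z := by
      rw [← Finset.sum_image (g := fun U => U \ S) (f := gg) fun U hU V hV h => by
        rw [← Finset.sdiff_union_of_subset (Finset.mem_filter.1 hU).2,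
          ← Finset.sdiff_union_of_subset (Finset.mem_filter.1 hV).2]
        exact congrArg (· ∪ S) h]
      refine Finset.sum_le_sum_of_subset_of_nonneg (fun V hV => ?_) fun V hV _ => (gg_pos' hV).le
      obtain ⟨U, hU, rfl⟩ := Finset.mem_image.1 hV
      exact LL_down (Finset.mem_filter.1 hU).1 Finset.sdiff_subset
    rw [h4]
    exact mul_le_mul h3 h5 (Finset.sum_nonneg fun U hU =>
      (gg_pos' (LL_down (Finset.mem_filter.1 hU).1 Finset.sdiff_subset)).le) (by positivity)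
  refine (Finset.sum_le_card_nsmul _ _ _ h2).trans ?_
  rw [nsmul_eq_mul, Finset.card_powerset, ← mul_assoc, sq]
  push_cast
  have := two_pow_le hm
  gcongr

theorem exists_gamma (W : ℕ) {z z' : ℝ} (hz : z' ≤ z) : ∃ (MM : Finset ℕ) (γ : ℕ → ℝ),
    (∀ n, UU W z n * UU W z' n = ∑ m ∈ MM, γ m * dv m n) ∧ ∑ m ∈ MM, γ m / m = GG W z' ∧
    ∀ m ∈ MM, (m ≠ 0 ∧ (m : ℝ) ≤ z * z' ∧ Nat.Coprime m W) ∧
      |γ m| ≤ (m.divisors.card : ℝ) ^ 4 * (GG W z * GG W z') := by
  set c : Finset ℕ → Finset ℕ → Finset ℕ → Finset ℕ → ℝ := fun U V S T =>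
    gg U * gg V * ((-1) ^ S.card * (-1) ^ T.card * (dd S * dd T)) with hc
  set MM := (Finset.Icc 1 ⌊z * z'⌋₊).filter fun m : ℕ => (m : ℝ) ≤ z * z' ∧ Nat.Coprime m W
    with hMM
  set γ : ℕ → ℝ := fun m => ∑ U ∈ LL W z, ∑ V ∈ LL W z', ∑ S ∈ U.powerset, ∑ T ∈ V.powerset,
    if dd (S ∪ T) = m then c U V S T else 0 with hγ
  have hpr : ∀ {z : ℝ}, ∀ U ∈ LL W z, ∀ S ∈ U.powerset, S ∈ LL W z := fun U hU S hS =>
    LL_down hU (Finset.mem_powerset.1 hS)
  have key : ∀ F : ℕ → ℝ, ∑ m ∈ MM, γ m * F m = ∑ U ∈ LL W z, ∑ V ∈ LL W z',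
      ∑ S ∈ U.powerset, ∑ T ∈ V.powerset, c U V S T * F (dd (S ∪ T)) := by
    intro F
    simp only [hγ, Finset.sum_mul]
    rw [Finset.sum_comm]
    refine Finset.sum_congr rfl fun U hU => ?_
    rw [Finset.sum_comm]
    refine Finset.sum_congr rfl fun V hV => ?_
    rw [Finset.sum_comm]
    refine Finset.sum_congr rfl fun S hS => ?_
    rw [Finset.sum_comm]
    refine Finset.sum_congr rfl fun T hT => ?_
    obtain ⟨a1, a2⟩ := mem_LL.1 (hpr U hU S hS)
    obtain ⟨b1, b2⟩ := mem_LL.1 (hpr V hV T hT)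
    have h1 : ∀ p ∈ S ∪ T, p.Prime ∧ Nat.Coprime p W := Finset.forall_mem_union.2 ⟨a1, b1⟩
    have h2 : (dd (S ∪ T) : ℝ) ≤ z * z' := by
      have h3 : dd (S ∪ T) ≤ dd S * dd T := by
        rw [← dd_union]
        exact Nat.le_mul_of_pos_right _ (dd_pos fun p hp => (a1 p (Finset.mem_inter.1 hp).1).1)
      calc (dd (S ∪ T) : ℝ) ≤ dd S * dd T := by exact_mod_cast h3
        _ ≤ z * z' := mul_le_mul a2 b2 (by positivity) (le_trans (by positivity) a2)
    have h4 : dd (S ∪ T) ∈ MM := Finset.mem_filter.2 ⟨Finset.mem_Icc.2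
      ⟨dd_pos fun p hp => (h1 p hp).1, Nat.le_floor h2⟩, h2,
      Nat.Coprime.prod_left fun p hp => (h1 p hp).2⟩
    simp only [ite_mul, zero_mul]
    rw [Finset.sum_ite_eq, if_pos h4]
  refine ⟨MM, γ, fun n => ?_, ?_, fun m hm => ?_⟩
  · rw [key, UU, UU, Finset.sum_mul_sum]
    refine Finset.sum_congr rfl fun U hU => Finset.sum_congr rfl fun V hV => ?_
    rw [mul_mul_mul_comm, psi, psi, Finset.sum_mul_sum, Finset.mul_sum]
    refine Finset.sum_congr rfl fun S hS => ?_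
    rw [Finset.mul_sum]
    refine Finset.sum_congr rfl fun T hT => ?_
    rw [← dv_union (fun p hp => ((mem_LL.1 (hpr U hU S hS)).1 p hp).1)
      (fun p hp => ((mem_LL.1 (hpr V hV T hT)).1 p hp).1)]
    simp only [hc]; ring
  · simp only [div_eq_mul_inv]
    rw [key, Finset.sum_comm, GG]
    refine Finset.sum_congr rfl fun V hV => ?_
    have h1 : ∀ U ∈ LL W z, ∑ S ∈ U.powerset, ∑ T ∈ V.powerset, c U V S T * (dd (S ∪ T) : ℝ)⁻¹ =
        if U = V then gg V else 0 := by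
      intro U hU
      have h2 : ∑ S ∈ U.powerset, ∑ T ∈ V.powerset, c U V S T * (dd (S ∪ T) : ℝ)⁻¹ =
          gg U * gg V * if U = V then ∏ p ∈ U, ((p : ℝ) - 1) else 0 := by
        rw [← orth, Finset.mul_sum]
        refine Finset.sum_congr rfl fun S hS => ?_
        rw [Finset.mul_sum]
        refine Finset.sum_congr rfl fun T hT => ?_
        have h3 : (0 : ℝ) < dd (S ∪ T) := by
          exact_mod_cast dd_pos (Finset.forall_mem_union.2
            ⟨fun p hp => ((mem_LL.1 (hpr U hU S hS)).1 p hp).1,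
              fun p hp => ((mem_LL.1 (hpr V hV T hT)).1 p hp).1⟩)
        have h4 : (dd S : ℝ) * dd T = dd (S ∪ T) * ∏ p ∈ S ∩ T, (p : ℝ) := by
          rw [← Nat.cast_mul, ← dd_union, Nat.cast_mul, dd, dd, Nat.cast_prod _ (S ∩ T)]
        simp only [hc]
        rw [h4]; field_simp
      rw [h2]
      split_ifs with h
      · subst h
        rw [mul_assoc, gg, ← Finset.prod_mul_distrib, Finset.prod_eq_one (s := U)
          (f := fun p => ((p : ℝ) - 1)⁻¹ * ((p : ℝ) - 1)) fun p hp => inv_mul_cancel₀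
            (sub_pos.2 (by exact_mod_cast ((mem_LL.1 hU).1 p hp).1.one_lt)).ne', mul_one]
      · simp
    rw [Finset.sum_congr rfl h1, Finset.sum_ite_eq', if_pos (LL_mono hz hV)]
  · obtain ⟨h1, h2, h3⟩ := Finset.mem_filter.1 hm
    have hm0 : m ≠ 0 := Nat.one_le_iff_ne_zero.1 (Finset.mem_Icc.1 h1).1
    refine ⟨⟨hm0, h2, h3⟩, ?_⟩
    have h4 : |γ m| ≤ (∑ U ∈ LL W z, ∑ S ∈ U.powerset, (if dd S ∣ m then gg U * dd S else 0)) *
        ∑ V ∈ LL W z', ∑ T ∈ V.powerset, (if dd T ∣ m then gg V * dd T else 0) := by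
      rw [Finset.sum_mul_sum]
      refine (Finset.abs_sum_le_sum_abs _ _).trans (Finset.sum_le_sum fun U hU => ?_)
      refine (Finset.abs_sum_le_sum_abs _ _).trans (Finset.sum_le_sum fun V hV => ?_)
      rw [Finset.sum_mul_sum]
      refine (Finset.abs_sum_le_sum_abs _ _).trans (Finset.sum_le_sum fun S _ => ?_)
      refine (Finset.abs_sum_le_sum_abs _ _).trans (Finset.sum_le_sum fun T _ => ?_)
      have a := gg_pos' hU
      have b := gg_pos' hV
      by_cases h : dd (S ∪ T) = m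
      · rw [if_pos h, if_pos (h ▸ Finset.prod_dvd_prod_of_subset _ _ _ Finset.subset_union_left),
          if_pos (h ▸ Finset.prod_dvd_prod_of_subset _ _ _ Finset.subset_union_right)]
        simp only [hc, abs_mul, abs_pow, abs_neg, abs_one, one_pow, Nat.abs_cast, abs_of_pos a,
          abs_of_pos b]
        exact le_of_eq (by ring)
      · rw [if_neg h, abs_zero]
        refine mul_nonneg ?_ ?_ <;> split_ifs <;> positivity
    refine h4.trans ((mul_le_mul (lam_le W z hm0) (lam_le W z' hm0) (Finset.sum_nonneg fun V hV =>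
      Finset.sum_nonneg fun T _ => ?_) (mul_nonneg (by positivity)
        (Finset.sum_nonneg fun U hU => (gg_pos' hU).le))).trans (le_of_eq (by ring)))
    have := gg_pos' hV
    split_ifs <;> positivity

lemma UU_prime (W : ℕ) {z : ℝ} {p : ℕ} (hp : p.Prime) (hz : z < p) : UU W z p = GG W z := by
  refine Finset.sum_congr rfl fun U hU => ?_
  rw [psi, Finset.sum_eq_single ∅]
  · simp [dd, dv]
  · intro S hS hne
    obtain ⟨a, b⟩ := mem_LL.1 (LL_down hU (Finset.mem_powerset.1 hS))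
    rw [dv, if_neg, mul_zero]
    intro hd
    rcases (Nat.dvd_prime hp).1 (Int.natCast_dvd_natCast.1 hd) with h | h
    · obtain ⟨q, hq⟩ := Finset.nonempty_iff_ne_empty.2 hne
      have : q ∣ dd S := Finset.dvd_prod_of_mem _ hq
      exact (a q hq).1.one_lt.ne' (Nat.dvd_one.1 (h ▸ this))
    · rw [h] at b; linarith
  · intro h; exact absurd (Finset.empty_mem_powerset U) h

end Pool.Agent.P.MP_26a8c3_nt.Hyb
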