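import Pool.Agent.P.MP_26a8c3_nt.Hyb6

/-! The sieve with the enlarged support. -/

namespace Pool.Agent.P.MP_26a8c3_nt.Hyb

open Finset

lemma dv_mul {a b : ℕ} (h : Nat.Coprime a b) (n : ℤ) : dv (a * b) n = dv a n * dv b n := by
  have e : ((a * b : ℕ) : ℤ) ∣ n ↔ (a : ℤ) ∣ n ∧ (b : ℤ) ∣ n := by
    simp only [Int.natCast_dvd]
    exact ⟨fun h => ⟨(Dvd.intro _ rfl).trans h, (Dvd.intro_left _ rfl).trans h⟩,
      fun h' => h.mul_dvd_of_dvd_of_dvd h'.1 h'.2⟩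
  unfold dv
  by_cases h1 : (a : ℤ) ∣ n <;> by_cases h2 : (b : ℤ) ∣ n <;> simp only [e, h1, h2] <;> simp

lemma dv_one (n : ℤ) : dv 1 n = 1 := by simp [dv]

lemma dv_sq (a : ℕ) (n : ℤ) : dv a n * dv a n = dv a n := by unfold dv; split_ifs <;> simp

lemma block (g : ℝ → ℝ) (k : ℕ) (l : ZMod k) (x₀ y : ℝ) {F : ℤ → ℝ} {MM : Finset ℕ} {γ : ℕ → ℝ}
    {G : ℝ} (hF : ∀ n, F n = ∑ m ∈ MM, γ m * dv m n) (hG : ∑ m ∈ MM, γ m / m = G) (q : ℕ)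
    (PP : Finset ℕ) (h : ∀ m ∈ MM, ∀ p ∈ PP, Nat.Coprime q m ∧ Nat.Coprime (q * m) p) :
    ∑ n ∈ win k l x₀ y, g ((n - x₀) / y) * (F n * (dv q n * ∑ p ∈ PP, dv p n)) =
      (∫ v, g v) * (y / k) * (G * ((q : ℝ)⁻¹ * ∑ p ∈ PP, (p : ℝ)⁻¹)) +
        ∑ m ∈ MM, ∑ p ∈ PP, γ m * rem g k l x₀ y (q * m * p) := by
  rw [← hG]
  simp only [hF, Finset.mul_sum, Finset.sum_mul]
  rw [Finset.sum_comm (s := PP), ← Finset.sum_add_distrib]
  have : ∀ n ∈ win k l x₀ y, ∑ p ∈ PP, ∑ m ∈ MM,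
      g ((n - x₀) / y) * (γ m * dv m n * (dv q n * dv p n)) =
      ∑ m ∈ MM, ∑ p ∈ PP, γ m * (g ((n - x₀) / y) * dv (q * m * p) n) := by
    intro n _
    rw [Finset.sum_comm]
    refine Finset.sum_congr rfl fun m hm => Finset.sum_congr rfl fun p hp => ?_
    rw [dv_mul (h m hm p hp).2, dv_mul (h m hm p hp).1]; ring
  rw [Finset.sum_congr rfl this, Finset.sum_comm]
  refine Finset.sum_congr rfl fun m _ => ?_
  rw [Finset.sum_comm, ← Finset.sum_add_distrib]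
  refine Finset.sum_congr rfl fun p _ => ?_
  rw [← Finset.mul_sum, rem, cnt]
  push_cast; ring

lemma expand (PP : Finset ℕ) (n : ℤ) (U V σ : ℝ) :
    (U + V * (σ - ∑ p ∈ PP, dv p n)) ^ 2 =
      U * U * (dv 1 n * ∑ p ∈ {1}, dv p n) + 2 * σ * (U * V * (dv 1 n * ∑ p ∈ {1}, dv p n)) +
      σ ^ 2 * (V * V * (dv 1 n * ∑ p ∈ {1}, dv p n)) - 2 * (U * V * (dv 1 n * ∑ p ∈ PP, dv p n)) +
      (1 - 2 * σ) * (V * V * (dv 1 n * ∑ p ∈ PP, dv p n)) +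
      ∑ q ∈ PP, V * V * (dv q n * ∑ p ∈ PP.erase q, dv p n) := by
  have : ∑ q ∈ PP, dv q n * ∑ p ∈ PP.erase q, dv p n =
      (∑ p ∈ PP, dv p n) ^ 2 - ∑ p ∈ PP, dv p n := by
    rw [sq, Finset.sum_mul, ← Finset.sum_sub_distrib]
    refine Finset.sum_congr rfl fun q hq => ?_
    rw [← Finset.add_sum_erase _ _ hq, mul_add, dv_sq]; ring
  rw [← Finset.mul_sum, this, Finset.sum_singleton, dv_one]; ring

lemma expand_sum (PP : Finset ℕ) (N : Finset ℤ) (w U V : ℤ → ℝ) (σ : ℝ) :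
    ∑ n ∈ N, w n * (U n + V n * (σ - ∑ p ∈ PP, dv p n)) ^ 2 =
      ∑ n ∈ N, w n * (U n * U n * (dv 1 n * ∑ p ∈ {1}, dv p n)) +
      2 * σ * ∑ n ∈ N, w n * (U n * V n * (dv 1 n * ∑ p ∈ {1}, dv p n)) +
      σ ^ 2 * ∑ n ∈ N, w n * (V n * V n * (dv 1 n * ∑ p ∈ {1}, dv p n)) -
      2 * ∑ n ∈ N, w n * (U n * V n * (dv 1 n * ∑ p ∈ PP, dv p n)) +
      (1 - 2 * σ) * ∑ n ∈ N, w n * (V n * V n * (dv 1 n * ∑ p ∈ PP, dv p n)) +
      ∑ q ∈ PP, ∑ n ∈ N, w n * (V n * V n * (dv q n * ∑ p ∈ PP.erase q, dv p n)) := by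
  rw [Finset.sum_comm (s := PP), Finset.mul_sum N, Finset.mul_sum N, Finset.mul_sum N,
    Finset.mul_sum N, ← Finset.sum_add_distrib, ← Finset.sum_add_distrib,
    ← Finset.sum_sub_distrib, ← Finset.sum_add_distrib, ← Finset.sum_add_distrib]
  refine Finset.sum_congr rfl fun n _ => ?_
  rw [expand, ← Finset.mul_sum PP _ (w n)]; ring

lemma final_num {I G₀ G₁ σ e₁ e₂ e₃ e₄ e₅ S a c : ℝ} (h0 : 0 ≤ σ) (h1 : σ ≤ 1 / 2)
    (E1 : |e₁| ≤ a) (E2 : |e₂| ≤ a) (E3 : |e₃| ≤ a) (E4 : |e₄| ≤ c) (E5 : |e₅| ≤ a)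
    (hS : S ≤ I * (G₁ * σ) * σ + c * σ) :
    I * G₀ + e₁ + 2 * σ * (I * G₁ + e₂) + σ ^ 2 * (I * G₁ + e₃) - 2 * (I * (G₁ * σ) + e₄) +
      (1 - 2 * σ) * (I * (G₁ * σ) + e₅) + S ≤ I * (G₀ + σ * G₁) + (13 / 4 * a + 5 / 2 * c) := by
  have t1 : 0 ≤ a := (abs_nonneg _).trans E1
  have t2 : 0 ≤ c := (abs_nonneg _).trans E4
  have F1 := (abs_le.1 E1).2
  have F2 := mul_le_mul_of_nonneg_left (abs_le.1 E2).2 h0
  have F3 := mul_le_mul_of_nonneg_left (abs_le.1 E3).2 (sq_nonneg σ)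
  have F4 := (abs_le.1 E4).1
  have F5 := mul_le_mul_of_nonneg_left (abs_le.1 E5).2 (show 0 ≤ 1 - 2 * σ by linarith)
  have t3 : σ ^ 2 * a ≤ 1 / 4 * a := mul_le_mul_of_nonneg_right
    ((pow_le_pow_left₀ h0 h1 2).trans (by norm_num)) t1
  have t4 : c * σ ≤ c * (1 / 2) := mul_le_mul_of_nonneg_left h1 t2
  linarith

theorem sieve_sum {g : ℝ → ℝ} {C : ℝ} (hg : Good g C) (k : ℕ) [NeZero k] {l : ZMod k}
    (hl : IsUnit l) {x y r s B Z u b z Y σ : ℝ} (hy : 0 < y) (hyx : y ≤ x) {K : ℕ} (hK : 1 ≤ K)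
    (PP : Finset ℕ) (hpr : ∀ p ∈ PP, p.Prime)
    (hPP : ∀ p ∈ PP, r ^ 16 ≤ p ∧ (p : ℝ) ≤ r ^ 16 * B ∧ Nat.Coprime p k)
    (hσ : ∑ p ∈ PP, (p : ℝ)⁻¹ = σ) (hσ1 : σ ≤ 1 / 2)
    (hD : ∀ a : ℕ, a ≠ 0 → (a : ℝ) ≤ Z → (a.divisors.card : ℝ) ≤ u) (huB : u ≤ B)
    (hZ1 : (r ^ 16 * B) ^ (3 * K) ≤ Z) (hZ2 : (z * z) ^ (3 * K) ≤ Z)
    (hB : 32 * (K : ℝ) ^ 2 ≤ B) (hr : B ^ (30 * K ^ 2) ≤ r) (hs : s * r ^ 4 = r ^ (16 * K))
    (hsx : s ^ 2 = x / (y / k)) (hY1 : 1 ≤ Y) (hM2 : s ≤ (Y * Y) ^ K) (hYz : Y * r ^ 16 = z * B)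
    (hb : 1 ≤ b) (hzb : z * z ≤ y / k / b) (hzB : y / k ≤ z * z * B) :
    ∑ n ∈ win k l (x - y) y, g ((n - (x - y)) / y) *
      (UU (k * dd PP) z n + UU (k * dd PP) Y n * (σ - ∑ p ∈ PP, dv p n)) ^ 2 ≤
      (∫ v, g v) * (y / k) * (GG (k * dd PP) z + σ * GG (k * dd PP) Y) +
      (GG (k * dd PP) z) ^ 2 * (u ^ 4 * (13 * C / b ^ 2 + (15 * C + 20) / B) * (y / k)) := by
  have hk : (0 : ℝ) < k := by exact_mod_cast Nat.pos_of_ne_zero (NeZero.ne k)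
  have hC := hg.pos
  have hK' : (1 : ℝ) ≤ K := by exact_mod_cast hK
  have hB1 : 1 ≤ B := by linarith only [hB, one_le_pow₀ (n := 2) hK']
  have hB0 : 0 < B := by linarith
  have hK2 : 1 ≤ K ^ 2 := Nat.one_le_pow _ _ hK
  have hr3 : B ^ 3 ≤ r := (pow_le_pow_right₀ hB1 (by omega)).trans hr
  have hr1 : 1 ≤ r := (one_le_pow₀ hB1).trans hr3
  set T := y / k with hT
  have hT0 : 0 < T := by positivity
  set P := r ^ 16 with hP
  have hP3 : B ^ 3 ≤ P := hr3.trans (le_self_pow₀ hr1 (by norm_num))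
  have hBP : B ≤ P := (le_self_pow₀ hB1 (by norm_num)).trans hP3
  have hP0 : 0 < P := by linarith
  have hY0 : 0 < Y := by linarith
  have hYz' : Y ≤ z := by
    have : Y * B ≤ z * B := hYz ▸ mul_le_mul_of_nonneg_left hBP hY0.le
    exact le_of_mul_le_mul_right this hB0
  have hz1 : 1 ≤ z := hY1.trans hYz'
  have hz0 : 0 < z := by linarith
  have hσ0 : 0 ≤ σ := hσ ▸ Finset.sum_nonneg fun _ _ => by positivity
  have hu : 0 < u := lt_of_lt_of_le (by simp) (hD 1 one_ne_zero (by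
    simpa using (one_le_pow₀ (one_le_mul_of_one_le_of_one_le hz1 hz1)).trans hZ2))
  have hzZ : z * z ≤ Z := (le_self_pow₀ (one_le_mul_of_one_le_of_one_le hz1 hz1) (by omega)).trans hZ2
  have hD' : ∀ a : ℕ, a ≠ 0 → (a : ℝ) ≤ Z → (a.divisors.card : ℝ) ≤ B :=
    fun a h1 h2 => (hD a h1 h2).trans huB
  set W := k * dd PP with hW
  set G₀ := GG W z with hG₀
  set G₁ := GG W Y with hG₁
  have hG1 : 1 ≤ G₁ := one_le_GG hY1
  have hG01 : G₁ ≤ G₀ := GG_mono hYz'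
  set Γ := u ^ 4 * G₀ ^ 2 with hΓ
  have hΓ0 : 0 < Γ := mul_pos (pow_pos hu 4) (pow_pos (by linarith only [hG1, hG01]) 2)
  have hex : ∀ z₁ z₂ : ℝ, 1 ≤ z₂ → z₂ ≤ z₁ → z₁ ≤ z → ∃ (MM : Finset ℕ) (γ : ℕ → ℝ),
      (∀ n, UU W z₁ n * UU W z₂ n = ∑ m ∈ MM, γ m * dv m n) ∧ ∑ m ∈ MM, γ m / m = GG W z₂ ∧
      (∀ m ∈ MM, |γ m| ≤ Γ) ∧ (∀ m ∈ MM, m ≠ 0 ∧ (m : ℝ) ≤ z₁ * z₂ ∧ Nat.Coprime m k) ∧
      ∀ m ∈ MM, ∀ p ∈ PP, Nat.Coprime m p := by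
    intro z₁ z₂ h0 h1 h2
    obtain ⟨MM, γ, a1, a2, a3⟩ := exists_gamma W h1
    refine ⟨MM, γ, a1, a2, fun m hm => (a3 m hm).2.trans ?_, fun m hm => ⟨(a3 m hm).1.1,
      (a3 m hm).1.2.1, (a3 m hm).1.2.2.coprime_mul_right_right⟩, fun m hm p hp =>
      Nat.Coprime.coprime_dvd_right (Finset.dvd_prod_of_mem _ hp)
        (a3 m hm).1.2.2.coprime_mul_left_right⟩
    have b1 := hD m (a3 m hm).1.1 ((a3 m hm).1.2.1.trans (le_trans
      (mul_le_mul h2 (h1.trans h2) (by linarith) hz0.le) hzZ))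
    have b2 : GG W z₁ ≤ G₀ := GG_mono h2
    have b3 : GG W z₂ ≤ G₀ := GG_mono (h1.trans h2)
    have b4 : 1 ≤ GG W z₂ := one_le_GG h0
    have b5 : 1 ≤ GG W z₁ := one_le_GG (h0.trans h1)
    have b6 : 0 ≤ G₀ := by linarith
    rw [hΓ, sq]
    exact mul_le_mul (pow_le_pow_left₀ (Nat.cast_nonneg _) b1 4)
      (mul_le_mul b2 b3 (zero_le_one.trans b4) b6)
      (mul_nonneg (zero_le_one.trans b5) (zero_le_one.trans b4)) (pow_pos hu 4).le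
  obtain ⟨M1, γ1, a1, a2, a3, a4, -⟩ := hex z z hz1 le_rfl le_rfl
  obtain ⟨M2, γ2, b1, b2, b3, b4, b5⟩ := hex z Y hY1 hYz' le_rfl
  obtain ⟨M3, γ3, c1, c2, c3, c4, c5⟩ := hex Y Y hY1 le_rfl hYz'
  have B1 := block g k l (x - y) y a1 a2 1 {1} (by simp)
  have B2 := block g k l (x - y) y b1 b2 1 {1} (by simp)
  have B3 := block g k l (x - y) y c1 c2 1 {1} (by simp)
  have B4 := block g k l (x - y) y b1 b2 1 PP fun m hm p hp => by simpa using b5 m hm p hp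
  have B5 := block g k l (x - y) y c1 c2 1 PP fun m hm p hp => by simpa using c5 m hm p hp
  have B6 := fun q (hq : q ∈ PP) => block g k l (x - y) y c1 c2 q (PP.erase q) fun m hm p hp =>
    ⟨(c5 m hm q hq).symm, Nat.Coprime.mul_left ((Nat.coprime_primes (hpr q hq)
      (hpr p (Finset.mem_of_mem_erase hp))).2 (Finset.ne_of_mem_erase hp).symm)
      (c5 m hm p (Finset.mem_of_mem_erase hp))⟩
  have h1 : ∀ p ∈ ({1} : Finset ℕ), p ≠ 0 ∧ (p : ℝ) ≤ 1 ∧ Nat.Coprime p k := by simp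
  have hPP' : ∀ p ∈ PP, p ≠ 0 ∧ (p : ℝ) ≤ P * B ∧ Nat.Coprime p k := fun p hp =>
    ⟨(hpr p hp).ne_zero, (hPP p hp).2⟩
  have htr : ∀ w : ℝ, 0 ≤ w → w ≤ z * z →
      Γ * (4 * C * (1 : ℕ) / T) * w ^ 2 ≤ Γ * (4 * C / b ^ 2 * T) := by
    intro w h0 h
    calc _ ≤ Γ * (4 * C * (1 : ℕ) / T) * (T / b) ^ 2 :=
          mul_le_mul_of_nonneg_left (pow_le_pow_left₀ h0 (h.trans hzb) 2) (mul_nonneg hΓ0.le
            (div_nonneg (mul_nonneg (by linarith only [hC]) (Nat.cast_nonneg _)) hT0.le))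
      _ = _ := by push_cast; field_simp
  have hYY : Y * Y ≤ z * z := by gcongr
  have hzY : z * Y ≤ z * z := by gcongr
  have E1 := (rem_sum_triv hg k l (x - y) hy one_ne_zero (Nat.coprime_one_left k) M1 {1} γ1 hΓ0.le
    a3 (by positivity) zero_le_one a4 h1).trans (htr _ (by positivity) (by linarith))
  have E2 := (rem_sum_triv hg k l (x - y) hy one_ne_zero (Nat.coprime_one_left k) M2 {1} γ2 hΓ0.le
    b3 (by positivity) zero_le_one b4 h1).trans (htr _ (by positivity) (by linarith))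
  have E3 := (rem_sum_triv hg k l (x - y) hy one_ne_zero (Nat.coprime_one_left k) M3 {1} γ3 hΓ0.le
    c3 (by positivity) zero_le_one c4 h1).trans (htr _ (by positivity) (by linarith))
  have E5 := (rem_sum_triv hg k l (x - y) hy one_ne_zero (Nat.coprime_one_left k) M3 PP γ3 hΓ0.le
    c3 (by positivity) (by positivity) c4 hPP').trans (htr _ (by positivity) (by
      have : Y * Y * (P * B) * P ≤ z * z * P := by
        calc Y * Y * (P * B) * P = (Y * P) ^ 2 * B := by ring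
          _ = z * z * B ^ 3 := by rw [hYz]; ring
          _ ≤ _ := by gcongr
      exact le_of_mul_le_mul_right this hP0))
  have hzT : z * z ≤ T := hzb.trans (div_le_self hT0.le hb)
  have E4 := rem_sum hg k hl hy hyx hK one_ne_zero (Nat.coprime_one_left k) M2 PP γ2 hΓ0 b3 b4 hPP
    hD' hZ1 ((pow_le_pow_left₀ (by positivity) hzY _).trans hZ2) hB hr hs hsx
    (one_le_mul_of_one_le_of_one_le hz1 hY1)
    (hM2.trans (pow_le_pow_left₀ (by positivity) (by gcongr) _))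
    (by rw [Nat.cast_one, one_mul, mul_assoc, hYz, ← mul_assoc]; exact hzB)
    (by
      calc ((1 : ℕ) : ℝ) * (z * Y) * (P * B) = z * (Y * P) * B := by push_cast; ring
        _ = z * z * B ^ 2 := by rw [hYz]; ring
        _ ≤ T * B ^ 4 := by gcongr; norm_num)
  have E6 : ∀ q ∈ PP, |∑ m ∈ M3, ∑ p ∈ PP.erase q, γ3 m * rem g k l (x - y) y (q * m * p)| ≤
      Γ * (6 * C + 8) * T / B * (q : ℝ)⁻¹ := fun q hq =>
    (rem_sum hg k hl hy hyx hK (hpr q hq).ne_zero (hPP q hq).2.2 M3 (PP.erase q) γ3 hΓ0 c3 c4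
      (fun p hp => hPP p (Finset.mem_of_mem_erase hp)) hD' hZ1
      ((pow_le_pow_left₀ (by positivity) hYY _).trans hZ2) hB hr hs hsx
      (one_le_mul_of_one_le_of_one_le hY1 hY1) hM2
      (by
        have := (hPP q hq).1
        calc T ≤ z * z * B := hzB
          _ ≤ z * z * B ^ 2 := by gcongr; exact le_self_pow₀ hB1 two_ne_zero
          _ = (Y * P) ^ 2 := by rw [hYz]; ring
          _ = P * (Y * Y) * P := by ring
          _ ≤ q * (Y * Y) * P := by gcongr)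
      (by
        have := (hPP q hq).2.1
        calc q * (Y * Y) * (P * B) ≤ P * B * (Y * Y) * (P * B) := by gcongr
          _ = (Y * P) ^ 2 * B ^ 2 := by ring
          _ = z * z * B ^ 4 := by rw [hYz]; ring
          _ ≤ T * B ^ 4 := by gcongr)).trans (le_of_eq (by ring))
  have hI : 0 ≤ (∫ v, g v) * T := mul_nonneg (MeasureTheory.integral_nonneg hg.nonneg) hT0.le
  set I := (∫ v, g v) * T with hIdef
  have S6 : ∑ q ∈ PP, ∑ n ∈ win k l (x - y) y, g ((n - (x - y)) / y) *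
      (UU W Y n * UU W Y n * (dv q n * ∑ p ∈ PP.erase q, dv p n)) ≤
      I * (G₁ * σ) * σ + Γ * (6 * C + 8) * T / B * σ := by
    rw [← add_mul]
    conv_rhs => rw [← hσ, Finset.mul_sum]
    refine Finset.sum_le_sum fun q hq => ?_
    rw [B6 q hq, add_mul, hσ]
    refine add_le_add ?_ ((le_abs_self _).trans (E6 q hq))
    have : ∑ p ∈ PP.erase q, (p : ℝ)⁻¹ ≤ σ := hσ ▸ Finset.sum_le_sum_of_subset_of_nonneg
      (Finset.erase_subset _ _) fun _ _ _ => inv_nonneg.2 (Nat.cast_nonneg _)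
    calc I * (G₁ * ((q : ℝ)⁻¹ * ∑ p ∈ PP.erase q, (p : ℝ)⁻¹)) ≤ I * (G₁ * ((q : ℝ)⁻¹ * σ)) :=
          mul_le_mul_of_nonneg_left (mul_le_mul_of_nonneg_left (mul_le_mul_of_nonneg_left this
            (inv_nonneg.2 (Nat.cast_nonneg _))) (zero_le_one.trans hG1)) hI
      _ = _ := by ring
  rw [expand_sum, B1, B2, B3, B4, B5]
  simp only [Finset.sum_singleton, Nat.cast_one, inv_one, one_mul, mul_one, hσ] at E1 E2 E3 E4 E5 ⊢
  refine (final_num hσ0 hσ1 E1 E2 E3 E4 E5 S6).trans (le_of_eq ?_)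
  rw [hΓ]; ring

end Pool.Agent.P.MP_26a8c3_nt.Hyb
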