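import Pool.Agent.P.MP_26a8c3_nt.Hyb7

/-! Counting primes by the weights, the size of the normalising sum, and the auxiliary primes. -/

namespace Pool.Agent.P.MP_26a8c3_nt.Hyb

open Finset

lemma count_le {g : ℝ → ℝ} (hg0 : ∀ v, 0 ≤ g v) (hg1 : ∀ v, 0 ≤ v → v ≤ 1 → g v = 1) (k : ℕ)
    (l : ℤ) {x y z G : ℝ} (hy : 0 < y) (hz : 0 ≤ z) (hG : 0 < G) (F : ℤ → ℝ)
    (hF : ∀ p : ℕ, p.Prime → z < p → F p = G) :
    (({p : ℕ | p.Prime ∧ x - y < (p : ℝ) ∧ (p : ℝ) ≤ x ∧ (p : ℤ) ≡ l [ZMOD (k : ℤ)]}.ncard : ℕ) : ℝ)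
      ≤ z + (∑ n ∈ win k l (x - y) y, g ((n - (x - y)) / y) * F n ^ 2) / G ^ 2 := by
  classical
  set S := (range (⌊x⌋₊ + 1)).filter fun p : ℕ =>
    p.Prime ∧ x - y < (p : ℝ) ∧ (p : ℝ) ≤ x ∧ (p : ℤ) ≡ l [ZMOD (k : ℤ)] with hS
  have e : {p : ℕ | p.Prime ∧ x - y < (p : ℝ) ∧ (p : ℝ) ≤ x ∧ (p : ℤ) ≡ l [ZMOD (k : ℤ)]} = ↑S := by
    ext p
    simp only [hS, Finset.coe_filter, Set.mem_ofPred_eq, Finset.mem_range]
    exact ⟨fun h => ⟨Nat.lt_succ_of_le (Nat.le_floor h.2.2.1), h⟩, fun h => h.2⟩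
  rw [e, Set.ncard_coe_finset, ← Finset.card_filter_add_card_filter_not fun p : ℕ => (p : ℝ) ≤ z,
    Nat.cast_add]
  refine add_le_add (card_le_of_le _ hz fun p hp => ⟨(Finset.mem_filter.1
    (Finset.mem_filter.1 hp).1).2.1.ne_zero, (Finset.mem_filter.1 hp).2⟩) ?_
  rw [le_div_iff₀ (by positivity)]
  set S' := S.filter fun p : ℕ => ¬ (p : ℝ) ≤ z with hS'
  have h1 : (S'.card : ℝ) * G ^ 2 =
      ∑ n ∈ S'.image (Nat.cast : ℕ → ℤ), g ((n - (x - y)) / y) * F n ^ 2 := by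
    rw [Finset.sum_image fun a _ b _ h => Nat.cast_injective h, ← nsmul_eq_mul, ← Finset.sum_const]
    refine Finset.sum_congr rfl fun p hp => ?_
    obtain ⟨a, b⟩ := Finset.mem_filter.1 hp
    obtain ⟨c1, c2, c3, -⟩ := (Finset.mem_filter.1 a).2
    rw [hF p c1 (not_le.1 b), hg1, one_mul]
    · exact div_nonneg (by push_cast; linarith) hy.le
    · rw [div_le_one hy]; push_cast; linarith
  rw [h1]
  refine Finset.sum_le_sum_of_subset_of_nonneg (fun n hn => ?_)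
    fun n _ _ => mul_nonneg (hg0 _) (sq_nonneg _)
  obtain ⟨p, hp, rfl⟩ := Finset.mem_image.1 hn
  obtain ⟨-, c2, c3, c4⟩ := (Finset.mem_filter.1 (Finset.mem_filter.1 hp).1).2
  exact Finset.mem_filter.2 ⟨Finset.mem_Icc.2 ⟨Int.floor_le_iff.2 (by push_cast; linarith),
    Int.le_ceil_iff.2 (by push_cast; linarith)⟩, (ZMod.intCast_eq_intCast_iff _ _ _).2 c4⟩

lemma sum_inv_factored {U : Finset ℕ} (hU : ∀ p ∈ U, p.Prime) (A : Finset ℕ)
    (hA : ∀ n ∈ A, n ∈ Nat.factoredNumbers U) :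
    ∑ n ∈ A, (n : ℝ)⁻¹ ≤ ∏ p ∈ U, (1 - (p : ℝ)⁻¹)⁻¹ := by
  let f : ℕ →* ℝ := ⟨⟨fun n => (n : ℝ)⁻¹, by simp⟩, fun a b => by push_cast; rw [mul_inv]⟩
  have hf : ∀ {p : ℕ}, p.Prime → ‖f p‖ < 1 := by
    intro p hp
    have : (1 : ℝ) < p := by exact_mod_cast hp.one_lt
    change ‖(p : ℝ)⁻¹‖ < 1
    rw [Real.norm_eq_abs, abs_of_nonneg (by positivity)]
    exact inv_lt_one_of_one_lt₀ this
  have h := (EulerProduct.summable_and_hasSum_factoredNumbers_prod_filter_prime_geometric hf U).2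
  rw [Finset.filter_true_of_mem hU] at h
  have h2 := sum_le_hasSum (A.subtype (· ∈ Nat.factoredNumbers U))
    (fun i _ => (by change (0 : ℝ) ≤ ((i : ℕ) : ℝ)⁻¹; positivity)) h
  refine le_trans (le_of_eq ?_) h2
  exact (Finset.sum_subtype_of_mem (fun n : ℕ => (n : ℝ)⁻¹) hA).symm

lemma sum_inv_dvd {d : ℕ} (A : Finset ℕ) (hA : ∀ n ∈ A, d ∣ n) :
    ∑ n ∈ A, (n : ℝ)⁻¹ = (d : ℝ)⁻¹ * ∑ n ∈ A.image fun n => n / d, (n : ℝ)⁻¹ := by
  have hinj : Set.InjOn (fun n => n / d) (A : Set ℕ) := by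
    intro a ha b hb h
    rw [← Nat.div_mul_cancel (hA a ha), ← Nat.div_mul_cancel (hA b hb)]
    exact congrArg (· * d) h
  rw [Finset.sum_image hinj, Finset.mul_sum]
  refine Finset.sum_congr rfl fun n hn => ?_
  rw [← mul_inv, ← Nat.cast_mul, Nat.mul_div_cancel' (hA n hn)]

lemma sum_inv_fiber {U V : Finset ℕ} (hU : ∀ p ∈ U, p.Prime) (hV : ∀ p ∈ V, p.Prime)
    (hUV : Disjoint U V) (A : Finset ℕ)
    (hA : ∀ n ∈ A, n ≠ 0 ∧ dd U ∣ n ∧ n.primeFactors ⊆ U ∪ V) :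
    ∑ n ∈ A, (n : ℝ)⁻¹ ≤ gg U * ∏ p ∈ V, (1 - (p : ℝ)⁻¹)⁻¹ := by
  have h1 := sum_inv_factored (Finset.forall_mem_union.2 ⟨hU, hV⟩) (A.image fun n => n / dd U) (by
    intro m hm
    obtain ⟨n, hn, rfl⟩ := Finset.mem_image.1 hm
    refine Nat.mem_factoredNumbers_of_dvd (m := n) ?_ (Nat.div_dvd_of_dvd (hA n hn).2.1)
    exact Nat.mem_factoredNumbers_of_primeFactors_subset (hA n hn).1 (hA n hn).2.2)
  rw [sum_inv_dvd A fun n hn => (hA n hn).2.1]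
  refine (mul_le_mul_of_nonneg_left h1 (by positivity)).trans (le_of_eq ?_)
  rw [Finset.prod_union hUV, ← mul_assoc, dd, gg, Nat.cast_prod, ← Finset.prod_inv_distrib,
    ← Finset.prod_mul_distrib]
  congr 1
  refine Finset.prod_congr rfl fun p hp => ?_
  have : (1 : ℝ) < p := by exact_mod_cast (hU p hp).one_lt
  have h3 : (p : ℝ) - 1 ≠ 0 := by linarith
  field_simp

lemma GG_ge {k : ℕ} (hk : k ≠ 0) (PP : Finset ℕ) (hpr : ∀ p ∈ PP, p.Prime) {z w : ℝ} (hz : 0 ≤ z)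
    (hw : 1 ≤ w) (hzw : ∀ p ∈ PP, z / p ≤ w) :
    (k.totient : ℝ) / k * (Real.log z - (∑ p ∈ PP, (p : ℝ)⁻¹) * (1 + Real.log w)) ≤
      GG (k * dd PP) z := by
  classical
  set A := (Finset.Icc 1 ⌊z⌋₊).filter fun n => ∀ p ∈ PP, ¬ p ∣ n with hA
  have hφ : (0 : ℝ) < k.totient := by exact_mod_cast Nat.totient_pos.2 (Nat.pos_of_ne_zero hk)
  have hk' : (0 : ℝ) < k := by exact_mod_cast Nat.pos_of_ne_zero hk
  have e : ∏ p ∈ k.primeFactors, (1 - (p : ℝ)⁻¹)⁻¹ = k / k.totient := by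
    have := congrArg (Rat.cast : ℚ → ℝ) (Nat.totient_eq_mul_prod_factors k)
    push_cast at this
    rw [Finset.prod_inv_distrib, this]
    field_simp
  have h1 : ∑ n ∈ A, (n : ℝ)⁻¹ ≤ GG (k * dd PP) z * (k / k.totient) := by
    have hmap : ∀ n ∈ A, n.primeFactors \ k.primeFactors ∈ LL (k * dd PP) z := by
      intro n hn
      obtain ⟨a, b⟩ := Finset.mem_filter.1 hn
      obtain ⟨a1, a2⟩ := Finset.mem_Icc.1 a
      refine mem_LL.2 ⟨fun p hp => ?_, ?_⟩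
      · obtain ⟨c, d⟩ := Finset.mem_sdiff.1 hp
        have hp' := Nat.prime_of_mem_primeFactors c
        refine ⟨hp', Nat.Coprime.mul_right ((Nat.Prime.coprime_iff_not_dvd hp').2 fun h =>
          d (Nat.mem_primeFactors.2 ⟨hp', h, hk⟩)) (Nat.Coprime.prod_right fun q hq => ?_)⟩
        refine (Nat.coprime_primes hp' (hpr q hq)).2 fun h => b q hq ?_
        exact h ▸ Nat.dvd_of_mem_primeFactors c
      · have : dd (n.primeFactors \ k.primeFactors) ≤ n := Nat.le_of_dvd a1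
          ((Finset.prod_dvd_prod_of_subset _ _ _ Finset.sdiff_subset).trans
            (Nat.prod_primeFactors_dvd n))
        exact (Nat.cast_le.2 (this.trans a2)).trans (Nat.floor_le hz)
    rw [← Finset.sum_fiberwise_of_maps_to hmap, GG, Finset.sum_mul, ← e]
    refine Finset.sum_le_sum fun U hU => ?_
    refine sum_inv_fiber (fun p hp => ((mem_LL.1 hU).1 p hp).1)
      (fun p hp => Nat.prime_of_mem_primeFactors hp) (Finset.disjoint_left.2 fun p hp hp' => ?_) _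
      fun n hn => ?_
    · obtain ⟨a, b⟩ := (mem_LL.1 hU).1 p hp
      exact (Nat.Prime.coprime_iff_not_dvd a).1 b ((Nat.dvd_of_mem_primeFactors hp').mul_right _)
    · obtain ⟨a, rfl⟩ := Finset.mem_filter.1 hn
      exact ⟨Nat.one_le_iff_ne_zero.1 (Finset.mem_Icc.1 (Finset.mem_filter.1 a).1).1,
        (Finset.prod_dvd_prod_of_subset _ _ _ Finset.sdiff_subset).trans
          (Nat.prod_primeFactors_dvd n), Finset.subset_union_left.trans
            (Finset.sdiff_union_self_eq_union).superset⟩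
  have h2 : Real.log z ≤ ∑ n ∈ Finset.Icc 1 ⌊z⌋₊, (n : ℝ)⁻¹ := by
    simpa [harmonic_eq_sum_Icc] using log_le_harmonic_floor z hz
  have h3 : ∑ n ∈ Finset.Icc 1 ⌊w⌋₊, (n : ℝ)⁻¹ ≤ 1 + Real.log w := by
    simpa [harmonic_eq_sum_Icc] using harmonic_floor_le_one_add_log w hw
  have h4 : ∑ n ∈ Finset.Icc 1 ⌊z⌋₊, (n : ℝ)⁻¹ ≤ ∑ n ∈ A, (n : ℝ)⁻¹ +
      ∑ p ∈ PP, ∑ n ∈ (Finset.Icc 1 ⌊z⌋₊).filter (p ∣ ·), (n : ℝ)⁻¹ := by
    simp only [hA, Finset.sum_filter]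
    rw [Finset.sum_comm (s := PP), ← Finset.sum_add_distrib]
    refine Finset.sum_le_sum fun n _ => ?_
    have h0 : ∀ p ∈ PP, 0 ≤ if p ∣ n then (n : ℝ)⁻¹ else 0 := fun p _ => by
      split_ifs <;> positivity
    split_ifs with h
    · linarith [Finset.sum_nonneg h0]
    · push Not at h
      obtain ⟨p, hp, hd⟩ := h
      have := Finset.single_le_sum h0 hp
      rw [if_pos hd] at this
      linarith
  have h5 : ∀ p ∈ PP, ∑ n ∈ (Finset.Icc 1 ⌊z⌋₊).filter (p ∣ ·), (n : ℝ)⁻¹ ≤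
      (p : ℝ)⁻¹ * (1 + Real.log w) := by
    intro p hp
    rw [sum_inv_dvd _ fun n hn => (Finset.mem_filter.1 hn).2]
    refine mul_le_mul_of_nonneg_left (le_trans (Finset.sum_le_sum_of_subset_of_nonneg
      (fun m hm => ?_) fun _ _ _ => by positivity) h3) (by positivity)
    obtain ⟨n, hn, rfl⟩ := Finset.mem_image.1 hm
    obtain ⟨a, b⟩ := Finset.mem_filter.1 hn
    obtain ⟨a1, a2⟩ := Finset.mem_Icc.1 a
    refine Finset.mem_Icc.2 ⟨Nat.div_pos (Nat.le_of_dvd a1 b) (hpr p hp).pos,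
      Nat.le_floor (Nat.cast_div_le.trans (le_trans ?_ (hzw p hp)))⟩
    exact div_le_div_of_nonneg_right ((Nat.cast_le.2 a2).trans (Nat.floor_le hz)) (by positivity)
  have h6 := Finset.sum_le_sum h5
  rw [← Finset.sum_mul] at h6
  calc _ ≤ (k.totient : ℝ) / k * (GG (k * dd PP) z * (k / k.totient)) :=
        mul_le_mul_of_nonneg_left (by linarith) (by positivity)
    _ = _ := by field_simp

lemma theta_block {u : ℝ} (hu : 320000 ≤ u) : 2 * u ≤ Chebyshev.theta (8 * u) - Chebyshev.theta u := by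
  have h1 := Chebyshev.theta_ge' (x := 8 * u) (by linarith)
  have h2 := Chebyshev.theta_le_log4_mul_x (x := u) (by linarith)
  set t := √√(8 * u) with ht
  have t0 : 0 ≤ t := Real.sqrt_nonneg _
  have t2 : t ^ 2 = √(8 * u) := Real.sq_sqrt (Real.sqrt_nonneg _)
  have t4 : t ^ 4 = 8 * u := by
    rw [show t ^ 4 = (t ^ 2) ^ 2 by ring, t2, Real.sq_sqrt (by linarith)]
  have t40 : 40 ≤ t := le_of_pow_le_pow_left₀ (n := 4) (by norm_num) t0 (by rw [t4]; linarith)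
  have l1 : Real.log (8 * u) ≤ 4 * t := by
    rw [← t4, Real.log_pow]
    have := Real.log_le_sub_one_of_pos (show 0 < t by linarith)
    push_cast; linarith
  have l2 : Real.log (8 * u + 2) ≤ 1 + 4 * t := by
    have a : Real.log (8 * u + 2) ≤ Real.log (2 * (8 * u)) :=
      Real.log_le_log (by linarith) (by linarith)
    rw [Real.log_mul (by norm_num) (by linarith)] at a
    linarith [Real.log_two_lt_d9]
  have l4 : Real.log 4 = 2 * Real.log 2 := by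
    rw [show (4 : ℝ) = 2 ^ 2 by norm_num, Real.log_pow]; norm_num
  have l5 : 2 * √(8 * u) * Real.log (8 * u) ≤ 8 * t ^ 3 := by
    rw [← t2]
    calc 2 * t ^ 2 * Real.log (8 * u) ≤ 2 * t ^ 2 * (4 * t) := by gcongr
      _ = _ := by ring
  have l6 : 40 * t ^ 3 ≤ 8 * u := by
    rw [← t4, pow_succ' t 3]; gcongr
  have l7 : 1600 * t ≤ t ^ 3 := by nlinarith
  have := Real.log_two_gt_d9
  have := Real.log_two_lt_d9
  rw [l4] at h2
  nlinarith

lemma sum_block {P L : ℝ} (hP : 320000 ≤ P) (J : ℕ) (hL : Real.log (P * 8 ^ J) ≤ L) :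
    J / (4 * L) ≤ ∑ p ∈ (Finset.Ioc ⌊P⌋₊ ⌊P * 8 ^ J⌋₊).filter Nat.Prime, (p : ℝ)⁻¹ := by
  induction J with
  | zero => simp
  | succ J ih =>
    have h8 : (1 : ℝ) ≤ 8 ^ J := one_le_pow₀ (by norm_num)
    set u := P * 8 ^ J with hu
    have hu1 : P ≤ u := le_mul_of_one_le_right (by linarith) h8
    have e : P * 8 ^ (J + 1) = 8 * u := by rw [hu]; ring
    rw [e] at hL ⊢
    have hL0 : 0 < L := (Real.log_pos (by linarith)).trans_le hL
    have ih' := ih ((Real.log_le_log (by linarith) (by linarith)).trans hL)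
    have a1 : ⌊P⌋₊ ≤ ⌊u⌋₊ := Nat.floor_le_floor hu1
    have a2 : ⌊u⌋₊ ≤ ⌊8 * u⌋₊ := Nat.floor_le_floor (by linarith)
    have h1 := theta_block (hP.trans hu1)
    rw [Chebyshev.theta, Chebyshev.theta, Finset.sum_filter, Finset.sum_filter,
      ← Finset.sum_Ioc_consecutive _ (Nat.zero_le _) a2, add_sub_cancel_left] at h1
    rw [Finset.sum_filter, ← Finset.sum_Ioc_consecutive _ a1 a2, ← Finset.sum_filter]
    have h2 : ∑ p ∈ Finset.Ioc ⌊u⌋₊ ⌊8 * u⌋₊, (if p.Prime then Real.log p else 0) ≤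
        8 * u * L * ∑ p ∈ Finset.Ioc ⌊u⌋₊ ⌊8 * u⌋₊, (if p.Prime then (p : ℝ)⁻¹ else 0) := by
      rw [Finset.mul_sum]
      refine Finset.sum_le_sum fun p hp => ?_
      split_ifs with h
      · have b1 : (p : ℝ) ≤ 8 * u :=
          (Nat.cast_le.2 (Finset.mem_Ioc.1 hp).2).trans (Nat.floor_le (by linarith))
        have b2 : (0 : ℝ) < p := by exact_mod_cast h.pos
        have b3 := (Real.log_le_log b2 b1).trans hL
        rw [← div_eq_mul_inv, le_div_iff₀ b2, mul_comm]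
        exact mul_le_mul b1 b3 (Real.log_natCast_nonneg p) (by linarith)
      · simp
    have h3 : 1 / (4 * L) ≤ ∑ p ∈ Finset.Ioc ⌊u⌋₊ ⌊8 * u⌋₊, (if p.Prime then (p : ℝ)⁻¹ else 0) := by
      rw [div_le_iff₀ (by positivity)]
      refine le_of_mul_le_mul_left (a := 2 * u) ?_ (by linarith)
      linarith
    push_cast
    rw [add_div]
    exact add_le_add ih' h3

lemma greedy {ι : Type*} (S : Finset ι) (f : ι → ℝ) {a : ℝ} (ha : 0 ≤ a) (hf : ∀ i ∈ S, f i ≤ a)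
    (hS : a ≤ ∑ i ∈ S, f i) : ∃ S' ⊆ S, a ≤ ∑ i ∈ S', f i ∧ ∑ i ∈ S', f i ≤ 2 * a := by
  classical
  induction S using Finset.induction_on with
  | empty => exact ⟨∅, subset_rfl, hS, by simpa using ha⟩
  | insert i S hi ih =>
    by_cases h : a ≤ ∑ i ∈ S, f i
    · obtain ⟨S', h1, h2⟩ := ih (fun j hj => hf j (Finset.mem_insert_of_mem hj)) h
      exact ⟨S', h1.trans (Finset.subset_insert _ _), h2⟩
    · refine ⟨_, subset_rfl, hS, ?_⟩
      rw [Finset.sum_insert hi]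
      linarith [hf i (Finset.mem_insert_self _ _), not_le.1 h]

lemma exists_primes {P B L a : ℝ} (hP : 320000 ≤ P) {J N k : ℕ} (hJ : 8 ^ J ≤ B)
    (hL : Real.log (P * B) ≤ L) (hk : k ≠ 0) (hkP : (k : ℝ) ≤ P ^ N) (ha : P⁻¹ ≤ a)
    (h : a + N / P ≤ J / (4 * L)) : ∃ PP : Finset ℕ, (∀ p ∈ PP, p.Prime) ∧
      (∀ p ∈ PP, P ≤ p ∧ (p : ℝ) ≤ P * B ∧ Nat.Coprime p k) ∧
      a ≤ ∑ p ∈ PP, (p : ℝ)⁻¹ ∧ ∑ p ∈ PP, (p : ℝ)⁻¹ ≤ 2 * a := by
  have hP0 : 0 < P := by linarith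
  have hB : P * 8 ^ J ≤ P * B := by gcongr
  have h1 := sum_block hP J ((Real.log_le_log (by positivity) hB).trans hL)
  set S := (Finset.Ioc ⌊P⌋₊ ⌊P * 8 ^ J⌋₊).filter Nat.Prime with hS
  have hS1 : ∀ p ∈ S, p.Prime ∧ P ≤ p ∧ (p : ℝ) ≤ P * B := fun p hp => by
    obtain ⟨a1, a2⟩ := Finset.mem_filter.1 hp
    obtain ⟨b1, b2⟩ := Finset.mem_Ioc.1 a1
    exact ⟨a2, ((Nat.floor_lt hP0.le).1 b1).le,
      ((Nat.cast_le.2 b2).trans (Nat.floor_le (by positivity))).trans hB⟩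
  have h2 : (S.filter (· ∣ k)).card ≤ N := by
    have b1 : dd (S.filter (· ∣ k)) ∣ k := Finset.prod_primes_dvd _
      (fun p hp => (hS1 p (Finset.mem_filter.1 hp).1).1.prime) fun p hp => (Finset.mem_filter.1 hp).2
    have b2 : P ^ (S.filter (· ∣ k)).card ≤ dd (S.filter (· ∣ k)) := by
      rw [dd, Nat.cast_prod, ← Finset.prod_const]
      exact Finset.prod_le_prod (fun _ _ => hP0.le) fun p hp => (hS1 p (Finset.mem_filter.1 hp).1).2.1
    exact (pow_le_pow_iff_right₀ (by linarith)).1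
      ((b2.trans (Nat.cast_le.2 (Nat.le_of_dvd (Nat.pos_of_ne_zero hk) b1))).trans hkP)
  have h3 : ∑ p ∈ S.filter (· ∣ k), (p : ℝ)⁻¹ ≤ N / P := by
    refine (Finset.sum_le_card_nsmul _ _ P⁻¹ fun p hp =>
      inv_anti₀ hP0 (hS1 p (Finset.mem_filter.1 hp).1).2.1).trans ?_
    rw [nsmul_eq_mul, div_eq_mul_inv]
    gcongr
  rw [← Finset.sum_filter_add_sum_filter_not S (· ∣ k)] at h1
  obtain ⟨PP, c1, c2⟩ := greedy (S.filter fun p => ¬ p ∣ k) (fun p => (p : ℝ)⁻¹)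
    (le_trans (by positivity) ha)
    (fun p hp => (inv_anti₀ hP0 (hS1 p (Finset.mem_filter.1 hp).1).2.1).trans ha) (by linarith)
  refine ⟨PP, fun p hp => (hS1 p (Finset.mem_filter.1 (c1 hp)).1).1, fun p hp => ?_, c2⟩
  obtain ⟨d1, d2, d3⟩ := hS1 p (Finset.mem_filter.1 (c1 hp)).1
  exact ⟨d2, d3, (Nat.Prime.coprime_iff_not_dvd d1).2 (Finset.mem_filter.1 (c1 hp)).2⟩

end Pool.Agent.P.MP_26a8c3_nt.Hyb
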