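import Pool.Agent.P.MP_26a8c3_nt.Hyb8

/-! Choice of the parameters. -/

namespace Pool.Agent.P.MP_26a8c3_nt.Hyb

open Finset

lemma G_num {n σ L lz lY lP c G₀ G₁ : ℝ} (hn : 1 ≤ n) (h1 : 1 / (4 * n) ≤ σ)
    (h2 : σ ≤ 2 * (1 / (4 * n))) (hL : 1 ≤ L) (hc : 0 ≤ c) (hz : lz = (48 * n ^ 2 - 6) * L)
    (hY : lY + lP = lz + 96 * n * L) (hYz : lY ≤ lz)
    (a : c * (lz - σ * (1 + (lz - lP))) ≤ G₀) (b : c * (lY - σ * (1 + lY)) ≤ G₁) :
    c * ((48 * n ^ 2 + 14) * L) ≤ G₀ + σ * G₁ := by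
  have hn0 : 0 < n := by linarith
  have t1 : 1 / 4 ≤ n * σ := by
    rw [div_le_iff₀ (by positivity)] at h1; linarith
  have t2 : n * σ ≤ 1 / 2 := by
    have : n * (2 * (1 / (4 * n))) = 1 / 2 := by field_simp; ring
    rw [← this]; gcongr
  have hσ : 0 ≤ σ := le_trans (by positivity) h1
  have t3 : σ ≤ 1 / 2 := (le_mul_of_one_le_left hσ hn).trans t2
  have t4 : σ ^ 2 * lY ≤ σ ^ 2 * (48 * n ^ 2 * L) :=
    mul_le_mul_of_nonneg_left (by nlinarith) (sq_nonneg _)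
  have t5 : 21 * L ≤ (96 * (n * σ) - 48 * (n * σ) ^ 2) * L :=
    mul_le_mul_of_nonneg_right (by nlinarith) (by linarith)
  have t6 : (48 * n ^ 2 + 14) * L ≤ (lz - σ * (1 + (lz - lP))) + σ * (lY - σ * (1 + lY)) := by
    have e : lP = lz + 96 * n * L - lY := by linarith
    rw [e, hz]; nlinarith
  have := mul_le_mul_of_nonneg_left b hσ
  linarith only [this, a, mul_le_mul_of_nonneg_left t6 hc]

lemma last_num {m L φ k T I G u E c : ℝ} (hm : 1 ≤ m) (hL : 0 < L) (hφ : 0 < φ) (hk : φ ≤ k)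
    (hT : 0 < T) (hI : I ≤ 1 + 1 / (32 * m)) (hG : φ / k * ((48 * m + 14) * L) ≤ G)
    (hc : 0 < c) (hLu : L ≤ u) (hu : c * (480 * m ^ 2) < u) (hE : E ≤ c * T / u ^ 2) :
    I * T / G + E < (2 - 1 / (5 * m)) * (k * T) / (φ * (96 * m * L)) := by
  have hk0 : 0 < k := hφ.trans_le hk
  have hm0 : 0 < m := by linarith
  have hu0 : 0 < u := hL.trans_le hLu
  have h1 : I * T / G ≤ (2 - 2 / (5 * m)) * (k * T) / (φ * (96 * m * L)) := by
    have a : (1 + 1 / (32 * m)) / (48 * m + 14) ≤ (2 - 2 / (5 * m)) / (96 * m) := by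
      rw [div_le_div_iff₀ (by positivity) (by positivity)]
      have e1 : (1 + 1 / (32 * m)) * (96 * m) = 96 * m + 3 := by field_simp; ring
      have e2 : (2 - 2 / (5 * m)) * (48 * m + 14) = 96 * m + 28 - 96 / 5 - 28 / 5 / m := by
        field_simp; ring
      have : 28 / 5 / m ≤ 28 / 5 := div_le_self (by norm_num) hm
      rw [e1, e2]; linarith
    calc I * T / G ≤ (1 + 1 / (32 * m)) * T / (φ / k * ((48 * m + 14) * L)) := by gcongr
      _ = (1 + 1 / (32 * m)) / (48 * m + 14) * (k * T / (φ * L)) := by field_simp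
      _ ≤ (2 - 2 / (5 * m)) / (96 * m) * (k * T / (φ * L)) := by gcongr
      _ = _ := by field_simp
  have h2 : E < 1 / (5 * m) * (k * T) / (φ * (96 * m * L)) := by
    calc E ≤ c * T / u ^ 2 := hE
      _ < c * T / (c * (480 * m ^ 2) * L) := by
        refine div_lt_div_of_pos_left (by positivity) (by positivity) ?_
        rw [sq u]
        exact mul_lt_mul hu hLu hL hu0.le
      _ = 1 / (5 * m) * (φ * T) / (φ * (96 * m * L)) := by field_simp; ring
      _ ≤ _ := by gcongr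
  have e : (2 - 1 / (5 * m)) * (k * T) / (φ * (96 * m * L)) =
      (2 - 2 / (5 * m)) * (k * T) / (φ * (96 * m * L)) +
        1 / (5 * m) * (k * T) / (φ * (96 * m * L)) := by ring
  linarith

theorem core {K n : ℕ} (hK : 1 ≤ K) (hn : 20 ≤ n) : ∃ u₀ : ℝ, ∀ (k : ℕ) (l : ℤ) (x y u r s : ℝ),
    1 ≤ k → y ≤ x → Int.gcd l (k : ℤ) = 1 → u₀ ≤ u → y / k = u ^ (96 * n ^ 2) →
    s * r ^ 4 = r ^ (16 * K) → s ^ 2 = x / (y / k) → (u ^ (96 * n)) ^ (30 * K ^ 2) ≤ r →
    r ^ 320 ≤ u ^ (96 * n ^ 2) →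
    (({p : ℕ | p.Prime ∧ x - y < (p : ℝ) ∧ (p : ℝ) ≤ x ∧ (p : ℤ) ≡ l [ZMOD (k : ℤ)]}.ncard : ℕ) : ℝ)
      < (2 - 1 / (5 * (n : ℝ) ^ 2)) * y / ((Nat.totient k : ℝ) * Real.log (y / (k : ℝ))) := by
  have hn' : (20 : ℝ) ≤ n := by exact_mod_cast hn
  have hK' : (1 : ℝ) ≤ K := by exact_mod_cast hK
  have hm : (1 : ℝ) ≤ (n : ℝ) ^ 2 := one_le_pow₀ (by linarith)
  obtain ⟨g, C, hg, hg1, hgI⟩ := exists_good (κ := 1 / (32 * (n : ℝ) ^ 2)) (by positivity)
    (by rw [div_le_one (by positivity)]; linarith)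
  obtain ⟨D, hD1, hD⟩ := div_bound (ε := ((96 * n ^ 2 * (3 * K) * 2 : ℕ) : ℝ)⁻¹) (by positivity)
  have hC := hg.pos
  refine ⟨D ^ 2 + 32 * K ^ 2 + 320000 + 6 * K * n + Real.exp 12 +
    (28 * C + 21) * (480 * ((n : ℝ) ^ 2) ^ 2), fun k l x y u r s hk hyx hl hu hT hs hsx hr hr2 => ?_⟩
  have p1 : 0 ≤ D ^ 2 := by positivity
  have p2 : (0 : ℝ) ≤ 32 * K ^ 2 := by positivity
  have p3 : (0 : ℝ) ≤ 6 * K * n := by positivity
  have p4 : 0 < Real.exp 12 := Real.exp_pos _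
  have p5 : 0 ≤ (28 * C + 21) * (480 * ((n : ℝ) ^ 2) ^ 2) := by positivity
  have hu1 : 1 ≤ u := by linarith
  have hu0 : 0 < u := by linarith
  have hk0 : k ≠ 0 := by omega
  have : NeZero k := ⟨hk0⟩
  have hk' : (0 : ℝ) < k := by exact_mod_cast hk
  have hn2 : n ≤ n ^ 2 := Nat.le_self_pow two_ne_zero n
  have hT0 : 0 < y / k := by rw [hT]; positivity
  have hy : 0 < y := by
    have := mul_pos hT0 hk'
    rwa [div_mul_cancel₀ _ hk'.ne'] at this
  have pw : ∀ {a c : ℕ}, a ≤ c → u ^ a ≤ u ^ c := fun h => pow_le_pow_right₀ hu1 h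
  set L := Real.log u with hL
  have hL12 : 12 ≤ L := (Real.le_log_iff_exp_le hu0).2 (by linarith)
  set B := u ^ (96 * n) with hB
  have huB : u ≤ B := le_self_pow₀ hu1 (by omega)
  have hB1 : 1 ≤ B := hu1.trans huB
  have hB0 : 0 < B := by linarith
  have hK2 : 1 ≤ K ^ 2 := Nat.one_le_pow _ _ hK
  have hBr : B ≤ r := (le_self_pow₀ hB1 (by omega)).trans hr
  have hr1 : 1 ≤ r := hB1.trans hBr
  set P := r ^ 16 with hP
  have hBP : B ≤ P := hBr.trans (le_self_pow₀ hr1 (by norm_num))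
  have hP0 : 0 < P := by linarith
  have hPB : (P * B) ^ 10 ≤ u ^ (96 * n ^ 2) := by
    refine le_trans ?_ hr2
    calc (P * B) ^ 10 ≤ (P * P) ^ 10 := by gcongr
      _ = r ^ 320 := by rw [hP]; ring
  have hPB2 : P * B ≤ u ^ (10 * n ^ 2) := by
    refine le_of_pow_le_pow_left₀ (n := 10) (by norm_num) (by positivity) (hPB.trans ?_)
    rw [← pow_mul]; exact pw (by omega)
  have hPPB : P ≤ P * B := le_mul_of_one_le_right hP0.le hB1
  obtain ⟨j, hj⟩ : ∃ j, 48 * n ^ 2 = j + 6 := ⟨48 * n ^ 2 - 6, by omega⟩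
  set z := u ^ j with hz
  have hz0 : 0 < z := by positivity
  have hPz : P * B ≤ z := hPB2.trans (pw (by omega))
  set Y := z * B / P with hY
  have hYP : Y * P = z * B := by rw [hY]; field_simp
  have hYz : Y ≤ z := by rw [hY, div_le_iff₀ hP0]; gcongr
  have hPY : P ≤ Y := by
    rw [hY, le_div_iff₀ hP0]
    calc P * P ≤ u ^ (10 * n ^ 2) * u ^ (10 * n ^ 2) := by gcongr <;> exact hPPB.trans hPB2
      _ ≤ z := by rw [← pow_add]; exact pw (by omega)
      _ ≤ z * B := le_mul_of_one_le_right hz0.le hB1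
  have hY1 : 1 ≤ Y := (hB1.trans hBP).trans hPY
  have hs0 : 0 < s := by
    have : 0 < s * r ^ 4 := by rw [hs]; positivity
    exact (mul_pos_iff_of_pos_right (by positivity)).1 this
  have hsP : s ≤ P ^ K := by
    rw [hP, ← pow_mul, ← hs]; exact le_mul_of_one_le_right hs0.le (one_le_pow₀ hr1)
  have hkP : (k : ℝ) ≤ P ^ (2 * K) := by
    have a : (k : ℝ) ≤ s ^ 2 := by
      rw [hsx, le_div_iff₀ hT0, mul_div_cancel₀ _ hk'.ne']; exact hyx
    rw [mul_comm, pow_mul]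
    exact a.trans (by gcongr)
  obtain ⟨PP, hpr, hPP, hσ1, hσ2⟩ := exists_primes (P := P) (B := B) (L := 96 * n ^ 2 * L / 10)
    (a := 1 / (4 * n)) (by linarith) (J := ⌊L / 3⌋₊ * (96 * n)) (N := 2 * K) (k := k) (by
      rw [pow_mul, hB]
      refine pow_le_pow_left₀ (by positivity) ?_ _
      have a : (⌊L / 3⌋₊ : ℝ) ≤ L / 3 := Nat.floor_le (by positivity)
      have b : (8 : ℝ) ≤ Real.exp 3 := by
        have := Real.add_one_le_exp 1
        rw [show (3 : ℝ) = (3 : ℕ) * 1 by norm_num, Real.exp_nat_mul]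
        calc (8 : ℝ) = 2 ^ 3 := by norm_num
          _ ≤ _ := by gcongr; linarith
      calc (8 : ℝ) ^ ⌊L / 3⌋₊ ≤ Real.exp 3 ^ ⌊L / 3⌋₊ := by gcongr
        _ = Real.exp (⌊L / 3⌋₊ * 3) := (Real.exp_nat_mul _ _).symm
        _ ≤ Real.exp L := by gcongr; linarith
        _ = u := Real.exp_log hu0) (by
      have := Real.log_le_log (by positivity) hPB
      rw [Real.log_pow, Real.log_pow] at this
      push_cast at this
      linarith) hk0 hkP (by
      rw [one_div]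
      exact inv_anti₀ (by positivity) (by
        have := mul_le_mul_of_nonneg_right hK' (Nat.cast_nonneg (α := ℝ) n)
        linarith only [this, hu, huB, hBP, p1, p2, p4, p5, hn'])) (by
      have a : L / 4 ≤ (⌊L / 3⌋₊ : ℝ) := by linarith [Nat.lt_floor_add_one (L / 3)]
      have b : ((2 * K : ℕ) : ℝ) / P ≤ 3 / (8 * n) := by
        rw [div_le_div_iff₀ hP0 (by positivity)]; push_cast; linarith
      calc _ ≤ 1 / (4 * (n : ℝ)) + 3 / (8 * n) := by linarith
        _ = L / 4 * (96 * n) / (4 * (96 * n ^ 2 * L / 10)) := by field_simp; ring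
        _ ≤ _ := by push_cast; gcongr)
  set σ := ∑ p ∈ PP, (p : ℝ)⁻¹ with hσ
  have hσ0 : 0 ≤ σ := Finset.sum_nonneg fun _ _ => by positivity
  have hσ3 : σ ≤ 1 / 2 := hσ2.trans (by
    rw [mul_one_div, div_le_div_iff₀ (by positivity) (by norm_num)]; linarith)
  have hlu : IsUnit (l : ZMod k) :=
    (ZMod.coe_int_isUnit_iff_isCoprime _ _).2 (Int.isCoprime_iff_gcd_eq_one.2 hl).symm
  have hzz : z * z * u ^ 12 = u ^ (96 * n ^ 2) := by
    rw [hz, ← pow_add, ← pow_add]; congr 1; omega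
  have hS := sieve_sum hg k hlu (Z := (u ^ (96 * n ^ 2)) ^ (3 * K)) (u := u) (b := u ^ 6) (z := z)
    (Y := Y) hy hyx hK PP hpr hPP rfl hσ3 (fun a ha h => (hD a ha).trans (by
      have a1 : (a : ℝ) ^ (((96 * n ^ 2 * (3 * K) * 2 : ℕ) : ℝ)⁻¹) ≤ √u := by
        rw [← Real.pow_rpow_inv_natCast (Real.sqrt_nonneg u)
          (show 96 * n ^ 2 * (3 * K) * 2 ≠ 0 by positivity)]
        refine Real.rpow_le_rpow (by positivity) ?_ (by positivity)
        rwa [mul_comm _ 2, pow_mul, Real.sq_sqrt hu0.le, pow_mul]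
      have a2 : D ≤ √u := Real.le_sqrt_of_sq_le (by linarith)
      calc _ ≤ √u * √u := by gcongr
        _ = u := Real.mul_self_sqrt hu0.le)) huB
    (pow_le_pow_left₀ (by positivity) (hPB2.trans (pw (by omega))) _)
    (pow_le_pow_left₀ (by positivity) (by rw [hz, ← pow_add]; exact pw (by omega)) _)
    (by linarith) hr hs hsx hY1 (hsP.trans (pow_le_pow_left₀ hP0.le
      (hPY.trans (le_mul_of_one_le_left (zero_le_one.trans hY1) hY1)) _)) hYP
    (one_le_pow₀ hu1) (by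
      rw [le_div_iff₀ (by positivity), hT, ← hzz]; gcongr; norm_num) (by
      rw [hT, ← hzz]; gcongr; exact pw (by omega))
  have hE0 : 0 ≤ u ^ 4 * (13 * C / (u ^ 6) ^ 2 + (15 * C + 20) / B) * (y / k) := by positivity
  set G₀ := GG (k * dd PP) z with hG₀
  set G₁ := GG (k * dd PP) Y with hG₁
  have hG1 : 1 ≤ G₁ := one_le_GG hY1
  have hG0 : 1 ≤ G₀ := one_le_GG (hY1.trans hYz)
  have hG2 : G₀ ≤ G₀ + σ * G₁ := le_add_of_nonneg_right (mul_nonneg hσ0 (zero_le_one.trans hG1))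
  have hGp : 0 < G₀ + σ * G₁ := by linarith
  have hcnt := count_le hg.nonneg hg1 k l (x := x) hy hz0.le hGp
    (fun m => UU (k * dd PP) z m + UU (k * dd PP) Y m * (σ - ∑ p ∈ PP, dv p m)) fun p hp hzp => by
      rw [UU_prime _ hp hzp, UU_prime _ hp (hYz.trans_lt hzp), Finset.sum_eq_zero, sub_zero,
        mul_comm σ]
      intro q hq
      rw [dv, if_neg]
      intro h
      have := (Nat.prime_dvd_prime_iff_eq (hpr q hq) hp).1 (Int.natCast_dvd_natCast.1 h)
      have h2 := (hPP q hq).2.1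
      rw [this] at h2
      linarith
  have hφ : (0 : ℝ) < k.totient := by exact_mod_cast Nat.totient_pos.2 hk
  have hGl := G_num (n := n) (lP := Real.log P) (G₀ := G₀) (G₁ := G₁) (by linarith) hσ1 hσ2 (by linarith : 1 ≤ L)
    (show (0 : ℝ) ≤ k.totient / k by positivity) (lz := Real.log z) (lY := Real.log Y)
    (by
      have : (48 : ℝ) * n ^ 2 = j + 6 := by exact_mod_cast hj
      rw [hz, Real.log_pow, this]; ring)
    (by
      rw [← Real.log_mul (by linarith) hP0.ne', hYP, Real.log_mul hz0.ne' hB0.ne', hB,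
        Real.log_pow u (96 * n)]
      push_cast; ring)
    (Real.log_le_log (by linarith) hYz)
    (by
      rw [← Real.log_div hz0.ne' hP0.ne']
      exact GG_ge hk0 PP hpr hz0.le ((one_le_div hP0).2 (hPPB.trans hPz))
        fun p hp => div_le_div_of_nonneg_left hz0.le hP0 (hPP p hp).1)
    (GG_ge hk0 PP hpr (by linarith) hY1 fun p hp =>
      div_le_self (by linarith) (by exact_mod_cast (hpr p hp).one_le))
  have hfin := last_num (E := z + u ^ 4 * (13 * C / (u ^ 6) ^ 2 + (15 * C + 20) / B) * (y / k))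
    hm (by linarith : 0 < L) hφ (by exact_mod_cast Nat.totient_le k) hT0 hgI hGl
    (show 0 < 28 * C + 21 by positivity)
    ((Real.log_le_sub_one_of_pos hu0).trans (by linarith) : L ≤ u) (by linarith) (by
      have a1 : z ≤ y / k / u ^ 2 := by
        rw [le_div_iff₀ (by positivity), hT, hz, ← pow_add]; exact pw (by omega)
      have a2 : u ^ 4 * (13 * C / (u ^ 6) ^ 2 + (15 * C + 20) / B) ≤ (28 * C + 20) / u ^ 2 := by
        have b1 : u ^ 6 ≤ (u ^ 6) ^ 2 := le_self_pow₀ (one_le_pow₀ hu1) two_ne_zero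
        have b2 : u ^ 6 ≤ B := pw (by omega)
        calc _ ≤ u ^ 4 * (13 * C / u ^ 6 + (15 * C + 20) / u ^ 6) := by gcongr
          _ = _ := by field_simp; ring
      calc _ ≤ y / k / u ^ 2 + (28 * C + 20) / u ^ 2 * (y / k) := by gcongr
        _ = _ := by ring)
  rw [mul_div_cancel₀ _ hk'.ne'] at hfin
  have eL : Real.log (y / k) = 96 * (n : ℝ) ^ 2 * L := by rw [hT, Real.log_pow]; push_cast; ring
  rw [eL]
  refine lt_of_le_of_lt (hcnt.trans ?_) hfin
  rw [add_left_comm]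
  refine add_le_add_right ?_ _
  rw [div_le_iff₀ (pow_pos hGp 2)]
  refine hS.trans ?_
  rw [add_mul, mul_comm (G₀ ^ 2), ← hσ]
  refine add_le_add (le_of_eq ?_) (mul_le_mul_of_nonneg_left
    (pow_le_pow_left₀ (zero_le_one.trans hG0) hG2 2) hE0)
  rw [sq, ← mul_assoc, div_mul_cancel₀ _ hGp.ne']

end Pool.Agent.P.MP_26a8c3_nt.Hyb
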